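import Mathlib

set_option autoImplicit false

open Complex Metric Real

namespace Pool.Agent.Helper22Hardy

/-- Average of a function over the unit circle. -/
noncomputable def av {E : Type*} [NormedAddCommGroup E] [NormedSpace ℝ E] (F : ℂ → E) : E :=
  Real.circleAverage F 0 1

section basics

variable {E : Type*} [NormedAddCommGroup E] [NormedSpace ℝ E]

/-- Continuity on the unit circle. -/
abbrev CS {X : Type*} [TopologicalSpace X] (F : ℂ → X) : Prop := ContinuousOn F (sphere (0:ℂ) 1)

lemma CS.ci {F : ℂ → E} (hF : CS F) : CircleIntegrable F 0 1 := by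
  apply ContinuousOn.circleIntegrable'
  simpa using hF

lemma av_add {F G : ℂ → E} (hF : CS F) (hG : CS G) :
    av (fun z => F z + G z) = av F + av G :=
  Real.circleAverage_fun_add hF.ci hG.ci

lemma av_sub {F G : ℂ → E} (hF : CS F) (hG : CS G) :
    av (fun z => F z - G z) = av F - av G :=
  Real.circleAverage_fun_sub hF.ci hG.ci

lemma av_const [CompleteSpace E] (a : E) : av (fun _ => a) = a :=
  Real.circleAverage_const a 0 1

lemma av_sum {ι : Type*} {s : Finset ι} {F : ι → ℂ → E} (h : ∀ i ∈ s, CS (F i)) :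
    av (fun z => ∑ i ∈ s, F i z) = ∑ i ∈ s, av (F i) :=
  Real.circleAverage_fun_sum (fun i hi => (h i hi).ci)

lemma av_mul_left (c : ℝ) (F : ℂ → ℝ) : av (fun z => c * F z) = c * av F := by
  have := Real.circleAverage_fun_smul (a := c) (f := F) (c := 0) (R := 1)
  simpa [av, smul_eq_mul] using this

lemma av_cmul_left (c : ℂ) (F : ℂ → ℂ) : av (fun z => c * F z) = c * av F := by
  have := Real.circleAverage_fun_smul (a := c) (f := F) (c := 0) (R := 1)
  simpa [av, smul_eq_mul] using this

lemma av_congr {F G : ℂ → E} (h : ∀ z ∈ sphere (0:ℂ) 1, F z = G z) : av F = av G := by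
  apply Real.circleAverage_congr_sphere
  intro z hz
  apply h
  simpa using hz

lemma av_mono {F G : ℂ → ℝ} (hF : CS F) (hG : CS G) (h : ∀ z ∈ sphere (0:ℂ) 1, F z ≤ G z) :
    av F ≤ av G := by
  apply Real.circleAverage_mono hF.ci hG.ci
  intro z hz
  apply h
  simpa using hz

lemma av_nonneg {F : ℂ → ℝ} (h : ∀ z ∈ sphere (0:ℂ) 1, 0 ≤ F z) : 0 ≤ av F := by
  apply Real.circleAverage_nonneg_of_nonneg
  intro z hz
  apply h
  simpa using hz

lemma av_le_of_le {F : ℂ → ℝ} {c : ℝ} (hF : CS F) (h : ∀ z ∈ sphere (0:ℂ) 1, F z ≤ c) :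
    av F ≤ c := by
  have := av_mono hF (G := fun _ => c) continuousOn_const h
  rwa [av_const] at this

lemma norm_av_le {F : ℂ → E} (hF : CS F) : ‖av F‖ ≤ av (fun z => ‖F z‖) := by
  unfold av Real.circleAverage
  rw [norm_smul, Real.norm_eq_abs, abs_of_pos (inv_pos.2 two_pi_pos), smul_eq_mul]
  apply mul_le_mul_of_nonneg_left _ (inv_pos.2 two_pi_pos).le
  exact intervalIntegral.norm_integral_le_integral_norm (le_of_lt two_pi_pos)

lemma av_clm {G : Type*} [NormedAddCommGroup G] [NormedSpace ℝ G] [CompleteSpace G]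
    [CompleteSpace E] (L : E →L[ℝ] G)
    {F : ℂ → E} (hF : CS F) : av (fun z => L (F z)) = L (av F) :=
  L.circleAverage_comp_comm hF.ci

/-- Mean value property. -/
lemma av_of_diff {E : Type*} [NormedAddCommGroup E] [NormedSpace ℂ E] [CompleteSpace E]
    {F : ℂ → E} (hF : DiffContOnCl ℂ F (ball 0 1)) : av F = F 0 := by
  apply DiffContOnCl.circleAverage
  simpa using hF

lemma DiffContOnCl.cs {E : Type*} [NormedAddCommGroup E] [NormedSpace ℂ E] {F : ℂ → E}
    (hF : DiffContOnCl ℂ F (ball 0 1)) : CS F := by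
  have := hF.continuousOn
  rw [closure_ball _ one_ne_zero] at this
  exact this.mono sphere_subset_closedBall

end basics

end Pool.Agent.Helper22Hardy
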