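import Pool.Agent.Helper22_Hardy.Idx

set_option autoImplicit false

/-!
Kronecker-Weyl theorem for linear flows on the torus, with iterated circle averages.
-/

open Complex Metric Real Filter Topology
open scoped ComplexConjugate

namespace Pool.Agent.Helper22Hardy

universe u

section itav

variable {E : Type*} [NormedAddCommGroup E] [NormedSpace ℝ E]

lemma av_continuousE {X : Type*} [TopologicalSpace X] {F : X → ℂ → E}
    (hF : Continuous (Function.uncurry F)) : Continuous (fun x => av (F x)) := by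
  unfold av Real.circleAverage
  have h1 : Continuous (Function.uncurry (fun (x : X) (θ : ℝ) => F x (circleMap 0 1 θ))) := by
    have : Function.uncurry (fun (x : X) (θ : ℝ) => F x (circleMap 0 1 θ))
        = Function.uncurry F ∘ (fun p : X × ℝ => (p.1, circleMap 0 1 p.2)) := rfl
    rw [this]
    apply hF.comp
    fun_prop
  have h2 := intervalIntegral.continuous_parametric_intervalIntegral_of_continuous'
    (μ := MeasureTheory.volume) h1 0 (2 * π)
  exact h2.const_smul ((2 * π)⁻¹)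

/-- iterated circle average -/
noncomputable def itAv : (r : ℕ) → ((Fin r → ℂ) → E) → E
  | 0, G => G Fin.elim0
  | (r+1), G => av (fun z => itAv r (fun w => G (Fin.cons z w)))

/-- points of the torus -/
def Tor {r : ℕ} (w : Fin r → ℂ) : Prop := ∀ j, ‖w j‖ = 1

lemma Tor_cons {r : ℕ} {z : ℂ} {w : Fin r → ℂ} (hz : z ∈ sphere (0:ℂ) 1) (hw : Tor w) :
    Tor (Fin.cons z w : Fin (r+1) → ℂ) := by
  intro j
  refine Fin.cases ?_ (fun i => ?_) j
  · simpa using hz
  · simpa using hw i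

lemma itAv_continuous : ∀ (r : ℕ) {X : Type u} [TopologicalSpace X] {G : X → (Fin r → ℂ) → E},
    Continuous (Function.uncurry G) → Continuous (fun x => itAv r (G x))
  | 0, X, _, G, h => by
    simp only [itAv]
    exact h.comp (by fun_prop : Continuous (fun x : X => (x, (Fin.elim0 : Fin 0 → ℂ))))
  | r+1, X, _, G, h => by
    simp only [itAv]
    apply av_continuousE (X := X) (F := fun x z => itAv r (fun w => G x (Fin.cons z w)))
    have h1 : Continuous (Function.uncurry
        (fun (p : X × ℂ) (w : Fin r → ℂ) => G p.1 (Fin.cons p.2 w))) := by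
      have h2 : Continuous (fun q : (X × ℂ) × (Fin r → ℂ) =>
          (q.1.1, (Fin.cons q.1.2 q.2 : Fin (r+1) → ℂ))) := by
        apply Continuous.prodMk (by fun_prop)
        exact Continuous.finCons (by fun_prop) (by fun_prop)
      exact h.comp h2
    exact itAv_continuous r h1

lemma slice_continuous {r : ℕ} {G : (Fin (r+1) → ℂ) → E} (h : Continuous G) :
    Continuous (Function.uncurry (fun (z : ℂ) (w : Fin r → ℂ) => G (Fin.cons z w))) := by
  have h2 : Continuous (fun q : ℂ × (Fin r → ℂ) => (Fin.cons q.1 q.2 : Fin (r+1) → ℂ)) :=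
    Continuous.finCons (by fun_prop) (by fun_prop)
  exact h.comp h2

lemma slice_continuous' {r : ℕ} {G : (Fin (r+1) → ℂ) → E} (h : Continuous G) (z : ℂ) :
    Continuous (fun (w : Fin r → ℂ) => G (Fin.cons z w)) :=
  h.comp (Continuous.finCons continuous_const continuous_id)

lemma itAv_slice_cs {r : ℕ} {G : (Fin (r+1) → ℂ) → E} (h : Continuous G) :
    CS (fun z => itAv r (fun w => G (Fin.cons z w))) :=
  (itAv_continuous r (slice_continuous h)).continuousOn

lemma itAv_congr : ∀ (r : ℕ) {G H : (Fin r → ℂ) → E}, (∀ w, Tor w → G w = H w) →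
    itAv r G = itAv r H
  | 0, G, H, h => h _ (fun j => j.elim0)
  | r+1, G, H, h => by
    simp only [itAv]
    apply av_congr
    intro z hz
    exact itAv_congr r (fun w hw => h _ (Tor_cons hz hw))

lemma itAv_add : ∀ (r : ℕ) {G H : (Fin r → ℂ) → E}, Continuous G → Continuous H →
    itAv r (fun w => G w + H w) = itAv r G + itAv r H
  | 0, G, H, _, _ => rfl
  | r+1, G, H, hG, hH => by
    simp only [itAv]
    rw [← av_add (itAv_slice_cs hG) (itAv_slice_cs hH)]
    apply av_congr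
    intro z _
    exact itAv_add r (slice_continuous' hG z) (slice_continuous' hH z)

lemma itAv_sub : ∀ (r : ℕ) {G H : (Fin r → ℂ) → E}, Continuous G → Continuous H →
    itAv r (fun w => G w - H w) = itAv r G - itAv r H
  | 0, G, H, _, _ => rfl
  | r+1, G, H, hG, hH => by
    simp only [itAv]
    rw [← av_sub (itAv_slice_cs hG) (itAv_slice_cs hH)]
    apply av_congr
    intro z _
    exact itAv_sub r (slice_continuous' hG z) (slice_continuous' hH z)

lemma norm_itAv_le : ∀ (r : ℕ) {G : (Fin r → ℂ) → E} {c : ℝ}, Continuous G →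
    (∀ w, Tor w → ‖G w‖ ≤ c) → ‖itAv r G‖ ≤ c
  | 0, G, c, _, h => h _ (fun j => j.elim0)
  | r+1, G, c, hG, h => by
    simp only [itAv]
    refine (norm_av_le (itAv_slice_cs hG)).trans ?_
    apply av_le_of_le (itAv_slice_cs hG).norm
    intro z hz
    exact norm_itAv_le r (slice_continuous' hG z) (fun w hw => h _ (Tor_cons hz hw))

lemma itAv_clm {F : Type*} [NormedAddCommGroup F] [NormedSpace ℝ F] [CompleteSpace E]
    [CompleteSpace F] (L : E →L[ℝ] F) : ∀ (r : ℕ) {G : (Fin r → ℂ) → E}, Continuous G →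
    itAv r (fun w => L (G w)) = L (itAv r G)
  | 0, G, _ => rfl
  | r+1, G, hG => by
    simp only [itAv]
    rw [← av_clm L (itAv_slice_cs hG)]
    apply av_congr
    intro z _
    exact itAv_clm L r (slice_continuous' hG z)

end itav

lemma itAv_cmul (c : ℂ) : ∀ (r : ℕ) (G : (Fin r → ℂ) → ℂ),
    itAv r (fun w => c * G w) = c * itAv r G
  | 0, G => rfl
  | r+1, G => by
    simp only [itAv]
    rw [← av_cmul_left]
    apply av_congr
    intro z _
    exact itAv_cmul c r _

/-- continuous extension of integer powers from the circle -/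
noncomputable def mz (n : ℤ) (z : ℂ) : ℂ := if 0 ≤ n then z ^ n.toNat else conj z ^ (-n).toNat

lemma mz_continuous (n : ℤ) : Continuous (mz n) := by
  unfold mz
  split_ifs
  · fun_prop
  · have := Complex.continuous_conj
    fun_prop

lemma conj_eq_inv {z : ℂ} (hz : ‖z‖ = 1) : conj z = z⁻¹ := by
  rw [Complex.inv_def, Complex.normSq_eq_norm_sq, hz]
  simp

lemma mz_eq_zpow (n : ℤ) {z : ℂ} (hz : ‖z‖ = 1) : mz n z = z ^ n := by
  unfold mz
  split_ifs with h
  · rw [← zpow_natCast, Int.toNat_of_nonneg h]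
  · rw [conj_eq_inv hz, ← zpow_natCast, Int.toNat_of_nonneg (by omega), inv_zpow, zpow_neg, inv_inv]

lemma av_mz (n : ℤ) : av (mz n) = if n = 0 then 1 else 0 := by
  unfold mz
  split_ifs with h1 h2 h2
  · subst h2; simp [av_const]
  · have := av_pow n.toNat
    rw [this, if_neg]
    omega
  · omega
  · have h3 := av_pow_conj 0 (-n).toNat
    rw [if_neg (by omega)] at h3
    rw [← h3]
    apply av_congr
    intro z _
    simp

/-- monomials -/
noncomputable def mono {r : ℕ} (n : Fin r → ℤ) (w : Fin r → ℂ) : ℂ := ∏ j, mz (n j) (w j)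

lemma mono_continuous {r : ℕ} (n : Fin r → ℤ) : Continuous (mono n) := by
  unfold mono
  apply continuous_finset_prod
  intro j _
  exact (mz_continuous (n j)).comp (continuous_apply j)

lemma mono_cons {r : ℕ} (n : Fin (r+1) → ℤ) (z : ℂ) (w : Fin r → ℂ) :
    mono n (Fin.cons z w) = mz (n 0) z * mono (Fin.tail n) w := by
  unfold mono
  rw [Fin.prod_univ_succ]
  rfl

lemma itAv_mono : ∀ (r : ℕ) (n : Fin r → ℤ), itAv r (mono n) = if n = 0 then 1 else 0
  | 0, n => by
    have : n = 0 := Subsingleton.elim _ _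
    rw [if_pos this]
    simp [itAv, mono]
  | r+1, n => by
    simp only [itAv, mono_cons, itAv_cmul, itAv_mono r]
    have h : av (fun z => mz (n 0) z * (if Fin.tail n = 0 then (1:ℂ) else 0))
        = (if Fin.tail n = 0 then (1:ℂ) else 0) * av (mz (n 0)) := by
      rw [← av_cmul_left]
      apply av_congr
      intro z _
      ring
    rw [h, av_mz]
    have h2 : n = 0 ↔ (Fin.tail n = 0 ∧ n 0 = 0) := by
      constructor
      · rintro rfl; exact ⟨rfl, rfl⟩
      · rintro ⟨h3, h4⟩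
        funext j
        refine Fin.cases ?_ (fun i => ?_) j
        · exact h4
        · exact congrFun h3 i
    by_cases h3 : Fin.tail n = 0 <;> by_cases h4 : n 0 = 0 <;> simp [h2, h3, h4]

/-- phases -/
noncomputable def ph (s t : ℝ) : ℂ := Complex.exp (-(2 * (π:ℂ) * Complex.I * s * t))

lemma ph_norm (s t : ℝ) : ‖ph s t‖ = 1 := by
  unfold ph
  rw [Complex.norm_exp]
  simp

lemma ph_continuous (s : ℝ) : Continuous (ph s) := by
  unfold ph
  fun_prop

/-- time averages -/
noncomputable def TA {r : ℕ} (θ : Fin r → ℝ) (G : (Fin r → ℂ) → ℂ) (T : ℝ) : ℂ :=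
  ((1 / T : ℝ) : ℂ) * ∫ t in (-T / 2)..(T / 2), G (fun j => ph (θ j) t)

lemma flow_continuous {r : ℕ} (θ : Fin r → ℝ) {E : Type*} [TopologicalSpace E]
    {G : (Fin r → ℂ) → E} (hG : Continuous G) :
    Continuous (fun t => G (fun j => ph (θ j) t)) := by
  apply hG.comp
  apply continuous_pi
  intro j
  exact ph_continuous (θ j)

lemma TA_add {r : ℕ} (θ : Fin r → ℝ) {G H : (Fin r → ℂ) → ℂ} (hG : Continuous G)
    (hH : Continuous H) (T : ℝ) : TA θ (fun w => G w + H w) T = TA θ G T + TA θ H T := by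
  unfold TA
  rw [intervalIntegral.integral_add ((flow_continuous θ hG).intervalIntegrable _ _)
    ((flow_continuous θ hH).intervalIntegrable _ _), mul_add]

lemma TA_sub {r : ℕ} (θ : Fin r → ℝ) {G H : (Fin r → ℂ) → ℂ} (hG : Continuous G)
    (hH : Continuous H) (T : ℝ) : TA θ (fun w => G w - H w) T = TA θ G T - TA θ H T := by
  unfold TA
  rw [intervalIntegral.integral_sub ((flow_continuous θ hG).intervalIntegrable _ _)
    ((flow_continuous θ hH).intervalIntegrable _ _), mul_sub]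

lemma TA_cmul {r : ℕ} (θ : Fin r → ℝ) (c : ℂ) (G : (Fin r → ℂ) → ℂ) (T : ℝ) :
    TA θ (fun w => c * G w) T = c * TA θ G T := by
  unfold TA
  rw [intervalIntegral.integral_const_mul]
  ring

lemma norm_TA_le {r : ℕ} (θ : Fin r → ℝ) {G : (Fin r → ℂ) → ℂ} {c : ℝ}
    (h : ∀ w, Tor w → ‖G w‖ ≤ c) {T : ℝ} (hT : 0 < T) : ‖TA θ G T‖ ≤ c := by
  unfold TA
  have h1 : ‖∫ t in (-T / 2)..(T / 2), G (fun j => ph (θ j) t)‖ ≤ c * |T / 2 - (-T / 2)| := by
    apply intervalIntegral.norm_integral_le_of_norm_le_const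
    intro t _
    exact h _ (fun j => ph_norm (θ j) t)
  have h2 : T / 2 - (-T / 2) = T := by ring
  rw [h2, abs_of_pos hT] at h1
  rw [norm_mul, Complex.norm_real, Real.norm_eq_abs, abs_of_pos (by positivity)]
  calc 1 / T * ‖∫ t in (-T / 2)..(T / 2), G (fun j => ph (θ j) t)‖ ≤ 1 / T * (c * T) :=
        mul_le_mul_of_nonneg_left h1 (by positivity)
    _ = c := by field_simp

lemma mono_flow {r : ℕ} (θ : Fin r → ℝ) (n : Fin r → ℤ) (t : ℝ) :
    mono n (fun j => ph (θ j) t) = ph (∑ j, (n j : ℝ) * θ j) t := by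
  unfold mono
  have h : ∀ j, mz (n j) (ph (θ j) t) = Complex.exp (-(2 * (π:ℂ) * Complex.I * (n j * θ j) * t)) := by
    intro j
    rw [mz_eq_zpow _ (ph_norm _ _)]
    unfold ph
    rw [← Complex.exp_int_mul]
    congr 1
    ring
  simp only [h]
  rw [← Complex.exp_sum]
  unfold ph
  congr 1
  push_cast
  rw [Finset.sum_neg_distrib, Finset.mul_sum, Finset.sum_mul]

lemma TA_ph_tendsto {s : ℝ} (hs : s ≠ 0) :
    Tendsto (fun T : ℝ => ((1 / T : ℝ) : ℂ) * ∫ t in (-T / 2)..(T / 2), ph s t) atTop (𝓝 0) := by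
  obtain ⟨c, hc⟩ : ∃ c : ℂ, c = -(2 * (π:ℂ) * Complex.I * s) := ⟨_, rfl⟩
  have hc0 : c ≠ 0 := by
    rw [hc]
    have hpi : (π:ℂ) ≠ 0 := by exact_mod_cast Real.pi_ne_zero
    have hs' : (s:ℂ) ≠ 0 := by exact_mod_cast hs
    simp [hpi, hs', Complex.I_ne_zero]
  have h1 : ∀ T : ℝ, ∫ t in (-T / 2)..(T / 2), ph s t
      = (Complex.exp (c * ((T/2 : ℝ) : ℂ)) - Complex.exp (c * ((-T/2 : ℝ) : ℂ))) / c := by
    intro T
    rw [← integral_exp_mul_complex hc0]
    apply intervalIntegral.integral_congr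
    intro t _
    simp only [ph, hc]
    congr 1
    ring
  have hn : ∀ x : ℝ, ‖Complex.exp (c * (x:ℂ))‖ = 1 := by
    intro x
    rw [Complex.norm_exp, hc]
    simp
  have h2 : ∀ T : ℝ, 0 < T → ‖((1 / T : ℝ) : ℂ) * ∫ t in (-T / 2)..(T / 2), ph s t‖
      ≤ (2 / ‖c‖) * (1 / T) := by
    intro T hT
    rw [h1, norm_mul, norm_div, Complex.norm_real, Real.norm_eq_abs, abs_of_pos (by positivity)]
    have h3 : ‖Complex.exp (c * ((T/2 : ℝ) : ℂ)) - Complex.exp (c * ((-T/2 : ℝ) : ℂ))‖ ≤ 2 := by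
      refine (norm_sub_le _ _).trans ?_
      rw [hn, hn]; norm_num
    have hcn : 0 < ‖c‖ := norm_pos_iff.2 hc0
    calc 1 / T * (‖Complex.exp (c * ((T/2 : ℝ) : ℂ)) - Complex.exp (c * ((-T/2 : ℝ) : ℂ))‖ / ‖c‖)
        ≤ 1 / T * (2 / ‖c‖) := by gcongr
      _ = _ := by ring
  apply squeeze_zero_norm' (a := fun T : ℝ => (2 / ‖c‖) * (1 / T))
  · filter_upwards [eventually_gt_atTop 0] with T hT
    exact h2 T hT
  · have : Tendsto (fun T : ℝ => (2 / ‖c‖) * (1 / T)) atTop (𝓝 ((2 / ‖c‖) * 0)) := by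
      have h0 : Tendsto (fun T : ℝ => 1 / T) atTop (𝓝 0) :=
        tendsto_inv_atTop_zero.congr (fun x => (one_div x).symm)
      exact h0.const_mul _
    simpa using this

/-- good functions: those for which Weyl equidistribution holds -/
def Good {r : ℕ} (θ : Fin r → ℝ) (G : (Fin r → ℂ) → ℂ) : Prop :=
  Continuous G ∧ Tendsto (TA θ G) atTop (𝓝 (itAv r G))

lemma Good_mono {r : ℕ} {θ : Fin r → ℝ}
    (hθ : ∀ n : Fin r → ℤ, (∑ j, (n j : ℝ) * θ j) = 0 → n = 0) (n : Fin r → ℤ) :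
    Good θ (mono n) := by
  refine ⟨mono_continuous n, ?_⟩
  rw [itAv_mono]
  by_cases hn : n = 0
  · rw [if_pos hn]
    have h1 : ∀ w : Fin r → ℂ, mono n w = 1 := by
      intro w
      rw [hn]
      simp [mono, mz]
    apply Tendsto.congr' _ (tendsto_const_nhds (x := (1:ℂ)))
    filter_upwards [eventually_gt_atTop 0] with T hT
    unfold TA
    simp only [h1, intervalIntegral.integral_const]
    have h2 : T / 2 - (-T / 2) = T := by ring
    rw [h2]
    have hT' : (T:ℂ) ≠ 0 := by exact_mod_cast hT.ne'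
    simp [hT']
  · rw [if_neg hn]
    have h1 := TA_ph_tendsto (fun h => hn (hθ n h))
    unfold TA
    simp only [mono_flow]
    exact h1

lemma Good_add {r : ℕ} {θ : Fin r → ℝ} {G H : (Fin r → ℂ) → ℂ} (hG : Good θ G) (hH : Good θ H) :
    Good θ (fun w => G w + H w) := by
  refine ⟨hG.1.add hH.1, ?_⟩
  rw [itAv_add r hG.1 hH.1]
  have h := hG.2.add hH.2
  refine h.congr (fun T => ?_)
  rw [TA_add θ hG.1 hH.1]

lemma Good_cmul {r : ℕ} {θ : Fin r → ℝ} (c : ℂ) {G : (Fin r → ℂ) → ℂ} (hG : Good θ G) :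
    Good θ (fun w => c * G w) := by
  refine ⟨continuous_const.mul hG.1, ?_⟩
  rw [itAv_cmul]
  have h := hG.2.const_mul c
  refine h.congr (fun T => ?_)
  rw [TA_cmul]

/-- coordinates of the additive torus -/
noncomputable def et {r : ℕ} (x : UnitAddTorus (Fin r)) : Fin r → ℂ := fun j => fourier 1 (x j)

lemma et_continuous {r : ℕ} : Continuous (et (r := r)) := by
  apply continuous_pi
  intro j
  exact (fourier (T := 1) 1).continuous.comp (continuous_apply j)

lemma fourier_eq_mz (n : ℤ) (x : UnitAddCircle) : fourier n x = mz n (fourier 1 x : ℂ) := by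
  have hn : ‖(fourier 1 x : ℂ)‖ = 1 := by
    rw [fourier_apply]
    exact Circle.norm_coe _
  rw [mz_eq_zpow _ hn, fourier_apply, fourier_apply, one_smul, AddCircle.toCircle_zsmul]
  simp

lemma mFourier_eq {r : ℕ} (n : Fin r → ℤ) (x : UnitAddTorus (Fin r)) :
    UnitAddTorus.mFourier n x = mono n (et x) := by
  unfold mono et
  simp only [UnitAddTorus.mFourier, ContinuousMap.coe_mk]
  apply Finset.prod_congr rfl
  intro j _
  exact fourier_eq_mz _ _

lemma et_surj {r : ℕ} {w : Fin r → ℂ} (hw : Tor w) : ∃ x : UnitAddTorus (Fin r), et x = w := by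
  refine ⟨fun j => ((Complex.arg (w j) / (2 * π) : ℝ) : UnitAddCircle), ?_⟩
  funext j
  unfold et
  rw [fourier_coe_apply]
  have hpi : (π:ℂ) ≠ 0 := by exact_mod_cast Real.pi_ne_zero
  have h1 : 2 * (π:ℂ) * Complex.I * ((1:ℤ):ℂ) * ((Complex.arg (w j) / (2 * π) : ℝ) : ℂ) / ((1:ℝ):ℂ)
      = Complex.arg (w j) * Complex.I := by
    push_cast
    field_simp
  rw [h1]
  have h2 := Complex.norm_mul_exp_arg_mul_I (w j)
  rw [hw j] at h2
  simpa using h2

lemma Good_span {r : ℕ} {θ : Fin r → ℝ}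
    (hθ : ∀ n : Fin r → ℤ, (∑ j, (n j : ℝ) * θ j) = 0 → n = 0)
    {g : C(UnitAddTorus (Fin r), ℂ)}
    (hg : g ∈ Submodule.span ℂ (Set.range (UnitAddTorus.mFourier (d := Fin r)))) :
    ∃ G : (Fin r → ℂ) → ℂ, Good θ G ∧ ∀ x, G (et x) = g x := by
  induction hg using Submodule.span_induction with
  | mem x h =>
    obtain ⟨n, rfl⟩ := h
    exact ⟨mono n, Good_mono hθ n, fun x => (mFourier_eq n x).symm⟩
  | zero =>
    refine ⟨fun w => 0 * mono 0 w, Good_cmul 0 (Good_mono hθ 0), fun x => ?_⟩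
    simp
  | add x y _ _ hx hy =>
    obtain ⟨G, hG, hG2⟩ := hx
    obtain ⟨H, hH, hH2⟩ := hy
    refine ⟨fun w => G w + H w, Good_add hG hH, fun z => ?_⟩
    simp [hG2, hH2]
  | smul c x _ hx =>
    obtain ⟨G, hG, hG2⟩ := hx
    refine ⟨fun w => c * G w, Good_cmul c hG, fun z => ?_⟩
    simp [hG2]

theorem weyl_complex {r : ℕ} {θ : Fin r → ℝ}
    (hθ : ∀ n : Fin r → ℤ, (∑ j, (n j : ℝ) * θ j) = 0 → n = 0)
    {G : (Fin r → ℂ) → ℂ} (hG : Continuous G) :
    Tendsto (TA θ G) atTop (𝓝 (itAv r G)) := by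
  rw [Metric.tendsto_atTop']
  intro ε hε
  obtain ⟨g0, hg0⟩ : ∃ g0 : C(UnitAddTorus (Fin r), ℂ), ∀ x, g0 x = G (et x) :=
    ⟨⟨fun x => G (et x), hG.comp et_continuous⟩, fun x => rfl⟩
  have hmem : g0 ∈ closure ((Submodule.span ℂ (Set.range (UnitAddTorus.mFourier (d := Fin r))) :
      Submodule ℂ C(UnitAddTorus (Fin r), ℂ)) : Set C(UnitAddTorus (Fin r), ℂ)) := by
    have h := UnitAddTorus.span_mFourier_closure_eq_top (d := Fin r)
    have h2 : g0 ∈ (Submodule.span ℂ (Set.range (UnitAddTorus.mFourier (d := Fin r)))).topologicalClosure := by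
      rw [h]; trivial
    exact h2
  rw [Metric.mem_closure_iff] at hmem
  obtain ⟨g, hgs, hgd⟩ := hmem (ε/4) (by positivity)
  obtain ⟨H, hH, hH2⟩ := Good_span hθ hgs
  have hclose : ∀ w, Tor w → ‖G w - H w‖ ≤ ε/4 := by
    intro w hw
    obtain ⟨x, hx⟩ := et_surj hw
    rw [← hx, hH2, ← hg0]
    rw [dist_eq_norm] at hgd
    exact ((g0 - g).norm_coe_le_norm x).trans hgd.le
  have h3 := (Metric.tendsto_atTop'.1 hH.2) (ε/4) (by positivity)
  obtain ⟨N, hN⟩ := h3
  refine ⟨max N 0, fun T hT => ?_⟩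
  have hT0 : 0 < T := lt_of_le_of_lt (le_max_right _ _) hT
  have hTN : N < T := lt_of_le_of_lt (le_max_left _ _) hT
  have h4 := hN T hTN
  rw [dist_eq_norm] at h4 ⊢
  have h5 : ‖TA θ G T - TA θ H T‖ ≤ ε/4 := by
    rw [← TA_sub θ hG hH.1]
    exact norm_TA_le θ hclose hT0
  have h6 : ‖itAv r G - itAv r H‖ ≤ ε/4 := by
    rw [← itAv_sub r hG hH.1]
    exact norm_itAv_le r (hG.sub hH.1) hclose
  have h7 : TA θ G T - itAv r G = (TA θ G T - TA θ H T) + (TA θ H T - itAv r H)
      - (itAv r G - itAv r H) := by ring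
  rw [h7]
  refine lt_of_le_of_lt (norm_sub_le _ _) ?_
  refine lt_of_le_of_lt (add_le_add_left (norm_add_le _ _) _) ?_
  linarith

/-- **Kronecker-Weyl** for real valued continuous functions. -/
theorem kronecker_weyl {r : ℕ} {θ : Fin r → ℝ}
    (hθ : ∀ n : Fin r → ℤ, (∑ j, (n j : ℝ) * θ j) = 0 → n = 0)
    {G : (Fin r → ℂ) → ℝ} (hG : Continuous G) :
    Tendsto (fun T : ℝ => (1 / T) * ∫ t in (-T / 2)..(T / 2), G (fun j => ph (θ j) t))
      atTop (𝓝 (itAv r G)) := by
  have h := weyl_complex hθ (G := fun w => ((G w : ℝ) : ℂ)) (Complex.continuous_ofReal.comp hG)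
  have h1 : itAv r (fun w => ((G w : ℝ) : ℂ)) = ((itAv r G : ℝ) : ℂ) :=
    itAv_clm Complex.ofRealCLM r hG
  rw [h1] at h
  have h2 := (Complex.continuous_re.tendsto _).comp h
  rw [Complex.ofReal_re] at h2
  refine h2.congr (fun T => ?_)
  simp only [Function.comp, TA]
  rw [intervalIntegral.integral_ofReal, ← Complex.ofReal_mul, Complex.ofReal_re]

end Pool.Agent.Helper22Hardy
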