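import Pool.Agent.Helper22_Hardy.Key
import Pool.Agent.Helper22_Hardy.Weyl

set_option autoImplicit false

open Complex Metric Real
open scoped ComplexConjugate

namespace Pool.Agent.Helper22Hardy

variable {K : ℕ}

/-- evaluation of all variables -/
noncomputable def evA : (r : ℕ) → Cv K r → (Fin r → ℂ) → ℂ
  | 0 => fun a _ => a (zi K 0)
  | (r+1) => fun a w => evA r (ev a (w 0)) (Fin.tail w)

lemma evA_succ (r : ℕ) (a : Cv K (r+1)) (w : Fin (r+1) → ℂ) :
    evA (r+1) a w = evA r (ev a (w 0)) (Fin.tail w) := rfl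

lemma itAv_evA : ∀ (r : ℕ) (a : Cv K r), itAv r (fun w => ‖evA r a w‖) = norm1 r a
  | 0, a => rfl
  | r+1, a => by
    have h1 : itAv (r+1) (fun w => ‖evA (r+1) a w‖)
      = av (fun z => itAv r (fun w => ‖evA (r+1) a (Fin.cons z w)‖)) := rfl
    have h2 : norm1 (r+1) a = av (fun z => norm1 r (ev a z)) := rfl
    rw [h1, h2]
    apply av_congr
    intro z _
    rw [← itAv_evA r (ev a z)]
    congr 1

/-- monomials in the variables -/
noncomputable def monoI (K : ℕ) : (r : ℕ) → Idx K r → (Fin r → ℂ) → ℂ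
  | 0 => fun _ _ => 1
  | (r+1) => fun (ν : Fin (K+2) × Idx K r) w => w 0 ^ (ν.1:ℕ) * monoI K r ν.2 (Fin.tail w)

lemma monoI_succ (r : ℕ) (k : Fin (K+2)) (μ : Idx K r) (w : Fin (r+1) → ℂ) :
    monoI K (r+1) ((k, μ) : Fin (K+2) × Idx K r) w = w 0 ^ (k:ℕ) * monoI K r μ (Fin.tail w) := rfl

lemma evA_eq : ∀ (r : ℕ) (a : Cv K r) (w : Fin r → ℂ), evA r a w = ∑ ν, a ν * monoI K r ν w
  | 0, a, w => by
    rw [sum_idx_zero]
    simp only [evA, monoI, mul_one]
    rfl
  | r+1, a, w => by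
    rw [evA_succ, evA_eq r, sum_idx_succ, Finset.sum_comm]
    apply Finset.sum_congr rfl
    intro μ _
    unfold ev
    rw [Finset.sum_mul]
    apply Finset.sum_congr rfl
    intro k _
    rw [monoI_succ]
    unfold sl
    ring

lemma monoI_continuous : ∀ (r : ℕ) (ν : Idx K r), Continuous (monoI K r ν)
  | 0, ν => by simp only [monoI]; exact continuous_const
  | r+1, ν => by
    obtain ⟨k, μ⟩ := (ν : Fin (K+2) × Idx K r)
    have h1 : Continuous (fun w : Fin (r+1) → ℂ => w 0 ^ (k:ℕ) * monoI K r μ (Fin.tail w)) := by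
      apply Continuous.mul (by fun_prop)
      apply (monoI_continuous r μ).comp
      apply continuous_pi
      intro j
      exact continuous_apply j.succ
    exact h1

lemma evA_cont (r : ℕ) (a : Cv K r) : Continuous (fun w => evA r a w) := by
  have : (fun w => evA r a w) = fun w => ∑ ν, a ν * monoI K r ν w := by
    funext w; exact evA_eq r a w
  rw [this]
  apply continuous_finsetSum
  intro ν _
  exact continuous_const.mul (monoI_continuous r ν)

lemma ph_add (s u t : ℝ) : ph (s + u) t = ph s t * ph u t := by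
  unfold ph
  rw [← Complex.exp_add]
  congr 1
  push_cast
  ring

lemma ph_pow (s t : ℝ) (k : ℕ) : ph s t ^ k = ph (k * s) t := by
  unfold ph
  rw [← Complex.exp_nat_mul]
  congr 1
  push_cast
  ring

lemma monoI_flow (t : ℝ) : ∀ (r i : ℕ) (ν : Idx K r),
    monoI K r ν (fun j : Fin r => ph (Real.log (P (i + j))) t) = ph (Real.log (val K i r ν)) t
  | 0, i, ν => by simp [monoI, val, ph]
  | r+1, i, ν => by
    obtain ⟨k, μ⟩ := (ν : Fin (K+2) × Idx K r)
    have goal : monoI K (r+1) ((k, μ) : Fin (K+2) × Idx K r)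
        (fun j : Fin (r+1) => ph (Real.log (P (i + j))) t)
        = ph (Real.log (val K i (r+1) ((k, μ) : Fin (K+2) × Idx K r))) t := by
      rw [monoI_succ, val_succ]
      have h1 : Fin.tail (fun j : Fin (r+1) => ph (Real.log (P (i + j))) t)
          = fun j : Fin r => ph (Real.log (P ((i + 1) + j))) t := by
        funext j
        simp only [Fin.tail, Fin.val_succ]
        rw [show i + ((j:ℕ) + 1) = i + 1 + j by omega]
      rw [h1, monoI_flow t r (i+1) μ]
      have hv : (0:ℝ) < val K (i+1) r μ := by exact_mod_cast val_pos r (i+1) μ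
      have hp : (0:ℝ) < P i := P_pos i
      push_cast
      rw [Real.log_mul (by positivity) hv.ne', Real.log_pow, ph_add, ph_pow]
      simp
    exact goal

lemma cpow_eq_ph {k : ℕ} (hk : 1 ≤ k) (t : ℝ) (a : ℂ) :
    a / ((k : ℂ) ^ (2 * (Real.pi : ℂ) * Complex.I * (t : ℂ))) = a * ph (Real.log k) t := by
  have hk0 : (k : ℂ) ≠ 0 := by
    have : k ≠ 0 := by omega
    exact_mod_cast this
  rw [Complex.cpow_def_of_ne_zero hk0, div_eq_mul_inv, ← Complex.exp_neg]
  unfold ph
  congr 2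
  rw [Complex.ofReal_log (by positivity), Complex.ofReal_natCast]
  ring

lemma sum_val {M : Type*} [AddCommMonoid M] {N : ℕ} (g : ℕ → M) :
    ∑ ν : Idx N N, (if val N 0 N ν ≤ N then g (val N 0 N ν) else 0) = ∑ k ∈ Finset.Icc 1 N, g k := by
  rw [← Finset.sum_filter]
  apply Finset.sum_nbij (fun ν => val N 0 N ν)
  · intro ν hν
    have := (Finset.mem_filter.1 hν).2
    rw [Finset.mem_Icc]
    exact ⟨val_pos N 0 ν, this⟩
  · intro ν _ ν' _ h
    exact val_inj N 0 ν ν' h
  · intro k hk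
    have hk' := Finset.mem_Icc.1 (Finset.mem_coe.1 hk)
    have hlt : k < 2 ^ (N+2) := by
      calc k ≤ N := hk'.2
        _ < 2 ^ N := Nat.lt_two_pow_self
        _ ≤ 2 ^ (N+2) := Nat.pow_le_pow_right (by norm_num) (by omega)
    obtain ⟨ν, hν⟩ := val_surj (K := N) N 0 k hk'.1 hlt (fun p hp hpk =>
      P_index hp ((Nat.le_of_dvd hk'.1 hpk).trans hk'.2))
    refine ⟨ν, ?_, hν⟩
    rw [Finset.mem_coe, Finset.mem_filter]
    exact ⟨Finset.mem_univ _, by rw [hν]; exact hk'.2⟩
  · intro ν _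
    rfl

/-- coefficient vector of a Dirichlet polynomial -/
noncomputable def Ac (N : ℕ) (a : ℕ → ℂ) : Cv N N := fun ν =>
  if val N 0 N ν ≤ N then a (val N 0 N ν) else 0

lemma dir_eq (N : ℕ) (a : ℕ → ℂ) (t : ℝ) :
    ∑ k ∈ Finset.Icc 1 N, a k / ((k : ℂ) ^ (2 * (Real.pi : ℂ) * Complex.I * (t : ℂ)))
      = evA N (Ac N a) (fun j : Fin N => ph (Real.log (P j)) t) := by
  have h1 : ∀ k ∈ Finset.Icc 1 N, a k / ((k : ℂ) ^ (2 * (Real.pi : ℂ) * Complex.I * (t : ℂ)))
      = a k * ph (Real.log k) t := fun k hk => cpow_eq_ph (Finset.mem_Icc.1 hk).1 t (a k)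
  rw [Finset.sum_congr rfl h1, ← sum_val (fun k => a k * ph (Real.log k) t), evA_eq]
  apply Finset.sum_congr rfl
  intro ν _
  have h2 := monoI_flow (K := N) t N 0 ν
  simp only [zero_add] at h2
  rw [h2]
  unfold Ac
  split_ifs
  · rfl
  · simp

theorem main : ∃ C : ℝ, 0 < C ∧ ∀ (N : ℕ), 1 ≤ N → ∀ (a : ℕ → ℂ), ∃ L : ℝ,
      Filter.Tendsto
        (fun T : ℝ => (1 / T) * ∫ t in (-T / 2)..(T / 2),
          ‖∑ k ∈ Finset.Icc 1 N,
              a k / ((k : ℂ) ^ (2 * (Real.pi : ℂ) * Complex.I * (t : ℂ)))‖)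
        Filter.atTop (nhds L) ∧
      C * (‖a 1‖ + ∑ k ∈ Finset.Icc 2 N, ‖a k‖ / (Real.sqrt k * Real.log k)) ≤ L := by
  obtain ⟨C, hC, hkey⟩ := key_inequality
  refine ⟨1 / (1 + C), by positivity, ?_⟩
  intro N hN a
  refine ⟨norm1 N (Ac N a), ?_, ?_⟩
  · rw [← itAv_evA]
    have hθ : ∀ n : Fin N → ℤ, (∑ j, (n j : ℝ) * Real.log (P j)) = 0 → n = 0 :=
      fun n h => log_indep n h
    have h1 := kronecker_weyl (θ := fun j : Fin N => Real.log (P j)) hθ
      (G := fun w => ‖evA N (Ac N a) w‖) (evA_cont N (Ac N a)).norm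
    refine h1.congr (fun T => ?_)
    congr 1
    apply intervalIntegral.integral_congr
    intro t _
    simp only [dir_eq]
  · have h1 := hkey N N (by omega) (Ac N a)
    have h2 : ∑ ν, (open Classical in if ν = zi N N then 0 else ‖Ac N a ν‖ * om N N ν)
        = ∑ k ∈ Finset.Icc 2 N, ‖a k‖ / (Real.sqrt k * Real.log k) := by
      have h3 : ∑ k ∈ Finset.Icc 2 N, ‖a k‖ / (Real.sqrt k * Real.log k)
          = ∑ k ∈ Finset.Icc 1 N, ‖a k‖ / (Real.sqrt k * Real.log k) := by
        apply Finset.sum_subset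
        · intro k hk
          rw [Finset.mem_Icc] at hk ⊢
          omega
        · intro k hk hk2
          rw [Finset.mem_Icc] at hk hk2
          have : k = 1 := by omega
          rw [this]
          simp
      rw [h3, ← sum_val (fun k : ℕ => ‖a k‖ / (Real.sqrt k * Real.log k))]
      apply Finset.sum_congr rfl
      intro ν _
      by_cases hz : ν = zi N N
      · rw [if_pos hz, hz, val_zi]
        simp
      · rw [if_neg hz]
        unfold Ac om
        split_ifs
        · ring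
        · simp
    have h4 : a 1 = Ac N a (zi N N) := by
      unfold Ac
      rw [val_zi, if_pos hN]
    have h5 := a_zi_le_norm1 N (Ac N a)
    rw [h2] at h1
    rw [← h4] at h5
    rw [div_mul_eq_mul_div, one_mul, div_le_iff₀ (by positivity)]
    linarith

end Pool.Agent.Helper22Hardy
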