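import Pool.Agent.Helper22_Hardy.Moebius

set_option autoImplicit false

open Complex Metric Real
open scoped ComplexConjugate

namespace Pool.Agent.Helper22Hardy

variable {E : Type*} [NormedAddCommGroup E] [InnerProductSpace ℂ E]

/-- Sum of the norms of the higher coefficients. -/
noncomputable def rho (e : ℕ → E) (K : ℕ) : ℝ := ∑ k ∈ Finset.range K, ‖e (k+2)‖

lemma rho_nonneg (e : ℕ → E) (K : ℕ) : 0 ≤ rho e K :=
  Finset.sum_nonneg (fun _ _ => norm_nonneg _)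

lemma vp_split (e : ℕ → E) (K : ℕ) (z : ℂ) :
    vp e (K+2) z = e 0 + z • e 1 + ∑ k ∈ Finset.range K, z ^ (k+2) • e (k+2) := by
  unfold vp
  rw [Finset.sum_range_succ', Finset.sum_range_succ']
  simp
  abel

lemma norm_tail_le (e : ℕ → E) (K : ℕ) {z : ℂ} (hz : ‖z‖ = 1) :
    ‖∑ k ∈ Finset.range K, z ^ (k+2) • e (k+2)‖ ≤ rho e K := by
  refine (norm_sum_le _ _).trans ?_
  unfold rho
  apply Finset.sum_le_sum
  intro k _
  rw [norm_smul, norm_pow, hz, one_pow, one_mul]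

lemma norm_vp_le (e : ℕ → E) (K : ℕ) {z : ℂ} (hz : ‖z‖ = 1) :
    ‖vp e (K+2) z‖ ≤ ‖e 0‖ + ‖e 1‖ + rho e K := by
  rw [vp_split]
  refine (norm_add_le _ _).trans ?_
  refine add_le_add ?_ (norm_tail_le e K hz)
  refine (norm_add_le _ _).trans ?_
  rw [norm_smul, hz, one_mul]

/-- the coefficient sum as a scalar polynomial -/
noncomputable def qp (c : ℕ → ℂ) (K : ℕ) (z : ℂ) : ℂ := ∑ k ∈ Finset.range K, z ^ (k+2) * c (k+2)

lemma qp_zero (c : ℕ → ℂ) (K : ℕ) : qp c K 0 = 0 := by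
  unfold qp; simp

lemma qp_diff (c : ℕ → ℂ) (K : ℕ) : Differentiable ℂ (qp c K) := by
  unfold qp
  fun_prop

lemma norm_qp_le (c : ℕ → ℂ) (K : ℕ) {z : ℂ} (hz : ‖z‖ ≤ 1) :
    ‖qp c K z‖ ≤ ∑ k ∈ Finset.range K, ‖c (k+2)‖ := by
  unfold qp
  refine (norm_sum_le _ _).trans ?_
  apply Finset.sum_le_sum
  intro k _
  rw [norm_mul, norm_pow]
  exact mul_le_of_le_one_left (norm_nonneg _) (pow_le_one₀ (norm_nonneg _) hz)

set_option maxHeartbeats 4000000 in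
lemma geom (e : ℕ → E) (K : ℕ) (δ : ℝ) (hδ : 0 < δ) (hδ1 : δ ≤ 1) (h0 : 0 < ‖e 0‖) :
    ∃ H : ℂ → ℂ, DiffContOnCl ℂ H (ball 0 1) ∧ H 0 = 0 ∧
      (∀ z : ℂ, ‖z‖ = 1 → ‖H z‖ * ‖e 0‖ ≤ 2 * ‖e 1‖ + rho e K) ∧
      (∀ z : ℂ, ‖z‖ = 1 → ‖vp e (K+2) z + conj (H z) • e 0‖ ^ 2
        ≤ ‖e 0‖ ^ 2 + (2 + δ) * ‖e 1‖ ^ 2 + (42 / δ) * rho e K ^ 2) := by
  have h02 : 0 < ‖e 0‖ ^ 2 := by positivity
  have h02c : ((‖e 0‖ : ℂ) ^ 2) ≠ 0 := by exact_mod_cast h02.ne'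
  -- coefficients
  obtain ⟨b, hb⟩ : ∃ b : ℕ → ℂ, b = fun k => inner ℂ (e 0) (e k) / (‖e 0‖:ℂ) ^ 2 := ⟨_, rfl⟩
  obtain ⟨v, hv⟩ : ∃ v : ℕ → E, v = fun k => e k - b k • e 0 := ⟨_, rfl⟩
  have hbk : ∀ k, b k = inner ℂ (e 0) (e k) / (‖e 0‖:ℂ) ^ 2 := fun k => by rw [hb]
  have hvk : ∀ k, v k = e k - b k • e 0 := fun k => by rw [hv]
  have hself : (inner ℂ (e 0) (e 0) : ℂ) = (‖e 0‖:ℂ) ^ 2 := by
    rw [inner_self_eq_norm_sq_to_K]; simp
  have horth : ∀ k, (inner ℂ (e 0) (v k) : ℂ) = 0 := by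
    intro k
    rw [hvk, inner_sub_right, inner_smul_right, hbk, hself, div_mul_cancel₀ _ h02c, sub_self]
  have hdec : ∀ k, e k = b k • e 0 + v k := by
    intro k; rw [hvk]; abel
  have hpy : ∀ k, ‖e k‖ ^ 2 = ‖b k‖ ^ 2 * ‖e 0‖ ^ 2 + ‖v k‖ ^ 2 := by
    intro k
    conv_lhs => rw [hdec k]
    rw [norm_sq_add, inner_smul_left, horth, norm_smul]
    simp
    ring
  have hbn : ∀ k, ‖b k‖ * ‖e 0‖ ≤ ‖e k‖ := by
    intro k
    apply le_of_sq_le_sq _ (norm_nonneg _)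
    rw [mul_pow, hpy k]
    nlinarith [sq_nonneg ‖v k‖]
  have hvn : ∀ k, ‖v k‖ ≤ ‖e k‖ := by
    intro k
    apply le_of_sq_le_sq _ (norm_nonneg _)
    rw [hpy k]
    nlinarith [mul_nonneg (sq_nonneg ‖b k‖) (sq_nonneg ‖e 0‖)]
  obtain ⟨a, ha1, ha2, ha3⟩ := moebius (b 1)
  obtain ⟨β, hβ⟩ : ∃ β : ℝ, β = ∑ k ∈ Finset.range K, ‖b (k+2)‖ := ⟨_, rfl⟩
  have hβ0 : 0 ≤ β := by rw [hβ]; exact Finset.sum_nonneg (fun _ _ => norm_nonneg _)
  have hβρ : β * ‖e 0‖ ≤ rho e K := by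
    rw [hβ, Finset.sum_mul]
    exact Finset.sum_le_sum (fun k _ => hbn (k+2))
  have hrv : rho v K ≤ rho e K := Finset.sum_le_sum (fun k _ => hvn (k+2))
  refine ⟨fun z => -(a * z / (1 + a * z)) - qp b K z, ?_, ?_, ?_, ?_⟩
  · -- differentiability
    apply DifferentiableOn.diffContOnCl
    rw [closure_ball _ one_ne_zero]
    apply DifferentiableOn.sub
    · apply DifferentiableOn.neg
      apply DifferentiableOn.div
      · fun_prop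
      · fun_prop
      · intro z hz h
        have hz1 : ‖z‖ ≤ 1 := by simpa using hz
        have h1 : a * z = -1 := by linear_combination h
        have h2 : ‖a * z‖ < 1 := by
          rw [norm_mul]
          calc ‖a‖ * ‖z‖ ≤ ‖a‖ * 1 := by gcongr
            _ < 1 := by linarith
        rw [h1] at h2; simp at h2
    · exact (qp_diff b K).differentiableOn
  · simp [qp_zero]
  · intro z hz
    have h1 : ‖-(a * z / (1 + a * z)) - qp b K z‖ ≤ 2 * ‖b 1‖ + β := by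
      refine (norm_sub_le _ _).trans ?_
      rw [norm_neg]
      refine add_le_add (ha2 z hz.le) ?_
      rw [hβ]
      exact norm_qp_le b K hz.le
    calc ‖-(a * z / (1 + a * z)) - qp b K z‖ * ‖e 0‖ ≤ (2 * ‖b 1‖ + β) * ‖e 0‖ := by gcongr
      _ = 2 * (‖b 1‖ * ‖e 0‖) + β * ‖e 0‖ := by ring
      _ ≤ 2 * ‖e 1‖ + rho e K := by
        have := hbn 1
        linarith
  · intro z hz
    -- decomposition
    obtain ⟨q, hq⟩ : ∃ q : ℂ, q = qp b K z := ⟨_, rfl⟩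
    obtain ⟨m, hm⟩ : ∃ m : ℂ, m = a * z / (1 + a * z) := ⟨_, rfl⟩
    obtain ⟨V, hV⟩ : ∃ V : E, V = z • v 1 + ∑ k ∈ Finset.range K, z ^ (k+2) • v (k+2) := ⟨_, rfl⟩
    have hqn : ‖q‖ ≤ β := by rw [hq, hβ]; exact norm_qp_le b K hz.le
    have hmn : ‖m‖ ≤ 2 * ‖b 1‖ := by rw [hm]; exact ha2 z hz.le
    have hg1 : ‖1 + b 1 * z - conj m‖ ^ 2 ≤ 1 + 2 * ‖b 1‖ ^ 2 := by rw [hm]; exact ha3 z hz
    have hdecomp : vp e (K+2) z + conj (-(a * z / (1 + a * z)) - qp b K z) • e 0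
        = ((1 + b 1 * z - conj m) + (q - conj q)) • e 0 + V := by
      rw [vp_split, ← hm, ← hq]
      have hs : ∑ k ∈ Finset.range K, z ^ (k+2) • e (k+2)
          = q • e 0 + ∑ k ∈ Finset.range K, z ^ (k+2) • v (k+2) := by
        rw [hq]; unfold qp
        rw [Finset.sum_smul, ← Finset.sum_add_distrib]
        apply Finset.sum_congr rfl
        intro k _
        conv_lhs => rw [hdec (k+2)]
        rw [smul_add, smul_smul]
      rw [hs, hV]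
      conv_lhs => rw [hdec 1]
      simp only [map_sub, map_neg, smul_add, add_smul, sub_smul, neg_smul, one_smul, smul_smul]
      rw [mul_comm z (b 1)]
      abel
    have hVo : (inner ℂ (e 0) V : ℂ) = 0 := by
      rw [hV, inner_add_right, inner_smul_right, horth, inner_sum]
      simp [inner_smul_right, horth]
    have hVn : ‖V‖ ≤ ‖v 1‖ + rho v K := by
      rw [hV]
      refine (norm_add_le _ _).trans ?_
      refine add_le_add ?_ (norm_tail_le v K hz)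
      rw [norm_smul, hz, one_mul]
    rw [hdecomp, norm_sq_add, inner_smul_left, hVo, norm_smul, mul_pow, norm_sq_add_sub_conj]
    simp only [mul_zero, Complex.zero_re, add_zero]
    have hi1 : |q.im| ≤ β := (Complex.abs_im_le_norm q).trans hqn
    have hi2 : |(1 + b 1 * z - conj m).im| ≤ 3 * ‖b 1‖ := by
      have h1 : (1 + b 1 * z - conj m).im = (b 1 * z - conj m).im := by simp
      rw [h1]
      refine (Complex.abs_im_le_norm _).trans ?_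
      refine (norm_sub_le _ _).trans ?_
      rw [norm_mul, hz, mul_one, RCLike.norm_conj]
      linarith
    obtain ⟨G, hG⟩ : ∃ G : ℝ, G = (1 + b 1 * z - conj m).im := ⟨_, rfl⟩
    rw [← hG] at hi2 ⊢
    have hb1 : 0 ≤ ‖b 1‖ := norm_nonneg _
    have h4 : q.im ^ 2 ≤ β ^ 2 := by
      rw [← sq_abs]; exact pow_le_pow_left₀ (abs_nonneg _) hi1 2
    have h5 : q.im * G ≤ 3 * ‖b 1‖ * β := by
      calc q.im * G ≤ |q.im * G| := le_abs_self _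
        _ = |q.im| * |G| := abs_mul _ _
        _ ≤ β * (3 * ‖b 1‖) := by gcongr
        _ = _ := by ring
    have h6 : 12 * ‖b 1‖ * β ≤ δ * ‖b 1‖ ^ 2 + 36 / δ * β ^ 2 := by
      have h7 : 0 ≤ (δ * ‖b 1‖ - 6 * β) ^ 2 / δ := by positivity
      have h8 : (δ * ‖b 1‖ - 6 * β) ^ 2 / δ = δ * ‖b 1‖ ^ 2 - 12 * ‖b 1‖ * β + 36 / δ * β ^ 2 := by
        field_simp
        ring
      linarith
    have h9 : (1:ℝ) ≤ 1 / δ := by rw [le_div_iff₀ hδ]; linarith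
    have hρ0 := rho_nonneg e K
    have h10 : (β * ‖e 0‖) ^ 2 ≤ rho e K ^ 2 := pow_le_pow_left₀ (by positivity) hβρ 2
    have h11 : ‖V‖ ^ 2 ≤ 2 * ‖v 1‖ ^ 2 + 2 * rho e K ^ 2 := by
      have : ‖V‖ ≤ ‖v 1‖ + rho e K := hVn.trans (by linarith)
      calc ‖V‖ ^ 2 ≤ (‖v 1‖ + rho e K) ^ 2 := pow_le_pow_left₀ (norm_nonneg _) this 2
        _ ≤ _ := by nlinarith [sq_nonneg (‖v 1‖ - rho e K)]
    have h12 := hpy 1
    have h13 : ‖1 + b 1 * z - conj m‖ ^ 2 + 4 * q.im ^ 2 + 4 * q.im * G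
        ≤ 1 + (2 + δ) * ‖b 1‖ ^ 2 + (40 / δ) * β ^ 2 := by
      have : 4 * β ^ 2 ≤ 4 / δ * β ^ 2 := by
        have : (4:ℝ) ≤ 4 / δ := by rw [le_div_iff₀ hδ]; linarith
        nlinarith [sq_nonneg β]
      have h14 : (40 / δ) * β ^ 2 = 36 / δ * β ^ 2 + 4 / δ * β ^ 2 := by ring
      rw [h14]
      have h5' : 4 * q.im * G ≤ 12 * ‖b 1‖ * β := by linarith
      have h4' : 4 * q.im ^ 2 ≤ 4 * β ^ 2 := by linarith
      linarith
    have h15 : (‖1 + b 1 * z - conj m‖ ^ 2 + 4 * q.im ^ 2 + 4 * q.im * G) * ‖e 0‖ ^ 2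
        ≤ (1 + (2 + δ) * ‖b 1‖ ^ 2 + (40 / δ) * β ^ 2) * ‖e 0‖ ^ 2 :=
      mul_le_mul_of_nonneg_right h13 h02.le
    have h16 : (40 / δ) * (β * ‖e 0‖) ^ 2 ≤ (40 / δ) * rho e K ^ 2 := by
      apply mul_le_mul_of_nonneg_left h10; positivity
    have h17 : 2 * rho e K ^ 2 ≤ 2 / δ * rho e K ^ 2 := by
      have : (2:ℝ) ≤ 2 / δ := by rw [le_div_iff₀ hδ]; linarith
      nlinarith [sq_nonneg (rho e K)]
    have h18 : (42 / δ) * rho e K ^ 2 = (40 / δ) * rho e K ^ 2 + 2 / δ * rho e K ^ 2 := by ring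
    rw [h18]
    have h19 : 0 ≤ δ * ‖v 1‖ ^ 2 := by positivity
    have h20 : (1 + (2 + δ) * ‖b 1‖ ^ 2 + (40 / δ) * β ^ 2) * ‖e 0‖ ^ 2
        = ‖e 0‖ ^ 2 + (2 + δ) * (‖b 1‖ ^ 2 * ‖e 0‖ ^ 2) + (40 / δ) * (β * ‖e 0‖) ^ 2 := by ring
    have h21 : (2 + δ) * ‖e 1‖ ^ 2
        = (2 + δ) * (‖b 1‖ ^ 2 * ‖e 0‖ ^ 2) + 2 * ‖v 1‖ ^ 2 + δ * ‖v 1‖ ^ 2 := by
      rw [h12]; ring
    linarith

end Pool.Agent.Helper22Hardy
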