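import Pool.Agent.Helper22_Hardy.Idx

set_option autoImplicit false

open Complex Metric Real
open scoped ComplexConjugate

namespace Pool.Agent.Helper22Hardy

/-- exponents -/
noncomputable def al : ℝ := 27648 / 55297
noncomputable def be : ℝ := 1 / 110594

lemma al_pos : 0 < al := by unfold al; norm_num
lemma be_pos : 0 < be := by unfold be; norm_num
lemma al_add_be : al + be = 1 / 2 := by unfold al be; norm_num
lemma al_be_k0 : 128 * be = al * (k0 / 2) := by unfold al be k0; norm_num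

/-- barriers -/
noncomputable def Bf (ρ : ℕ) : ℝ := 1 + 1 / (ρ + 2)
noncomputable def Bf' (ρ : ℕ) : ℝ := 1 + 1 / (ρ + 1)
noncomputable def cf (ρ : ℕ) : ℝ := (2:ℝ) ^ al * (2 * rexp ((1 - ρ) / 2)) ^ be

/-- The bounding functional. -/
noncomputable def Gb (ρ : ℕ) (M N : ℝ) : ℝ :=
  min ((M / (Bf ρ - M)) ^ al * N ^ be) (cf ρ * (1 / (Bf' ρ - M)) ^ al)

noncomputable def wJ (ρ : ℕ) : ℝ := cf ρ * ((ρ + 1) * (ρ + 2)) ^ al

lemma Bf_lt_Bf' (ρ : ℕ) : Bf ρ < Bf' ρ := by
  unfold Bf Bf'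
  have : (0:ℝ) < (ρ:ℝ) + 1 := by positivity
  have h : (1:ℝ) / (ρ + 2) < 1 / (ρ + 1) := by
    apply one_div_lt_one_div_of_lt this; linarith
  linarith

lemma one_lt_Bf (ρ : ℕ) : 1 < Bf ρ := by
  unfold Bf
  have : (0:ℝ) < 1 / ((ρ:ℝ) + 2) := by positivity
  linarith

lemma Bf_le (ρ : ℕ) : Bf ρ ≤ 3 / 2 := by
  unfold Bf
  have : (1:ℝ) / (ρ + 2) ≤ 1 / 2 := by
    apply one_div_le_one_div_of_le (by norm_num)
    have : (0:ℝ) ≤ ρ := by positivity
    linarith
  linarith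

lemma Bf'_le (ρ : ℕ) : Bf' ρ ≤ 2 := by
  unfold Bf'
  have : (1:ℝ) / (ρ + 1) ≤ 1 / 1 := by
    apply one_div_le_one_div_of_le (by norm_num)
    have : (0:ℝ) ≤ ρ := by positivity
    linarith
  linarith

lemma cf_pos (ρ : ℕ) : 0 < cf ρ := by unfold cf; positivity

lemma wJ_pos (ρ : ℕ) : 0 < wJ ρ := by
  unfold wJ
  have := cf_pos ρ
  positivity

lemma Gb_nonneg {ρ : ℕ} {M N : ℝ} (hM : 0 ≤ M) (hMB : M < Bf ρ) (hN : 0 ≤ N) : 0 ≤ Gb ρ M N := by
  unfold Gb
  have h1 := Bf_lt_Bf' ρ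
  have h2 := cf_pos ρ
  apply le_min
  · apply mul_nonneg
    · apply rpow_nonneg
      apply div_nonneg hM; linarith
    · exact rpow_nonneg hN _
  · apply mul_nonneg h2.le
    apply rpow_nonneg
    apply div_nonneg zero_le_one; linarith

lemma Gb_le_w {ρ : ℕ} {M N : ℝ} (hMB : M < Bf ρ) : Gb ρ M N ≤ wJ ρ := by
  unfold Gb wJ
  refine (min_le_right _ _).trans ?_
  apply mul_le_mul_of_nonneg_left _ (cf_pos ρ).le
  have h1 := Bf_lt_Bf' ρ
  apply rpow_le_rpow
  · apply div_nonneg zero_le_one; linarith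
  · rw [div_le_iff₀ (by linarith)]
    have h2 : Bf' ρ - Bf ρ = 1 / (((ρ:ℝ) + 1) * (ρ + 2)) := by
      unfold Bf Bf'; field_simp; ring
    have h3 : (((ρ:ℝ) + 1) * (ρ + 2)) * (Bf' ρ - Bf ρ) = 1 := by
      rw [h2]; field_simp
    have h4 : (0:ℝ) < ((ρ:ℝ) + 1) * (ρ + 2) := by positivity
    calc (1:ℝ) = (((ρ:ℝ) + 1) * (ρ + 2)) * (Bf' ρ - Bf ρ) := h3.symm
      _ ≤ (((ρ:ℝ) + 1) * (ρ + 2)) * (Bf' ρ - M) := by
        apply mul_le_mul_of_nonneg_left _ h4.le
        linarith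
  · exact al_pos.le

lemma Gb_step {ρ : ℕ} {M N : ℝ} (hM : 0 ≤ M) (hMB : M < Bf (ρ + 1)) (hN : 0 ≤ N)
    (hNM : N ≤ rexp (-(ρ:ℝ) / 2) * M) : Gb ρ M N ≤ Gb (ρ + 1) M N := by
  have hB : Bf (ρ + 1) ≤ Bf ρ := by
    unfold Bf
    have : (1:ℝ) / (((ρ + 1 : ℕ) : ℝ) + 2) ≤ 1 / (ρ + 2) := by
      apply one_div_le_one_div_of_le (by positivity)
      push_cast; linarith
    linarith
  have hB' : Bf' (ρ + 1) = Bf ρ := by
    unfold Bf Bf'; push_cast; ring_nf
  have h1 : Gb ρ M N ≤ (M / (Bf ρ - M)) ^ al * N ^ be := min_le_left _ _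
  apply le_min
  · refine h1.trans ?_
    apply mul_le_mul_of_nonneg_right _ (rpow_nonneg hN _)
    apply rpow_le_rpow
    · apply div_nonneg hM; linarith
    · apply div_le_div_of_nonneg_left hM <;> linarith
    · exact al_pos.le
  · refine h1.trans ?_
    rw [hB']
    have hM2 : M ≤ 2 := by have := Bf_le (ρ+1); linarith
    have e1 : M / (Bf ρ - M) = M * (1 / (Bf ρ - M)) := by ring
    have hp : 0 ≤ 1 / (Bf ρ - M) := by apply div_nonneg zero_le_one; linarith
    rw [e1, mul_rpow hM hp]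
    have h2 : M ^ al ≤ 2 ^ al := rpow_le_rpow hM hM2 al_pos.le
    have h3 : N ^ be ≤ (2 * rexp ((1 - ((ρ + 1 : ℕ) : ℝ)) / 2)) ^ be := by
      apply rpow_le_rpow hN _ be_pos.le
      refine hNM.trans ?_
      have : (1 - ((ρ + 1 : ℕ) : ℝ)) / 2 = -(ρ:ℝ) / 2 := by push_cast; ring
      rw [this, mul_comm]
      apply mul_le_mul_of_nonneg_right hM2 (exp_pos _).le
    unfold cf
    have h4 : 0 ≤ (1 / (Bf ρ - M)) ^ al := rpow_nonneg hp _
    have h5 : 0 ≤ N ^ be := rpow_nonneg hN _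
    calc M ^ al * (1 / (Bf ρ - M)) ^ al * N ^ be
        ≤ 2 ^ al * (1 / (Bf ρ - M)) ^ al * (2 * rexp ((1 - ((ρ + 1 : ℕ) : ℝ)) / 2)) ^ be := by
          gcongr
      _ = _ := by ring

lemma Gb_term {M : ℝ} (hM : 0 ≤ M) (hMB : M < Bf 0) : (1 / 2) * √M ≤ Gb 0 M M := by
  have hB0 : Bf 0 = 3 / 2 := by unfold Bf; norm_num
  have hB0' : Bf' 0 = 2 := by unfold Bf'; norm_num
  rw [hB0] at hMB
  unfold Gb
  rw [hB0, hB0']
  have hal1 : al ≤ 1 := by unfold al; norm_num
  apply le_min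
  · have h1 : M / 2 ≤ M / (3 / 2 - M) := by
      apply div_le_div_of_nonneg_left hM <;> linarith
    have h2 : (M / 2) ^ al ≤ (M / (3 / 2 - M)) ^ al :=
      rpow_le_rpow (by positivity) h1 al_pos.le
    have h3 : (M / 2) ^ al * M ^ be ≤ (M / (3 / 2 - M)) ^ al * M ^ be :=
      mul_le_mul_of_nonneg_right h2 (rpow_nonneg hM _)
    refine le_trans ?_ h3
    have h0 : M / 2 = M * 2⁻¹ := div_eq_mul_inv M 2
    rw [h0, mul_rpow hM (by norm_num), Real.sqrt_eq_rpow]
    have h4 : M ^ al * M ^ be = M ^ (1 / 2 : ℝ) := by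
      rw [← al_add_be]
      rcases hM.lt_or_eq with h | h
      · rw [rpow_add h]
      · rw [← h, zero_rpow al_pos.ne', zero_rpow be_pos.ne',
          zero_rpow (by rw [al_add_be]; norm_num : al + be ≠ 0)]; simp
    have h5 : (1/2 : ℝ) ≤ (2⁻¹ : ℝ) ^ al := by
      calc (1/2 : ℝ) = (2⁻¹ : ℝ) ^ (1:ℝ) := by norm_num
        _ ≤ (2⁻¹ : ℝ) ^ al := rpow_le_rpow_of_exponent_ge (by norm_num) (by norm_num) hal1
    calc 1 / 2 * M ^ (1 / 2 : ℝ) ≤ (2⁻¹ : ℝ) ^ al * M ^ (1 / 2 : ℝ) := by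
          apply mul_le_mul_of_nonneg_right h5 (rpow_nonneg hM _)
      _ = M ^ al * (2⁻¹ : ℝ) ^ al * M ^ be := by rw [← h4]; ring
  · have h1 : √M ≤ 2 := by
      rw [Real.sqrt_le_left (by norm_num)]; linarith
    have h2 : (1:ℝ) ≤ cf 0 * (1 / (2 - M)) ^ al := by
      unfold cf
      have h3 : (1:ℝ) ≤ (2 * rexp ((1 - ((0:ℕ):ℝ)) / 2)) ^ be := by
        apply one_le_rpow _ be_pos.le
        have : (1:ℝ) ≤ rexp ((1 - ((0:ℕ):ℝ)) / 2) := by
          apply Real.one_le_exp; norm_num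
        linarith
      have h4 : (1:ℝ) ≤ 2 ^ al * (1 / (2 - M)) ^ al := by
        rw [← mul_rpow (by norm_num) (by apply div_nonneg zero_le_one; linarith)]
        apply one_le_rpow _ al_pos.le
        rw [mul_one_div, le_div_iff₀ (by linarith)]
        linarith
      calc (1:ℝ) = 1 * 1 := by norm_num
        _ ≤ (2 ^ al * (1 / (2 - M)) ^ al) * (2 * rexp ((1 - ((0:ℕ):ℝ)) / 2)) ^ be := by
            gcongr
        _ = _ := by ring
    linarith

lemma Gb_cs {ρ : ℕ} {M' N' : ℂ → ℝ} (hM : CS M') (hN : CS N')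
    (hMB : ∀ z ∈ sphere (0:ℂ) 1, M' z < Bf ρ) : CS (fun z => Gb ρ (M' z) (N' z)) := by
  unfold Gb
  have h1 := Bf_lt_Bf' ρ
  apply ContinuousOn.inf
  · apply ContinuousOn.mul
    · apply ContinuousOn.rpow_const
      · apply ContinuousOn.div hM (continuousOn_const.sub hM)
        intro z hz
        have := hMB z hz
        refine ne_of_gt (?_ : (0:ℝ) < Bf ρ - M' z)
        linarith
      · intro z _
        right; exact al_pos.le
    · apply ContinuousOn.rpow_const hN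
      intro z _
      right; exact be_pos.le
  · apply ContinuousOn.mul continuousOn_const
    apply ContinuousOn.rpow_const
    · apply ContinuousOn.div continuousOn_const (continuousOn_const.sub hM)
      intro z hz
      have := hMB z hz
      refine ne_of_gt (?_ : (0:ℝ) < Bf' ρ - M' z)
      linarith
    · intro z _
      right; exact al_pos.le

/-- weighted AM-GM, in relative form -/
lemma amgm2 {x y : ℝ} (hx : 0 ≤ x) (hy : 0 ≤ y) :
    x ^ al * y ^ be ≤ al * x + be * y + (1 - al - be) := by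
  have h := Real.geom_mean_le_arith_mean3_weighted (w₁ := al) (w₂ := be) (w₃ := 1 - al - be)
    (p₁ := x) (p₂ := y) (p₃ := 1) al_pos.le be_pos.le
    (by have := al_add_be; linarith) hx hy zero_le_one (by ring)
  simpa using h

lemma amgm1 {x : ℝ} (hx : 0 ≤ x) : x ^ al ≤ al * x + (1 - al) := by
  have h := Real.geom_mean_le_arith_mean2_weighted (w₁ := al) (w₂ := 1 - al)
    (p₁ := x) (p₂ := 1) al_pos.le
    (by have := al_add_be; have := be_pos; linarith) hx zero_le_one (by ring)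
  simpa using h

set_option maxHeartbeats 4000000 in
lemma Gb_av {ρ : ℕ} {M N d : ℝ} {M' N' : ℂ → ℝ} (hM : CS M') (hN : CS N')
    (hM0 : 0 < M) (hN0 : 0 < N) (hMB : M < Bf ρ) (hd : 0 ≤ d)
    (hM'0 : ∀ z ∈ sphere (0:ℂ) 1, 0 ≤ M' z) (hN'0 : ∀ z ∈ sphere (0:ℂ) 1, 0 ≤ N' z)
    (hM'B : ∀ z ∈ sphere (0:ℂ) 1, M' z < Bf ρ)
    (h1 : av (fun z => M' z / (Bf ρ - M' z)) ≤ M / (Bf ρ - M) * (1 - k0 * d / 2))
    (h2 : av N' ≤ N * (1 + 128 * d))
    (h3 : av (fun z => 1 / (Bf' ρ - M' z)) ≤ 1 / (Bf' ρ - M)) :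
    av (fun z => Gb ρ (M' z) (N' z)) ≤ Gb ρ M N := by
  have hB := Bf_lt_Bf' ρ
  have hc1 : CS (fun z => M' z / (Bf ρ - M' z)) := by
    apply ContinuousOn.div hM (continuousOn_const.sub hM)
    intro z hz
    have := hM'B z hz
    refine ne_of_gt (?_ : (0:ℝ) < Bf ρ - M' z)
    linarith
  have hc2 : CS (fun z => 1 / (Bf' ρ - M' z)) := by
    apply ContinuousOn.div continuousOn_const (continuousOn_const.sub hM)
    intro z hz
    have := hM'B z hz
    refine ne_of_gt (?_ : (0:ℝ) < Bf' ρ - M' z)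
    linarith
  have hcG := Gb_cs (ρ := ρ) hM hN hM'B
  apply le_min
  · obtain ⟨R, hR⟩ : ∃ R : ℝ, R = M / (Bf ρ - M) := ⟨_, rfl⟩
    have hR0 : 0 < R := by rw [hR]; apply div_pos hM0; linarith
    rw [← hR] at h1 ⊢
    have hpt : ∀ z ∈ sphere (0:ℂ) 1, Gb ρ (M' z) (N' z)
        ≤ (R ^ al * N ^ be) * ((al * R⁻¹) * (M' z / (Bf ρ - M' z)) + (be * N⁻¹) * N' z
            + (1 - al - be)) := by
      intro z hz
      have hp : 0 ≤ M' z / (Bf ρ - M' z) := by
        apply div_nonneg (hM'0 z hz)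
        have := hM'B z hz; linarith
      refine (min_le_left _ _).trans ?_
      have h := amgm2 (x := R⁻¹ * (M' z / (Bf ρ - M' z))) (y := N⁻¹ * N' z) (by positivity)
        (mul_nonneg (by positivity) (hN'0 z hz))
      rw [mul_rpow (by positivity) hp, mul_rpow (by positivity) (hN'0 z hz)] at h
      have e1 : R ^ al * (R⁻¹) ^ al = 1 := by
        rw [← mul_rpow hR0.le (by positivity), mul_inv_cancel₀ hR0.ne', one_rpow]
      have e2 : N ^ be * (N⁻¹) ^ be = 1 := by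
        rw [← mul_rpow hN0.le (by positivity), mul_inv_cancel₀ hN0.ne', one_rpow]
      have hRN : 0 < R ^ al * N ^ be := by positivity
      calc (M' z / (Bf ρ - M' z)) ^ al * N' z ^ be
          = (R ^ al * (R⁻¹) ^ al) * (N ^ be * (N⁻¹) ^ be)
              * ((M' z / (Bf ρ - M' z)) ^ al * N' z ^ be) := by rw [e1, e2]; ring
        _ = (R ^ al * N ^ be) * ((R⁻¹) ^ al * (M' z / (Bf ρ - M' z)) ^ al
              * ((N⁻¹) ^ be * N' z ^ be)) := by ring
        _ ≤ (R ^ al * N ^ be) * (al * (R⁻¹ * (M' z / (Bf ρ - M' z))) + be * (N⁻¹ * N' z)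
              + (1 - al - be)) := mul_le_mul_of_nonneg_left h hRN.le
        _ = _ := by ring
    have hc3 : CS (fun z => (al * R⁻¹) * (M' z / (Bf ρ - M' z))) := continuousOn_const.mul hc1
    have hc4 : CS (fun z => (be * N⁻¹) * N' z) := continuousOn_const.mul hN
    have hc5 : CS (fun z => (al * R⁻¹) * (M' z / (Bf ρ - M' z)) + (be * N⁻¹) * N' z) :=
      hc3.add hc4
    have hc6 : CS (fun z => (al * R⁻¹) * (M' z / (Bf ρ - M' z)) + (be * N⁻¹) * N' z
        + (1 - al - be)) := hc5.add continuousOn_const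
    have hc7 : CS (fun z => (R ^ al * N ^ be) * ((al * R⁻¹) * (M' z / (Bf ρ - M' z))
        + (be * N⁻¹) * N' z + (1 - al - be))) := continuousOn_const.mul hc6
    have h8 := av_mono hcG hc7 hpt
    rw [av_mul_left, av_add hc5 continuousOn_const, av_add hc3 hc4, av_const, av_mul_left,
      av_mul_left] at h8
    refine h8.trans ?_
    apply mul_le_of_le_one_right (by positivity)
    have h9 : (al * R⁻¹) * av (fun z => M' z / (Bf ρ - M' z)) ≤ al * (1 - k0 * d / 2) := by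
      calc (al * R⁻¹) * av (fun z => M' z / (Bf ρ - M' z))
          ≤ (al * R⁻¹) * (R * (1 - k0 * d / 2)) := by
            apply mul_le_mul_of_nonneg_left h1
            have := al_pos
            positivity
        _ = _ := by field_simp
    have h10 : (be * N⁻¹) * av N' ≤ be * (1 + 128 * d) := by
      calc (be * N⁻¹) * av N' ≤ (be * N⁻¹) * (N * (1 + 128 * d)) := by
            apply mul_le_mul_of_nonneg_left h2
            have := be_pos
            positivity
        _ = _ := by field_simp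
    have h11 : be * (128 * d) = al * (k0 / 2) * d := by
      rw [← al_be_k0]; ring
    have h12 : al * (1 - k0 * d / 2) + be * (1 + 128 * d) + (1 - al - be) = 1 := by
      have : al * (1 - k0 * d / 2) + be * (1 + 128 * d) + (1 - al - be)
        = 1 - al * (k0 / 2) * d + be * (128 * d) := by ring
      rw [this, h11]; ring
    linarith
  · obtain ⟨X, hX⟩ : ∃ X : ℝ, X = 1 / (Bf' ρ - M) := ⟨_, rfl⟩
    have hX0 : 0 < X := by rw [hX]; apply div_pos one_pos; linarith
    rw [← hX] at h3 ⊢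
    have hpt : ∀ z ∈ sphere (0:ℂ) 1, Gb ρ (M' z) (N' z)
        ≤ (cf ρ * X ^ al) * ((al * X⁻¹) * (1 / (Bf' ρ - M' z)) + (1 - al)) := by
      intro z hz
      have hp : 0 ≤ 1 / (Bf' ρ - M' z) := by
        apply div_nonneg zero_le_one
        have := hM'B z hz; linarith
      refine (min_le_right _ _).trans ?_
      have h := amgm1 (x := X⁻¹ * (1 / (Bf' ρ - M' z))) (by positivity)
      rw [mul_rpow (by positivity) hp] at h
      have e1 : X ^ al * (X⁻¹) ^ al = 1 := by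
        rw [← mul_rpow hX0.le (by positivity), mul_inv_cancel₀ hX0.ne', one_rpow]
      have hcX : 0 < cf ρ * X ^ al := by have := cf_pos ρ; positivity
      calc cf ρ * (1 / (Bf' ρ - M' z)) ^ al
          = cf ρ * ((X ^ al * (X⁻¹) ^ al) * (1 / (Bf' ρ - M' z)) ^ al) := by rw [e1, one_mul]
        _ = (cf ρ * X ^ al) * ((X⁻¹) ^ al * (1 / (Bf' ρ - M' z)) ^ al) := by ring
        _ ≤ (cf ρ * X ^ al) * (al * (X⁻¹ * (1 / (Bf' ρ - M' z))) + (1 - al)) :=
            mul_le_mul_of_nonneg_left h hcX.le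
        _ = _ := by ring
    have hc3 : CS (fun z => (al * X⁻¹) * (1 / (Bf' ρ - M' z))) := continuousOn_const.mul hc2
    have hc4 : CS (fun z => (al * X⁻¹) * (1 / (Bf' ρ - M' z)) + (1 - al)) :=
      hc3.add continuousOn_const
    have hc5 : CS (fun z => (cf ρ * X ^ al) * ((al * X⁻¹) * (1 / (Bf' ρ - M' z)) + (1 - al))) :=
      continuousOn_const.mul hc4
    have h8 := av_mono hcG hc5 hpt
    rw [av_mul_left, av_add hc3 continuousOn_const, av_const, av_mul_left] at h8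
    refine h8.trans ?_
    have := cf_pos ρ
    apply mul_le_of_le_one_right (by positivity)
    have h9 : (al * X⁻¹) * av (fun z => 1 / (Bf' ρ - M' z)) ≤ al := by
      calc (al * X⁻¹) * av (fun z => 1 / (Bf' ρ - M' z)) ≤ (al * X⁻¹) * X := by
            apply mul_le_mul_of_nonneg_left h3
            have := al_pos
            positivity
        _ = _ := by field_simp
    linarith

end Pool.Agent.Helper22Hardy
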