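import Pool.Agent.Helper22_Hardy.OneStep

set_option autoImplicit false

open Complex Metric Real
open scoped ComplexConjugate

namespace Pool.Agent.Helper22Hardy

/-- Multi-exponents for `r` variables, each exponent in `0..K+1`. -/
def Idx (K : ℕ) : ℕ → Type
  | 0 => Unit
  | (r+1) => Fin (K+2) × Idx K r

instance instFintypeIdx (K : ℕ) : ∀ r, Fintype (Idx K r)
  | 0 => inferInstanceAs (Fintype Unit)
  | (r+1) => by
      have := instFintypeIdx K r
      exact inferInstanceAs (Fintype (Fin (K+2) × Idx K r))

instance instDecEqIdx (K : ℕ) : ∀ r, DecidableEq (Idx K r)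
  | 0 => inferInstanceAs (DecidableEq Unit)
  | (r+1) => by
      have := instDecEqIdx K r
      exact inferInstanceAs (DecidableEq (Fin (K+2) × Idx K r))

/-- The zero multi-exponent. -/
def zi (K : ℕ) : (r : ℕ) → Idx K r
  | 0 => ()
  | (r+1) => ((0 : Fin (K+2)), zi K r)

variable {K : ℕ}

/-- Coefficient vectors. -/
abbrev Cv (K r : ℕ) := Idx K r → ℂ

/-- slice of a coefficient vector -/
def sl {r : ℕ} (a : Cv K (r+1)) (k : Fin (K+2)) : Cv K r := fun ν => a ((k, ν) : Fin (K+2) × Idx K r)

/-- evaluation of the first variable -/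
noncomputable def ev {r : ℕ} (a : Cv K (r+1)) (z : ℂ) : Cv K r :=
  fun ν => ∑ k : Fin (K+2), z ^ (k:ℕ) * sl a k ν

/-- kernel vector -/
noncomputable def kv {r : ℕ} (η : Cv K (r+1)) (h : ℂ → ℂ) (z : ℂ) : Cv K r :=
  fun ν => (∑ k : Fin (K+2), z ^ (k:ℕ) * sl η k ν) + conj (h z) * sl η 0 ν

/-- pairing -/
noncomputable def pr {r : ℕ} (a η : Cv K r) : ℂ := ∑ ν, a ν * conj (η ν)

lemma sum_idx_succ {r : ℕ} {M : Type*} [AddCommMonoid M] (f : Idx K (r+1) → M) :
    ∑ ν, f ν = ∑ k : Fin (K+2), ∑ μ : Idx K r, f ((k, μ) : Fin (K+2) × Idx K r) := by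
  exact Fintype.sum_prod_type (f := fun x : Fin (K+2) × Idx K r => f x)

lemma sum_idx_zero {M : Type*} [AddCommMonoid M] (f : Idx K 0 → M) :
    ∑ ν, f ν = f () := by
  exact Fintype.sum_unique (ι := Unit) (f := f)

lemma av_pow (k : ℕ) : av (fun z : ℂ => z ^ k) = if k = 0 then 1 else 0 := by
  have h : DiffContOnCl ℂ (fun z : ℂ => z ^ k) (ball 0 1) :=
    (differentiable_id.pow k).diffContOnCl
  rw [av_of_diff h]
  split_ifs with h0
  · simp [h0]
  · simp [h0]

lemma av_pow_conj (k l : ℕ) :
    av (fun z : ℂ => z ^ k * conj (z ^ l)) = if k = l then 1 else 0 := by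
  rcases le_total l k with hle | hle
  · obtain ⟨j, rfl⟩ := Nat.exists_eq_add_of_le hle
    have h1 : ∀ z ∈ sphere (0:ℂ) 1, z ^ (l + j) * conj (z ^ l) = z ^ j := by
      intro z hz
      have hz1 : ‖z‖ = 1 := by simpa using hz
      have : z ^ l * conj (z ^ l) = 1 := by
        rw [Complex.mul_conj, Complex.normSq_eq_norm_sq, norm_pow, hz1]; simp
      rw [pow_add]
      linear_combination z ^ j * this
    rw [av_congr h1, av_pow]
    simp
  · obtain ⟨j, rfl⟩ := Nat.exists_eq_add_of_le hle
    have h1 : ∀ z ∈ sphere (0:ℂ) 1, z ^ k * conj (z ^ (k + j)) = conj (z ^ j) := by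
      intro z hz
      have hz1 : ‖z‖ = 1 := by simpa using hz
      have : z ^ k * conj (z ^ k) = 1 := by
        rw [Complex.mul_conj, Complex.normSq_eq_norm_sq, norm_pow, hz1]; simp
      rw [pow_add, map_mul]
      linear_combination conj (z ^ j) * this
    have h2 : av (fun z : ℂ => conj (z ^ j)) = conj (av (fun z : ℂ => z ^ j)) := by
      have := av_clm (Complex.conjCLE : ℂ →L[ℝ] ℂ) (F := fun z : ℂ => z ^ j)
        (by apply Continuous.continuousOn; fun_prop)
      simpa using this
    rw [av_congr h1, h2, av_pow]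
    by_cases hj : j = 0 <;> simp [hj]

lemma av_continuous {X : Type*} [TopologicalSpace X] {F : X → ℂ → ℝ}
    (hF : Continuous (Function.uncurry F)) : Continuous (fun x => av (F x)) := by
  unfold av Real.circleAverage
  have h1 : Continuous (Function.uncurry (fun (x : X) (θ : ℝ) => F x (circleMap 0 1 θ))) := by
    have : Function.uncurry (fun (x : X) (θ : ℝ) => F x (circleMap 0 1 θ))
        = Function.uncurry F ∘ (fun p : X × ℝ => (p.1, circleMap 0 1 p.2)) := rfl
    rw [this]
    apply hF.comp
    fun_prop
  have h2 := intervalIntegral.continuous_parametric_intervalIntegral_of_continuous'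
    (μ := MeasureTheory.volume) h1 0 (2 * π)
  exact h2.const_smul ((2 * π)⁻¹)

lemma ev_continuous {r : ℕ} : Continuous (fun p : Cv K (r+1) × ℂ => ev p.1 p.2) := by
  unfold ev sl
  fun_prop

lemma cs_kv {r : ℕ} (η : Cv K (r+1)) {h : ℂ → ℂ} (hh : CS h) (ν : Idx K r) :
    CS (fun z => kv η h z ν) := by
  unfold kv
  apply ContinuousOn.add
  · apply Continuous.continuousOn
    fun_prop
  · apply ContinuousOn.mul _ continuousOn_const
    exact Complex.continuous_conj.comp_continuousOn hh

/-- the representation property -/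
lemma pr_repr {r : ℕ} (a η : Cv K (r+1)) {h : ℂ → ℂ} (hh : DiffContOnCl ℂ h (ball 0 1))
    (h0 : h 0 = 0) : av (fun z => pr (ev a z) (kv η h z)) = pr a η := by
  have hcs : CS h := DiffContOnCl.cs hh
  have key : ∀ z ∈ sphere (0:ℂ) 1, pr (ev a z) (kv η h z)
      = (∑ ν : Idx K r, ∑ k : Fin (K+2), ∑ l : Fin (K+2),
          (sl a k ν * conj (sl η l ν)) * (z ^ (k:ℕ) * conj (z ^ (l:ℕ))))
        + ∑ ν : Idx K r, ∑ k : Fin (K+2), (sl a k ν * conj (sl η 0 ν)) * (z ^ (k:ℕ) * h z) := by
    intro z _
    unfold pr ev kv
    rw [← Finset.sum_add_distrib]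
    apply Finset.sum_congr rfl
    intro ν _
    rw [map_add, mul_add, map_sum, Finset.sum_mul_sum]
    congr 1
    · apply Finset.sum_congr rfl
      intro k _
      apply Finset.sum_congr rfl
      intro l _
      rw [map_mul]
      ring
    · rw [Finset.sum_mul]
      apply Finset.sum_congr rfl
      intro k _
      rw [map_mul, Complex.conj_conj]
      ring
  rw [av_congr key, av_add, av_sum]
  · have h1 : ∀ ν : Idx K r, av (fun z => ∑ k : Fin (K+2), ∑ l : Fin (K+2),
          (sl a k ν * conj (sl η l ν)) * (z ^ (k:ℕ) * conj (z ^ (l:ℕ))))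
          = ∑ k : Fin (K+2), sl a k ν * conj (sl η k ν) := by
      intro ν
      rw [av_sum]
      · apply Finset.sum_congr rfl
        intro k _
        rw [av_sum]
        · simp_rw [av_cmul_left, av_pow_conj]
          rw [Finset.sum_eq_single k]
          · simp
          · intro l _ hl
            have : ¬ ((k:ℕ) = (l:ℕ)) := fun h => hl (Fin.ext h.symm)
            simp [this]
          · simp
        · intro l _
          apply Continuous.continuousOn
          fun_prop
      · intro k _
        apply Continuous.continuousOn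
        fun_prop
    simp_rw [h1]
    rw [av_sum]
    · have h2 : ∀ ν : Idx K r, av (fun z => ∑ k : Fin (K+2),
          (sl a k ν * conj (sl η 0 ν)) * (z ^ (k:ℕ) * h z)) = 0 := by
        intro ν
        rw [av_sum]
        · apply Finset.sum_eq_zero
          intro k _
          rw [av_cmul_left]
          have hd : DiffContOnCl ℂ (fun z => z ^ (k:ℕ) * h z) (ball 0 1) :=
            DiffContOnCl.smul (differentiable_id.pow (k:ℕ)).diffContOnCl hh
          rw [av_of_diff hd, h0]
          simp
        · intro k _
          apply ContinuousOn.mul continuousOn_const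
          apply ContinuousOn.mul _ hcs
          apply Continuous.continuousOn
          fun_prop
      simp_rw [h2]
      rw [Finset.sum_const_zero, add_zero]
      unfold pr
      rw [sum_idx_succ, Finset.sum_comm]
      rfl
    · intro ν _
      apply continuousOn_finset_sum
      intro k _
      apply ContinuousOn.mul continuousOn_const
      apply ContinuousOn.mul _ hcs
      apply Continuous.continuousOn
      fun_prop
  · intro ν _
    apply Continuous.continuousOn
    fun_prop
  · apply Continuous.continuousOn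
    fun_prop
  · apply continuousOn_finset_sum
    intro ν _
    apply continuousOn_finset_sum
    intro k _
    apply ContinuousOn.mul continuousOn_const
    apply ContinuousOn.mul _ hcs
    apply Continuous.continuousOn
    fun_prop

end Pool.Agent.Helper22Hardy
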