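import Pool.Agent.Helper22_Hardy.Gfun

set_option autoImplicit false

open Complex Metric Real
open scoped ComplexConjugate

namespace Pool.Agent.Helper22Hardy

variable {K : ℕ}

/-- single-prime weights -/
noncomputable def wt (δ : ℝ) (k : ℕ) : ℝ :=
  if k = 0 then 1 else if k = 1 then 2 + δ else (64 / δ) * (3 / 2) ^ k

lemma wt_zero (δ : ℝ) : wt δ 0 = 1 := by simp [wt]
lemma wt_one (δ : ℝ) : wt δ 1 = 2 + δ := by simp [wt]
lemma wt_two (δ : ℝ) (k : ℕ) : wt δ (k+2) = (64 / δ) * (3 / 2) ^ (k+2) := by simp [wt]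

lemma wt_ge_one {δ : ℝ} (h0 : 0 < δ) (h1 : δ ≤ 1) (k : ℕ) : 1 ≤ wt δ k := by
  unfold wt
  split_ifs
  · exact le_rfl
  · linarith
  · have h2 : (1:ℝ) ≤ 64 / δ := by rw [le_div_iff₀ h0]; linarith
    have h3 : (1:ℝ) ≤ (3 / 2) ^ k := one_le_pow₀ (by norm_num)
    nlinarith

/-- the block-start bonus -/
noncomputable def bonus (lab : ℕ → ℕ) (J i : ℕ) : ℝ :=
  if i = 0 ∨ lab (i-1) < lab i then rexp (((J:ℝ) - lab i) / 2) else 0

lemma bonus_nonneg (lab : ℕ → ℕ) (J i : ℕ) : 0 ≤ bonus lab J i := by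
  unfold bonus
  split_ifs
  · exact (exp_pos _).le
  · exact le_rfl

/-- the weights -/
noncomputable def Wg (K : ℕ) (lab : ℕ → ℕ) (δ : ℕ → ℝ) (J : ℕ) : ℕ → (r : ℕ) → Idx K r → ℝ
  | _, 0 => fun _ => 1
  | i, (r+1) => fun (ν : Fin (K+2) × Idx K r) => if J < lab i then 1 else
      wt (δ i) ν.1 * Wg K lab δ J (i+1) r ν.2 + bonus lab J i

section
variable (lab : ℕ → ℕ) (δ : ℕ → ℝ) (J : ℕ)

lemma Wg_succ (i r : ℕ) (h : ¬ J < lab i) (k : Fin (K+2)) (μ : Idx K r) :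
    Wg K lab δ J i (r+1) ((k, μ) : Fin (K+2) × Idx K r)
      = wt (δ i) k * Wg K lab δ J (i+1) r μ + bonus lab J i := by
  simp only [Wg, if_neg h]

lemma Wg_nonactive (i r : ℕ) (h : r = 0 ∨ J < lab i) (ν : Idx K r) :
    Wg K lab δ J i r ν = 1 := by
  cases r with
  | zero => simp [Wg]
  | succ r =>
    have h' : J < lab i := by
      rcases h with h | h
      · exact absurd h (Nat.succ_ne_zero r)
      · exact h
    simp [Wg, h']

lemma Wg_ge_one (hδ : ∀ i, 0 < δ i ∧ δ i ≤ 1) : ∀ (r i : ℕ) (ν : Idx K r),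
    1 ≤ Wg K lab δ J i r ν
  | 0, i, ν => by simp [Wg]
  | r+1, i, ν => by
    obtain ⟨k, μ⟩ := (ν : Fin (K+2) × Idx K r)
    by_cases h : J < lab i
    · rw [Wg_nonactive lab δ J i (r+1) (Or.inr h)]
    · have e := Wg_succ (K := K) lab δ J i r h k μ
      have h1 := wt_ge_one (hδ i).1 (hδ i).2 k
      have h2 := Wg_ge_one hδ r (i+1) μ
      have h3 := bonus_nonneg lab J i
      calc (1:ℝ) ≤ wt (δ i) k * Wg K lab δ J (i+1) r μ + bonus lab J i := by nlinarith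
        _ = _ := e.symm

/-- weighted norm squared -/
noncomputable def Mn (i r : ℕ) (η : Cv K r) : ℝ := ∑ ν, Wg K lab δ J i r ν * ‖η ν‖ ^ 2

/-- unweighted norm squared -/
noncomputable def Nn {r : ℕ} (η : Cv K r) : ℝ := ∑ ν, ‖η ν‖ ^ 2

lemma Nn_nonneg {r : ℕ} (η : Cv K r) : 0 ≤ Nn η :=
  Finset.sum_nonneg (fun _ _ => by positivity)

lemma Nn_le_Mn (hδ : ∀ i, 0 < δ i ∧ δ i ≤ 1) (i r : ℕ) (η : Cv K r) :
    Nn η ≤ Mn lab δ J i r η := by
  unfold Nn Mn
  apply Finset.sum_le_sum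
  intro ν _
  have := Wg_ge_one (K := K) lab δ J hδ r i ν
  nlinarith [sq_nonneg ‖η ν‖]

lemma Mn_nonneg (hδ : ∀ i, 0 < δ i ∧ δ i ≤ 1) (i r : ℕ) (η : Cv K r) :
    0 ≤ Mn lab δ J i r η := (Nn_nonneg η).trans (Nn_le_Mn lab δ J hδ i r η)

lemma Nn_succ {r : ℕ} (η : Cv K (r+1)) : Nn η = ∑ k, Nn (sl η k) := by
  unfold Nn
  rw [sum_idx_succ]
  rfl

lemma Mn_succ (i r : ℕ) (h : ¬ J < lab i) (η : Cv K (r+1)) :
    Mn lab δ J i (r+1) η = (∑ k : Fin (K+2), wt (δ i) k * Mn lab δ J (i+1) r (sl η k))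
      + bonus lab J i * Nn η := by
  rw [Nn_succ]
  unfold Mn Nn
  rw [sum_idx_succ, Finset.mul_sum, ← Finset.sum_add_distrib]
  apply Finset.sum_congr rfl
  intro k _
  rw [Finset.mul_sum, Finset.mul_sum, ← Finset.sum_add_distrib]
  apply Finset.sum_congr rfl
  intro μ _
  rw [Wg_succ lab δ J i r h k μ]
  unfold sl
  ring

lemma Mn_nonactive (i r : ℕ) (h : r = 0 ∨ J < lab i) (η : Cv K r) :
    Mn lab δ J i r η = Nn η := by
  unfold Mn Nn
  apply Finset.sum_congr rfl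
  intro ν _
  rw [Wg_nonactive lab δ J i r h, one_mul]

lemma eq_zero_of_Nn {r : ℕ} {η : Cv K r} (h : Nn η = 0) : η = 0 := by
  unfold Nn at h
  rw [Finset.sum_eq_zero_iff_of_nonneg (fun _ _ => by positivity)] at h
  funext ν
  have := h ν (Finset.mem_univ _)
  simpa using this

end

/-- weighted Euclidean embedding -/
noncomputable def toE {r : ℕ} (W : Idx K r → ℝ) (v : Cv K r) : EuclideanSpace ℂ (Idx K r) :=
  WithLp.toLp 2 (fun ν => ((√(W ν) : ℝ) : ℂ) * v ν)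

lemma norm_sq_toE {r : ℕ} (W : Idx K r → ℝ) (hW : ∀ ν, 0 ≤ W ν) (v : Cv K r) :
    ‖toE W v‖ ^ 2 = ∑ ν, W ν * ‖v ν‖ ^ 2 := by
  rw [EuclideanSpace.norm_sq_eq]
  apply Finset.sum_congr rfl
  intro ν _
  simp only [toE, norm_mul, mul_pow, Complex.norm_real, Real.norm_eq_abs, sq_abs]
  rw [Real.sq_sqrt (hW ν)]

/-- extended slices -/
def sle {r : ℕ} (a : Cv K (r+1)) (k : ℕ) : Cv K r := if h : k < K+2 then sl a ⟨k, h⟩ else 0

lemma sle_fin {r : ℕ} (a : Cv K (r+1)) (k : Fin (K+2)) : sle a k = sl a k := by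
  unfold sle
  simp [k.2]

lemma sle_zero {r : ℕ} (a : Cv K (r+1)) : sle a 0 = sl a 0 := by
  have := sle_fin a 0
  simpa using this

lemma toE_kv {r : ℕ} (W : Idx K r → ℝ) (η : Cv K (r+1)) (h : ℂ → ℂ) (z : ℂ) :
    vp (fun k => toE W (sle η k)) (K+2) z + conj (h z) • toE W (sle η 0) = toE W (kv η h z) := by
  ext ν
  unfold vp
  rw [Finset.sum_range]
  simp only [toE, kv, PiLp.add_apply, PiLp.smul_apply, WithLp.ofLp_sum, Finset.sum_apply,
    WithLp.ofLp_smul, Pi.smul_apply, smul_eq_mul, sle_fin, sle_zero]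
  rw [mul_add, Finset.mul_sum]
  congr 1
  · apply Finset.sum_congr rfl
    intro k _
    ring
  · ring

lemma geom_sum_aux (K : ℕ) : ∑ k ∈ Finset.range K, (2/3 : ℝ) ^ (k+2) = 4/3 - 3 * (2/3) ^ (K+2) := by
  induction K with
  | zero => norm_num
  | succ n ih => rw [Finset.sum_range_succ, ih]; ring

lemma cs_aux {δ : ℝ} (hδ : 0 < δ) (K : ℕ) (x : ℕ → ℝ) :
    (48 / δ) * (∑ k ∈ Finset.range K, x k) ^ 2
      ≤ ∑ k ∈ Finset.range K, (64 / δ) * (3 / 2) ^ (k+2) * x k ^ 2 := by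
  have h1 := Finset.sum_sq_le_sum_mul_sum_of_sq_eq_mul (Finset.range K) (r := x)
    (f := fun k => (δ / 64) * (2/3 : ℝ) ^ (k+2))
    (g := fun k => (64 / δ) * (3 / 2) ^ (k+2) * x k ^ 2)
    (fun k _ => by positivity) (fun k _ => by positivity)
    (fun k _ => by
      have e : ((2:ℝ)/3) ^ (k+2) * (3/2) ^ (k+2) = 1 := by
        rw [← mul_pow]; norm_num
      have : (δ / 64) * (2/3 : ℝ) ^ (k+2) * ((64 / δ) * (3 / 2) ^ (k+2) * x k ^ 2)
        = ((δ / 64) * (64 / δ)) * (((2:ℝ)/3) ^ (k+2) * (3/2) ^ (k+2)) * x k ^ 2 := by ring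
      rw [this, e]
      field_simp)
  have h2 : ∑ k ∈ Finset.range K, (δ / 64) * (2/3 : ℝ) ^ (k+2) ≤ δ / 48 := by
    rw [← Finset.mul_sum, geom_sum_aux]
    have : (0:ℝ) < (2/3) ^ (K+2) := by positivity
    nlinarith
  have h3 : 0 ≤ ∑ k ∈ Finset.range K, (64 / δ) * (3 / 2) ^ (k+2) * x k ^ 2 :=
    Finset.sum_nonneg (fun k _ => by positivity)
  have h4 := h1.trans (mul_le_mul_of_nonneg_right h2 h3)
  calc (48 / δ) * (∑ k ∈ Finset.range K, x k) ^ 2
      ≤ (48 / δ) * (δ / 48 * ∑ k ∈ Finset.range K, (64 / δ) * (3 / 2) ^ (k+2) * x k ^ 2) := by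
        apply mul_le_mul_of_nonneg_left h4; positivity
    _ = _ := by field_simp

/-- Phi functional -/
noncomputable def Phi (w : ℕ → ℝ) (lab : ℕ → ℕ) : ℕ → (r : ℕ) → Cv K r → ℝ → ℝ
  | _, 0 => fun _ _ => 0
  | i, (r+1) => fun a S => av (fun z => w (lab i) * (max S ‖ev a z (zi K r)‖ - S)
      + Phi w lab (i+1) r (ev a z) (max S ‖ev a z (zi K r)‖))

lemma evzi_continuous {r : ℕ} : Continuous (fun p : Cv K (r+1) × ℂ => ‖ev p.1 p.2 (zi K r)‖) := by
  apply Continuous.norm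
  exact (continuous_apply (zi K r)).comp ev_continuous

lemma max_continuous {r : ℕ} : Continuous
    (fun p : (Cv K (r+1) × ℝ) × ℂ => max p.1.2 ‖ev p.1.1 p.2 (zi K r)‖) := by
  have h1 : Continuous (fun p : (Cv K (r+1) × ℝ) × ℂ => ‖ev p.1.1 p.2 (zi K r)‖) := by
    have := (evzi_continuous (K := K) (r := r)).comp
      (by fun_prop : Continuous (fun p : (Cv K (r+1) × ℝ) × ℂ => (p.1.1, p.2)))
    exact this
  exact (by fun_prop : Continuous (fun p : (Cv K (r+1) × ℝ) × ℂ => p.1.2)).max h1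

lemma ev_pair_continuous {r : ℕ} : Continuous
    (fun p : (Cv K (r+1) × ℝ) × ℂ => (ev p.1.1 p.2, max p.1.2 ‖ev p.1.1 p.2 (zi K r)‖)) := by
  have h1 : Continuous (fun p : (Cv K (r+1) × ℝ) × ℂ => ev p.1.1 p.2) := by
    have := (ev_continuous (K := K) (r := r)).comp
      (by fun_prop : Continuous (fun p : (Cv K (r+1) × ℝ) × ℂ => (p.1.1, p.2)))
    exact this
  exact h1.prodMk max_continuous

lemma Phi_continuous (w : ℕ → ℝ) (lab : ℕ → ℕ) : ∀ (r i : ℕ),
    Continuous (fun p : Cv K r × ℝ => Phi w lab i r p.1 p.2)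
  | 0, i => by simp only [Phi]; exact continuous_const
  | r+1, i => by
    simp only [Phi]
    apply av_continuous (X := Cv K (r+1) × ℝ)
      (F := fun p z => w (lab i) * (max p.2 ‖ev p.1 z (zi K r)‖ - p.2)
      + Phi w lab (i+1) r (ev p.1 z) (max p.2 ‖ev p.1 z (zi K r)‖))
    have h1 := (Phi_continuous w lab r (i+1)).comp (ev_pair_continuous (K := K) (r := r))
    have h2 := max_continuous (K := K) (r := r)
    have h3 : Continuous (fun p : (Cv K (r+1) × ℝ) × ℂ => p.1.2) := by fun_prop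
    exact (continuous_const.mul (h2.sub h3)).add h1

/-- pointwise integrand is continuous in z -/
lemma Phi_integrand_cs (w : ℕ → ℝ) (lab : ℕ → ℕ) (i r : ℕ) (a : Cv K (r+1)) (S : ℝ) :
    Continuous (fun z => Phi w lab (i+1) r (ev a z) (max S ‖ev a z (zi K r)‖)) := by
  have h1 := (Phi_continuous (K := K) w lab r (i+1)).comp (ev_pair_continuous (K := K) (r := r))
  exact h1.comp (by fun_prop : Continuous (fun z : ℂ => ((a, S), z)))

lemma max_cs {r : ℕ} (a : Cv K (r+1)) (S : ℝ) :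
    Continuous (fun z => max S ‖ev a z (zi K r)‖) :=
  (max_continuous (K := K) (r := r)).comp (by fun_prop : Continuous (fun z : ℂ => ((a, S), z)))

lemma Phi_nonneg {w : ℕ → ℝ} (hw : ∀ s, 0 ≤ w s) (lab : ℕ → ℕ) : ∀ (r i : ℕ) (a : Cv K r) (S : ℝ),
    0 ≤ Phi w lab i r a S
  | 0, i, a, S => by simp [Phi]
  | r+1, i, a, S => by
    simp only [Phi]
    apply av_nonneg
    intro z _
    apply add_nonneg
    · apply mul_nonneg (hw _)
      have := le_max_left S ‖ev a z (zi K r)‖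
      linarith
    · exact Phi_nonneg hw lab r (i+1) _ _

/-- support condition -/
def Supp (lab : ℕ → ℕ) (J : ℕ) : ℕ → (r : ℕ) → Cv K r → Prop
  | _, 0 => fun _ => True
  | i, (r+1) => fun η => (J < lab i → ∀ k : Fin (K+2), k ≠ 0 → sl η k = 0) ∧
      ∀ k, Supp lab J (i+1) r (sl η k)

lemma Supp_add (lab : ℕ → ℕ) (J : ℕ) : ∀ (r i : ℕ) (η ξ : Cv K r), Supp lab J i r η →
    Supp lab J i r ξ → Supp lab J i r (η + ξ)
  | 0, i, η, ξ, _, _ => trivial
  | r+1, i, η, ξ, h1, h2 => by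
    refine ⟨fun hJ k hk => ?_, fun k => ?_⟩
    · have e : sl (η + ξ) k = sl η k + sl ξ k := rfl
      rw [e, h1.1 hJ k hk, h2.1 hJ k hk, add_zero]
    · exact Supp_add lab J r (i+1) (sl η k) (sl ξ k) (h1.2 k) (h2.2 k)

lemma Supp_smul (lab : ℕ → ℕ) (J : ℕ) (c : ℂ) : ∀ (r i : ℕ) (η : Cv K r), Supp lab J i r η →
    Supp lab J i r (c • η)
  | 0, i, η, _ => trivial
  | r+1, i, η, h1 => by
    refine ⟨fun hJ k hk => ?_, fun k => ?_⟩
    · have e : sl (c • η) k = c • sl η k := rfl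
      rw [e, h1.1 hJ k hk, smul_zero]
    · exact Supp_smul lab J c r (i+1) (sl η k) (h1.2 k)

lemma Supp_zero (lab : ℕ → ℕ) (J : ℕ) : ∀ (r i : ℕ), Supp lab J i r (0 : Cv K r)
  | 0, i => trivial
  | r+1, i => by
    refine ⟨fun hJ k hk => rfl, fun k => ?_⟩
    exact Supp_zero lab J r (i+1)

lemma Supp_sum (lab : ℕ → ℕ) (J r i : ℕ) {ι : Type*} (s : Finset ι) (η : ι → Cv K r)
    (h : ∀ j ∈ s, Supp lab J i r (η j)) : Supp lab J i r (∑ j ∈ s, η j) := by
  classical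
  induction s using Finset.induction_on with
  | empty => simpa using Supp_zero lab J r i
  | insert j s hj ih =>
    rw [Finset.sum_insert hj]
    apply Supp_add
    · exact h j (Finset.mem_insert_self _ _)
    · exact ih (fun l hl => h l (Finset.mem_insert_of_mem hl))

lemma kv_eq {r : ℕ} (η : Cv K (r+1)) (h : ℂ → ℂ) (z : ℂ) :
    kv η h z = (∑ k : Fin (K+2), z ^ (k:ℕ) • sl η k) + conj (h z) • sl η 0 := by
  funext ν
  simp [kv, Finset.sum_apply]

lemma Supp_kv (lab : ℕ → ℕ) (J r i : ℕ) (η : Cv K (r+1)) (h : ℂ → ℂ) (z : ℂ)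
    (hs : Supp lab J i (r+1) η) : Supp lab J (i+1) r (kv η h z) := by
  rw [kv_eq]
  apply Supp_add
  · apply Supp_sum
    intro k _
    exact Supp_smul lab J _ r (i+1) _ (hs.2 k)
  · exact Supp_smul lab J _ r (i+1) _ (hs.2 0)

lemma supp_only_zi {lab : ℕ → ℕ} (hmono : Monotone lab) (J : ℕ) : ∀ (r i : ℕ) (η : Cv K r),
    (r = 0 ∨ J < lab i) → Supp lab J i r η → ∀ ν, ν ≠ zi K r → η ν = 0
  | 0, i, η, _, _, ν, h => absurd (Subsingleton.elim (α := Unit) ν (zi K 0)) h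
  | r+1, i, η, hJ, hs, ν, h => by
    obtain ⟨k, μ⟩ := (ν : Fin (K+2) × Idx K r)
    have hJ' : J < lab i := by
      rcases hJ with hJ | hJ
      · exact absurd hJ (Nat.succ_ne_zero r)
      · exact hJ
    by_cases hk : k = 0
    · subst hk
      have hμ : μ ≠ zi K r := by
        rintro rfl
        exact h rfl
      have := supp_only_zi hmono J r (i+1) (sl η 0)
        (Or.inr (lt_of_lt_of_le hJ' (hmono (Nat.le_succ i)))) (hs.2 0) μ hμ
      exact this
    · have := hs.1 hJ' k hk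
      exact congrFun this μ

lemma pr_nonactive {lab : ℕ → ℕ} (hmono : Monotone lab) (J r i : ℕ) (a η : Cv K r)
    (hJ : r = 0 ∨ J < lab i) (hs : Supp lab J i r η) :
    pr a η = a (zi K r) * conj (η (zi K r)) := by
  unfold pr
  rw [Finset.sum_eq_single (zi K r)]
  · intro ν _ hν
    rw [supp_only_zi hmono J r i η hJ hs ν hν]
    simp
  · simp

lemma Nn_nonactive {lab : ℕ → ℕ} (hmono : Monotone lab) (J r i : ℕ) (η : Cv K r)
    (hJ : r = 0 ∨ J < lab i) (hs : Supp lab J i r η) :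
    Nn η = ‖η (zi K r)‖ ^ 2 := by
  unfold Nn
  rw [Finset.sum_eq_single (zi K r)]
  · intro ν _ hν
    rw [supp_only_zi hmono J r i η hJ hs ν hν]
    simp
  · simp

/-- state functional -/
noncomputable def Gst (lab : ℕ → ℕ) (δ : ℕ → ℝ) (J i r : ℕ) (η : Cv K r) : ℝ :=
  if r = 0 ∨ J < lab i then (1 / 2) * √(Mn lab δ J i r η)
  else Gb (J - lab i) (Mn lab δ J i r η) (Nn η)

lemma gst_le {lab : ℕ → ℕ} {δ : ℕ → ℝ} (hδ : ∀ i, 0 < δ i ∧ δ i ≤ 1)
    (hmono : Monotone lab) (hinc : ∀ i, lab (i+1) ≤ lab i + 1) {m J i r : ℕ}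
    (him : i + 1 + r = m) (hJm : J ≤ lab (m-1)) (hact : lab i ≤ J) (η : Cv K r)
    (hM : Mn lab δ J (i+1) r η < Bf (J - lab i)) :
    Gst lab δ J (i+1) r η ≤ Gb (J - lab i) (Mn lab δ J (i+1) r η) (Nn η) := by
  unfold Gst
  split_ifs with hc
  · have hρ : J - lab i = 0 := by
      rcases hc with hc | hc
      · have : m - 1 = i := by omega
        rw [this] at hJm
        omega
      · have := hinc i
        omega
    rw [hρ] at hM ⊢
    have hMN := Mn_nonactive lab δ J (i+1) r hc η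
    rw [← hMN]
    exact Gb_term (Mn_nonneg lab δ J hδ (i+1) r η) hM
  · have hr : r ≠ 0 := fun h => hc (Or.inl h)
    have hJl : lab (i+1) ≤ J := not_lt.1 (fun h => hc (Or.inr h))
    have hle : lab i ≤ lab (i+1) := hmono (Nat.le_succ i)
    rcases hle.lt_or_eq with hlt | heq
    · have hi := hinc i
      have hρ : J - lab i = (J - lab (i+1)) + 1 := by omega
      rw [hρ] at hM ⊢
      apply Gb_step (Mn_nonneg lab δ J hδ (i+1) r η) hM (Nn_nonneg η)
      obtain ⟨r', rfl⟩ := Nat.exists_eq_succ_of_ne_zero hr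
      have h1 : bonus lab J (i+1) * Nn η ≤ Mn lab δ J (i+1) (r'+1) η := by
        rw [Mn_succ lab δ J (i+1) r' (not_lt.2 hJl) η]
        have : 0 ≤ ∑ k : Fin (K+2), wt (δ (i+1)) k * Mn lab δ J (i+1+1) r' (sl η k) := by
          apply Finset.sum_nonneg
          intro k _
          apply mul_nonneg
          · linarith [wt_ge_one (hδ (i+1)).1 (hδ (i+1)).2 k]
          · exact Mn_nonneg lab δ J hδ _ _ _
        linarith
      have h2 : bonus lab J (i+1) = rexp (((J - lab (i+1) : ℕ) : ℝ) / 2) := by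
        unfold bonus
        rw [if_pos (Or.inr (by simpa using hlt)), Nat.cast_sub hJl]
      rw [h2] at h1
      calc Nn η = rexp (-((J - lab (i+1) : ℕ) : ℝ) / 2) *
            (rexp (((J - lab (i+1) : ℕ) : ℝ) / 2) * Nn η) := by
            rw [← mul_assoc, ← Real.exp_add]
            have : -((J - lab (i+1) : ℕ) : ℝ) / 2 + ((J - lab (i+1) : ℕ) : ℝ) / 2 = 0 := by ring
            rw [this, Real.exp_zero, one_mul]
        _ ≤ _ := mul_le_mul_of_nonneg_left h1 (exp_pos _).le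
    · rw [heq]

end Pool.Agent.Helper22Hardy
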