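import Pool.Agent.Helper22_Hardy.NT

set_option autoImplicit false

open Complex Metric Real
open scoped ComplexConjugate

namespace Pool.Agent.Helper22Hardy

variable {K : ℕ}

lemma wJ_le (ρ : ℕ) : wJ ρ ≤ (2 ^ al * (2 ^ be * rexp (be / 2))) *
    (((ρ:ℝ) ^ 1 * rexp (-(be/2)) ^ ρ) + 2 * ((ρ:ℝ) ^ 0 * rexp (-(be/2)) ^ ρ)) := by
  unfold wJ cf
  have h1 : (2 * rexp ((1 - (ρ:ℝ)) / 2)) ^ be = 2 ^ be * rexp (be / 2) * rexp (-(be/2)) ^ ρ := by
    rw [Real.mul_rpow (by norm_num) (exp_pos _).le, ← Real.exp_mul, mul_assoc, ← Real.exp_nat_mul,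
      ← Real.exp_add]
    congr 2
    ring
  have h2 : (((ρ:ℝ) + 1) * (ρ + 2)) ^ al ≤ (ρ:ℝ) + 2 := by
    have h3 : (((ρ:ℝ) + 1) * (ρ + 2)) ^ al ≤ (((ρ:ℝ) + 2) ^ 2) ^ al := by
      apply Real.rpow_le_rpow (by positivity) _ al_pos.le
      nlinarith [show (0:ℝ) ≤ ρ by positivity]
    have h4 : (((ρ:ℝ) + 2) ^ 2) ^ al ≤ (((ρ:ℝ) + 2) ^ 2) ^ (1/2 : ℝ) := by
      apply Real.rpow_le_rpow_of_exponent_le
      · nlinarith [show (0:ℝ) ≤ ρ by positivity]
      · unfold al; norm_num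
    have h5 : (((ρ:ℝ) + 2) ^ 2) ^ (1/2 : ℝ) = (ρ:ℝ) + 2 := by
      rw [← Real.sqrt_eq_rpow, Real.sqrt_sq (by positivity)]
    linarith
  rw [h1]
  have h6 : 0 < (2:ℝ) ^ al * (2 ^ be * rexp (be / 2) * rexp (-(be/2)) ^ ρ) := by positivity
  calc (2:ℝ) ^ al * (2 ^ be * rexp (be / 2) * rexp (-(be/2)) ^ ρ) * (((ρ:ℝ) + 1) * (ρ + 2)) ^ al
      ≤ (2:ℝ) ^ al * (2 ^ be * rexp (be / 2) * rexp (-(be/2)) ^ ρ) * ((ρ:ℝ) + 2) :=
        mul_le_mul_of_nonneg_left h2 h6.le
    _ = _ := by ring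

lemma wJ_sum : ∃ Wt : ℝ, 0 < Wt ∧ ∀ n, ∑ ρ ∈ Finset.range n, wJ ρ ≤ Wt := by
  have hr : ‖rexp (-(be/2))‖ < 1 := by
    rw [Real.norm_eq_abs, abs_of_pos (exp_pos _), Real.exp_lt_one_iff]
    linarith [be_pos]
  have s1 := summable_pow_mul_geometric_of_norm_lt_one 1 hr
  have s0 := (summable_pow_mul_geometric_of_norm_lt_one 0 hr).mul_left 2
  have s2 := (s1.add s0).mul_left (2 ^ al * (2 ^ be * rexp (be / 2)))
  have hs : Summable wJ := Summable.of_nonneg_of_le (fun ρ => (wJ_pos ρ).le) wJ_le s2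
  refine ⟨∑' ρ, wJ ρ, ?_, fun n => hs.sum_le_tsum _ (fun ρ _ => (wJ_pos ρ).le)⟩
  exact hs.tsum_pos (fun ρ => (wJ_pos ρ).le) 0 (wJ_pos 0)

/-- phase factor -/
noncomputable def phs (a : ℂ) : ℂ := if a = 0 then 0 else a / ‖a‖

lemma phs_norm_le (a : ℂ) : ‖phs a‖ ≤ 1 := by
  unfold phs
  split_ifs with h
  · simp
  · rw [norm_div, Complex.norm_real, norm_norm, div_self (norm_ne_zero_iff.2 h)]

lemma mul_conj_phs (a : ℂ) : a * conj (phs a) = ‖a‖ := by
  unfold phs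
  split_ifs with h
  · simp [h]
  · have hn : (‖a‖ : ℂ) ≠ 0 := by exact_mod_cast norm_ne_zero_iff.2 h
    rw [map_div₀, Complex.conj_ofReal, mul_div_assoc', Complex.mul_conj, div_eq_iff hn,
      Complex.normSq_eq_norm_sq]
    push_cast
    ring

/-- the weight of index ν -/
noncomputable def om (K m : ℕ) (ν : Idx K m) : ℝ :=
  1 / (√(val K 0 m ν : ℝ) * Real.log (val K 0 m ν))

/-- test vectors -/
noncomputable def yv (m : ℕ) (a : Cv K m) (J : ℕ) : Cv K m := fun ν =>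
  open Classical in
  if ν = zi K m ∨ tl K 0 m ν ≠ J then 0 else phs (a ν) * ((om K m ν : ℝ) : ℂ)

lemma om_nonneg (m : ℕ) (ν : Idx K m) : 0 ≤ om K m ν := by
  unfold om
  have := log_val_nonneg (K := K) m 0 ν
  positivity

lemma yv_Mn_le {c : ℝ} (hc : 0 < c) (hP : ∀ i, c * rexp (lab i) ≤ Real.log (P i)) (m J : ℕ)
    (a : Cv K m) : Mn lab dl J 0 m (yv m a J) ≤ Qinf * (rexp 2 + 3 * rexp 1) / c ^ 2 := by
  have hpt : ∀ ν : Idx K m, Wg K lab dl J 0 m ν * ‖yv m a J ν‖ ^ 2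
      ≤ (1 / (c ^ 2 * rexp (2 * J))) * (Wg K lab dl J 0 m ν * uj K J 0 m ν) := by
    intro ν
    have hW : 0 ≤ Wg K lab dl J 0 m ν :=
      zero_le_one.trans (Wg_ge_one lab dl J dl_mem m 0 ν)
    have hu := uj_nonneg (K := K) J m 0 ν
    by_cases h : ν = zi K m ∨ tl K 0 m ν ≠ J
    · have : yv m a J ν = 0 := by unfold yv; rw [if_pos h]
      rw [this]
      simp only [norm_zero, ne_eq, OfNat.ofNat_ne_zero, not_false_eq_true, zero_pow, mul_zero]
      positivity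
    · have hne : ν ≠ zi K m := fun h1 => h (Or.inl h1)
      have hJ : tl K 0 m ν = J := by
        by_contra h1
        exact h (Or.inr h1)
      have e : yv m a J ν = phs (a ν) * ((om K m ν : ℝ) : ℂ) := by
        unfold yv; rw [if_neg h]
      have h1 : ‖yv m a J ν‖ ^ 2 ≤ om K m ν ^ 2 := by
        rw [e, norm_mul, Complex.norm_real, Real.norm_eq_abs, abs_of_nonneg (om_nonneg m ν)]
        apply pow_le_pow_left₀ (by have := om_nonneg (K := K) m ν; positivity)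
        have := mul_le_mul_of_nonneg_right (phs_norm_le (a ν)) (om_nonneg (K := K) m ν)
        linarith
      have h2 := log_val_ge hc hP m 0 ν hne
      rw [hJ] at h2
      have hv : (0:ℝ) < val K 0 m ν := by exact_mod_cast val_pos m 0 ν
      have hpos : 0 < c * rexp J := by positivity
      have hlog : 0 < Real.log (val K 0 m ν) := lt_of_lt_of_le hpos h2
      have h3 : om K m ν ^ 2 ≤ (1 / (c ^ 2 * rexp (2 * J))) * (1 / (val K 0 m ν : ℝ)) := by
        have e1 : om K m ν ^ 2 = 1 / (Real.log (val K 0 m ν) ^ 2) * (1 / (val K 0 m ν : ℝ)) := by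
          unfold om
          rw [div_pow, mul_pow, Real.sq_sqrt hv.le]
          field_simp
        rw [e1]
        apply mul_le_mul_of_nonneg_right _ (by positivity)
        apply one_div_le_one_div_of_le (by positivity)
        have e2 : c ^ 2 * rexp (2 * J) = (c * rexp J) ^ 2 := by
          rw [mul_pow, ← Real.exp_nat_mul]
          norm_num
        rw [e2]
        exact pow_le_pow_left₀ hpos.le h2 2
      have h4 : uj K J 0 m ν = 1 / (val K 0 m ν : ℝ) := uj_eq J m 0 ν hJ.le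
      rw [h4]
      calc Wg K lab dl J 0 m ν * ‖yv m a J ν‖ ^ 2
          ≤ Wg K lab dl J 0 m ν * ((1 / (c ^ 2 * rexp (2 * J))) * (1 / (val K 0 m ν : ℝ))) :=
            mul_le_mul_of_nonneg_left (h1.trans h3) hW
        _ = _ := by ring
  have h1 := Finset.sum_le_sum (fun ν (_ : ν ∈ Finset.univ) => hpt ν)
  rw [← Finset.mul_sum] at h1
  have h2 : Mn lab dl J 0 m (yv m a J) = ∑ ν, Wg K lab dl J 0 m ν * ‖yv m a J ν‖ ^ 2 := rfl
  have h3 : Zn K J 0 m = ∑ ν : Idx K m, Wg K lab dl J 0 m ν * uj K J 0 m ν := rfl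
  rw [h2]
  rw [← h3] at h1
  refine h1.trans ?_
  have h4 := Zn_zero_bound (K := K) J m
  calc (1 / (c ^ 2 * rexp (2 * J))) * Zn K J 0 m
      ≤ (1 / (c ^ 2 * rexp (2 * J))) * (Qinf * (rexp 2 + 3 * rexp 1) * rexp (2 * J)) :=
        mul_le_mul_of_nonneg_left h4 (by positivity)
    _ = _ := by
        field_simp

lemma pr_yv (m : ℕ) (a : Cv K m) (J : ℕ) : pr a (yv m a J) =
    ((∑ ν, (open Classical in if ν = zi K m ∨ tl K 0 m ν ≠ J then 0 else ‖a ν‖ * om K m ν) : ℝ) : ℂ) := by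
  unfold pr
  push_cast
  apply Finset.sum_congr rfl
  intro ν _
  unfold yv
  split_ifs with h
  · simp
  · rw [map_mul, Complex.conj_ofReal, ← mul_assoc, mul_conj_phs]
    push_cast
    rfl

theorem key_inequality : ∃ C : ℝ, 0 < C ∧ ∀ (K m : ℕ), m ≠ 0 → ∀ a : Cv K m,
    ∑ ν, (open Classical in if ν = zi K m then 0 else ‖a ν‖ * om K m ν) ≤ C * norm1 m a := by
  obtain ⟨c, hc, hP⟩ := log_P_ge
  obtain ⟨Wt, hWt, hW⟩ := wJ_sum
  obtain ⟨B, hB⟩ : ∃ B, B = Qinf * (rexp 2 + 3 * rexp 1) / c ^ 2 := ⟨_, rfl⟩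
  have hBpos : 0 < B := by
    rw [hB]
    have := Qinf_pos
    positivity
  have hsB : 0 < √B := Real.sqrt_pos.2 hBpos
  refine ⟨√B * (8 * Wt), by positivity, ?_⟩
  intro K m hm a
  classical
  obtain ⟨s, hs⟩ : ∃ s : ℂ, s = (((√B)⁻¹ : ℝ) : ℂ) := ⟨_, rfl⟩
  have hsn : ‖s‖ = (√B)⁻¹ := by
    rw [hs, Complex.norm_real, Real.norm_eq_abs, abs_of_pos (by positivity)]
  have hb := pairing_bound (K := K) (lab := lab) (δ := dl) dl_mem lab_mono lab_inc lab_zero hm hW a
    (fun J => s • yv m a J)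
    (fun J _ => by
      apply Supp_smul
      apply Supp_of_tl
      intro ν hν
      by_contra h1
      apply hν
      unfold yv
      rw [if_pos]
      right
      omega)
    (fun J _ => by
      have h1 := yv_Mn_le (K := K) hc hP m J a
      rw [← hB] at h1
      have h2 : Mn lab dl J 0 m (s • yv m a J) = B⁻¹ * Mn lab dl J 0 m (yv m a J) := by
        unfold Mn
        rw [Finset.mul_sum]
        apply Finset.sum_congr rfl
        intro ν _
        rw [Pi.smul_apply, smul_eq_mul, norm_mul, hsn, mul_pow, inv_pow, Real.sq_sqrt hBpos.le]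
        ring
      rw [h2]
      calc B⁻¹ * Mn lab dl J 0 m (yv m a J) ≤ B⁻¹ * B :=
            mul_le_mul_of_nonneg_left h1 (by positivity)
        _ = 1 := inv_mul_cancel₀ hBpos.ne')
  have h1 : ∀ J, ‖pr a (s • yv m a J)‖ = (√B)⁻¹ *
      ∑ ν, (if ν = zi K m ∨ tl K 0 m ν ≠ J then 0 else ‖a ν‖ * om K m ν) := by
    intro J
    have h2 : pr a (s • yv m a J) = s * pr a (yv m a J) := by
      unfold pr
      rw [Finset.mul_sum]
      apply Finset.sum_congr rfl
      intro ν _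
      rw [Pi.smul_apply, smul_eq_mul, map_mul]
      have : conj s = s := by rw [hs, Complex.conj_ofReal]
      rw [this]
      ring
    rw [h2, norm_mul, hsn, pr_yv, Complex.norm_real, Real.norm_eq_abs, abs_of_nonneg]
    apply Finset.sum_nonneg
    intro ν _
    split_ifs
    · exact le_rfl
    · exact mul_nonneg (norm_nonneg _) (om_nonneg _ _)
  simp only [h1] at hb
  rw [← Finset.mul_sum, Finset.sum_comm] at hb
  have h3 : ∀ ν : Idx K m, ∑ J ∈ Finset.range (lab (m-1) + 1),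
      (if ν = zi K m ∨ tl K 0 m ν ≠ J then 0 else ‖a ν‖ * om K m ν)
      = (if ν = zi K m then 0 else ‖a ν‖ * om K m ν) := by
    intro ν
    by_cases h : ν = zi K m
    · simp [h]
    · rw [Finset.sum_eq_single (tl K 0 m ν)]
      · simp [h]
      · intro J _ hJ
        rw [if_pos (Or.inr (fun h4 => hJ h4.symm))]
      · intro h4
        exfalso
        apply h4
        rw [Finset.mem_range]
        have := tl_le (K := K) m 0 ν
        rw [zero_add] at this
        omega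
  simp only [h3] at hb
  calc ∑ ν, (if ν = zi K m then 0 else ‖a ν‖ * om K m ν)
      = √B * ((√B)⁻¹ * ∑ ν, (if ν = zi K m then 0 else ‖a ν‖ * om K m ν)) := by
        rw [← mul_assoc, mul_inv_cancel₀ hsB.ne', one_mul]
    _ ≤ √B * (8 * Wt * norm1 m a) := mul_le_mul_of_nonneg_left hb hsB.le
    _ = _ := by ring

end Pool.Agent.Helper22Hardy
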