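import Pool.Agent.Helper22_Hardy.Geom

set_option autoImplicit false

open Complex Metric Real
open scoped ComplexConjugate

namespace Pool.Agent.Helper22Hardy

/-- the numeric strength of the kernel interpolation -/
noncomputable def k0 : ℝ := 1 / 216

lemma k0_pos : 0 < k0 := by unfold k0; norm_num

set_option maxHeartbeats 4000000 in
lemma logistic {M B d : ℝ} (hM : 0 < M) (hMB : M < B) (hd : 0 ≤ d) {ξ M' : ℂ → ℝ}
    (hξc : CS ξ) (hMc : CS M') (hξ1 : ∀ z ∈ sphere (0:ℂ) 1, |ξ z| ≤ 1)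
    (hξm : av ξ = -d) (hξv : av (fun z => ξ z ^ 2) ≤ 54 * d)
    (hM' : ∀ z ∈ sphere (0:ℂ) 1, M' z ≤ M * (1 + k0 * ((B - M) / B) * ξ z)) :
    (∀ z ∈ sphere (0:ℂ) 1, M' z < B) ∧
    av (fun z => M' z / (B - M' z)) ≤ M / (B - M) * (1 - k0 * d / 2) ∧
    (∀ B' ≥ B, av (fun z => 1 / (B' - M' z)) ≤ 1 / (B' - M)) := by
  have hB : 0 < B := hM.trans hMB
  have hBM : 0 < B - M := by linarith
  have hk0 : k0 = 1 / 216 := rfl
  -- X z
  have hX : ∀ z ∈ sphere (0:ℂ) 1, M * (1 + k0 * ((B - M) / B) * ξ z) < B := by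
    intro z hz
    have h1 := abs_le.mp (hξ1 z hz)
    have h2 : M * (1 + k0 * ((B - M) / B) * ξ z) = M + k0 * (B - M) * (M / B) * ξ z := by
      field_simp
    rw [h2]
    have h3 : M / B < 1 := (div_lt_one hB).mpr hMB
    have h3' : 0 < M / B := by positivity
    have h4 : k0 * (B - M) * (M / B) * ξ z ≤ k0 * (B - M) * (M / B) := by
      have : 0 ≤ k0 * (B - M) * (M / B) := by rw [hk0]; positivity
      nlinarith
    have h5 : k0 * (B - M) * (M / B) < B - M := by
      rw [hk0]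
      nlinarith
    linarith
  have hlt : ∀ z ∈ sphere (0:ℂ) 1, M' z < B := fun z hz => (hM' z hz).trans_lt (hX z hz)
  refine ⟨hlt, ?_, ?_⟩
  · -- R
    obtain ⟨R, hR⟩ : ∃ R : ℝ, R = M / (B - M) := ⟨_, rfl⟩
    have hR0 : 0 < R := by rw [hR]; positivity
    have hpt : ∀ z ∈ sphere (0:ℂ) 1, M' z / (B - M' z)
        ≤ R * (1 + k0 * ξ z + 2 * k0 ^ 2 * ξ z ^ 2) := by
      intro z hz
      have h1 := abs_le.mp (hξ1 z hz)
      have hx := hX z hz
      have hm := hM' z hz
      have hm' := hlt z hz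
      obtain ⟨X, hXd⟩ : ∃ X : ℝ, X = M * (1 + k0 * ((B - M) / B) * ξ z) := ⟨_, rfl⟩
      rw [← hXd] at hx hm
      have h2 : M' z / (B - M' z) ≤ X / (B - X) := by
        rw [div_le_div_iff₀ (by linarith) (by linarith)]
        nlinarith
      refine h2.trans ?_
      rw [div_le_iff₀ (by linarith)]
      obtain ⟨φ, hφ⟩ : ∃ φ : ℝ, φ = M / B := ⟨_, rfl⟩
      have hφ0 : 0 < φ := by rw [hφ]; positivity
      have hφ1 : φ < 1 := by rw [hφ]; exact (div_lt_one hB).mpr hMB
      obtain ⟨u, hu⟩ : ∃ u : ℝ, u = k0 * ξ z := ⟨_, rfl⟩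
      have hu1 : |u| ≤ 1 / 4 := by
        rw [hu, abs_mul, hk0, abs_of_pos (by norm_num : (0:ℝ) < 1/216)]
        have := hξ1 z hz
        linarith
      have hu2 := abs_le.mp hu1
      have e1 : X = M * (1 + (1 - φ) * u) := by
        rw [hXd, hφ, hu]; field_simp
      have e2 : R * (B - X) = M * (1 - φ * u) := by
        rw [e1, hR, hφ, hu]; field_simp; ring
      have e3 : R * (1 + k0 * ξ z + 2 * k0 ^ 2 * ξ z ^ 2) * (B - X)
          = (M * (1 - φ * u)) * (1 + u + 2 * u ^ 2) := by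
        rw [← e2, hu]; ring
      rw [e3, e1]
      have e4 : (M * (1 - φ * u)) * (1 + u + 2 * u ^ 2) - M * (1 + (1 - φ) * u)
          = M * (u ^ 2 * (2 - φ - 2 * φ * u)) := by ring
      have h6 : 0 ≤ 2 - φ - 2 * φ * u := by nlinarith
      have h7 : 0 ≤ M * (u ^ 2 * (2 - φ - 2 * φ * u)) := by positivity
      linarith
    have hc1 : CS (fun z => M' z / (B - M' z)) := by
      apply ContinuousOn.div hMc (continuousOn_const.sub hMc)
      intro z hz
      have := hlt z hz
      show B - M' z ≠ 0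
      exact ne_of_gt (by linarith)
    have hc2 : CS (fun z => 1 + k0 * ξ z) := continuousOn_const.add (continuousOn_const.mul hξc)
    have hc3 : CS (fun z => 2 * k0 ^ 2 * ξ z ^ 2) := continuousOn_const.mul (hξc.pow 2)
    have hc4 : CS (fun z => 1 + k0 * ξ z + 2 * k0 ^ 2 * ξ z ^ 2) := hc2.add hc3
    have hc5 : CS (fun z => R * (1 + k0 * ξ z + 2 * k0 ^ 2 * ξ z ^ 2)) :=
      continuousOn_const.mul hc4
    have hc6 : CS (fun z => k0 * ξ z) := continuousOn_const.mul hξc
    have h8 := av_mono hc1 hc5 hpt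
    rw [av_mul_left, av_add hc2 hc3, av_add continuousOn_const hc6,
      av_const, av_mul_left, av_mul_left, hξm] at h8
    rw [hR] at h8
    refine h8.trans ?_
    apply mul_le_mul_of_nonneg_left _ (by positivity)
    have : 2 * k0 ^ 2 * av (fun z => ξ z ^ 2) ≤ 2 * k0 ^ 2 * (54 * d) := by
      apply mul_le_mul_of_nonneg_left hξv; positivity
    rw [hk0] at this ⊢
    linarith
  · intro B' hB'
    have hB'M : 0 < B' - M := by linarith
    obtain ⟨τ, hτ⟩ : ∃ τ : ℝ, τ = k0 * ((B - M) / B) * M / (B' - M) := ⟨_, rfl⟩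
    have hτ0 : 0 ≤ τ := by rw [hτ, hk0]; positivity
    have hτ1 : τ ≤ k0 := by
      rw [hτ, div_le_iff₀ hB'M]
      have h1 : k0 * ((B - M) / B) * M = k0 * ((M / B) * (B - M)) := by ring
      rw [h1]
      apply mul_le_mul_of_nonneg_left _ k0_pos.le
      have h3 : M / B < 1 := (div_lt_one hB).mpr hMB
      nlinarith
    have hpt : ∀ z ∈ sphere (0:ℂ) 1, 1 / (B' - M' z)
        ≤ (1 / (B' - M)) * (1 + τ * ξ z + 2 * τ ^ 2 * ξ z ^ 2) := by
      intro z hz
      have h1 := hξ1 z hz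
      have hm := hM' z hz
      have hx := hX z hz
      obtain ⟨v, hv⟩ : ∃ v : ℝ, v = τ * ξ z := ⟨_, rfl⟩
      have hv1 : |v| ≤ 1 / 4 := by
        rw [hv, abs_mul, abs_of_nonneg hτ0]
        rw [hk0] at hτ1
        nlinarith [abs_nonneg (ξ z)]
      have hv2 := abs_le.mp hv1
      have e1 : B' - M * (1 + k0 * ((B - M) / B) * ξ z) = (B' - M) * (1 - v) := by
        rw [hv, hτ]; field_simp; ring
      have h2 : (B' - M) * (1 - v) ≤ B' - M' z := by rw [← e1]; linarith
      have h3 : 0 < (B' - M) * (1 - v) := by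
        apply mul_pos hB'M; linarith
      calc 1 / (B' - M' z) ≤ 1 / ((B' - M) * (1 - v)) := one_div_le_one_div_of_le h3 h2
        _ ≤ (1 / (B' - M)) * (1 + τ * ξ z + 2 * τ ^ 2 * ξ z ^ 2) := by
          have e2 : (1 / (B' - M)) * (1 + τ * ξ z + 2 * τ ^ 2 * ξ z ^ 2)
              = (1 + v + 2 * v ^ 2) / (B' - M) := by rw [hv]; ring
          rw [e2, div_le_div_iff₀ h3 hB'M]
          have e3 : (1 + v + 2 * v ^ 2) * ((B' - M) * (1 - v))
              = (B' - M) * (1 + v ^ 2 * (1 - 2 * v)) := by ring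
          rw [e3, one_mul]
          have h4 : 0 ≤ v ^ 2 * (1 - 2 * v) := by
            apply mul_nonneg (sq_nonneg _); linarith
          nlinarith
    have hc1 : CS (fun z => 1 / (B' - M' z)) := by
      apply ContinuousOn.div continuousOn_const (continuousOn_const.sub hMc)
      intro z hz
      have := hlt z hz
      show B' - M' z ≠ 0
      exact ne_of_gt (by linarith)
    have hc2 : CS (fun z => 1 + τ * ξ z) := continuousOn_const.add (continuousOn_const.mul hξc)
    have hc3 : CS (fun z => 2 * τ ^ 2 * ξ z ^ 2) := continuousOn_const.mul (hξc.pow 2)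
    have hc4 : CS (fun z => 1 + τ * ξ z + 2 * τ ^ 2 * ξ z ^ 2) := hc2.add hc3
    have hc5 : CS (fun z => (1 / (B' - M)) * (1 + τ * ξ z + 2 * τ ^ 2 * ξ z ^ 2)) :=
      continuousOn_const.mul hc4
    have hc6 : CS (fun z => τ * ξ z) := continuousOn_const.mul hξc
    have h8 := av_mono hc1 hc5 hpt
    rw [av_mul_left, av_add hc2 hc3, av_add continuousOn_const hc6,
      av_const, av_mul_left, av_mul_left, hξm] at h8
    refine h8.trans ?_
    apply mul_le_of_le_one_right (by positivity)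
    have h9 : 2 * τ ^ 2 * av (fun z => ξ z ^ 2) ≤ 2 * τ ^ 2 * (54 * d) := by
      apply mul_le_mul_of_nonneg_left hξv; positivity
    have h10 : 2 * τ ^ 2 * (54 * d) ≤ τ * d := by
      have : 2 * τ ^ 2 * (54 * d) = τ * d * (108 * τ) := by ring
      rw [this]
      apply mul_le_of_le_one_right (by positivity)
      rw [hk0] at hτ1
      linarith
    linarith

end Pool.Agent.Helper22Hardy
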