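import Pool.Agent.Helper22_Hardy.Induct

set_option autoImplicit false

open Complex Metric Real
open scoped ComplexConjugate

namespace Pool.Agent.Helper22Hardy

variable {K : ℕ}

lemma cs_pr {r : ℕ} (a η : Cv K (r+1)) {h : ℂ → ℂ} (hh : CS h) :
    CS (fun z => pr (ev a z) (kv η h z)) := by
  unfold pr
  apply continuousOn_finsetSum
  intro ν _
  apply ContinuousOn.mul
  · apply Continuous.continuousOn
    unfold ev
    fun_prop
  · exact Complex.continuous_conj.comp_continuousOn (cs_kv η hh ν)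

lemma cs_Mn (lab : ℕ → ℕ) (δ : ℕ → ℝ) (J i : ℕ) {r : ℕ} (η : Cv K (r+1)) {h : ℂ → ℂ} (hh : CS h) :
    CS (fun z => Mn lab δ J i r (kv η h z)) := by
  unfold Mn
  apply continuousOn_finsetSum
  intro ν _
  apply ContinuousOn.mul continuousOn_const
  exact (cs_kv η hh ν).norm.pow 2

lemma cs_Nn {r : ℕ} (η : Cv K (r+1)) {h : ℂ → ℂ} (hh : CS h) :
    CS (fun z => Nn (kv η h z)) := by
  unfold Nn
  apply continuousOn_finsetSum
  intro ν _
  exact (cs_kv η hh ν).norm.pow 2

lemma pr_zero {r : ℕ} (a : Cv K r) : pr a (0 : Cv K r) = 0 := by simp [pr]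

lemma step_hyp {lab : ℕ → ℕ} {δ : ℕ → ℝ} (hδ : ∀ i, 0 < δ i ∧ δ i ≤ 1) (J i r : ℕ)
    (hact : ¬ J < lab i) (η : Cv K (r+1)) :
    ‖toE (Wg K lab δ J (i+1) r) (sle η 0)‖ ^ 2
      + (2 + δ i) * ‖toE (Wg K lab δ J (i+1) r) (sle η 1)‖ ^ 2
      + (48 / δ i) * rho (fun k => toE (Wg K lab δ J (i+1) r) (sle η k)) K ^ 2
      ≤ Mn lab δ J i (r+1) η := by
  have hWnn : ∀ ν, 0 ≤ Wg K lab δ J (i+1) r ν := fun ν =>
    le_trans zero_le_one (Wg_ge_one lab δ J hδ r (i+1) ν)
  obtain ⟨e, he⟩ : ∃ e : ℕ → EuclideanSpace ℂ (Idx K r),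
      e = fun k => toE (Wg K lab δ J (i+1) r) (sle η k) := ⟨_, rfl⟩
  have hn : ∀ k, ‖e k‖ ^ 2 = Mn lab δ J (i+1) r (sle η k) := by
    intro k
    rw [he]
    exact norm_sq_toE _ hWnn _
  have h1 : Mn lab δ J i (r+1) η = (∑ k ∈ Finset.range (K+2), wt (δ i) k * ‖e k‖ ^ 2)
      + bonus lab J i * Nn η := by
    rw [Mn_succ lab δ J i r hact η, Finset.sum_range]
    congr 1
    apply Finset.sum_congr rfl
    intro k _
    rw [hn, sle_fin]
  have h2 : ∑ k ∈ Finset.range (K+2), wt (δ i) k * ‖e k‖ ^ 2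
      = (∑ k ∈ Finset.range K, (64 / δ i) * (3 / 2) ^ (k+2) * ‖e (k+2)‖ ^ 2)
        + (2 + δ i) * ‖e 1‖ ^ 2 + ‖e 0‖ ^ 2 := by
    rw [Finset.sum_range_succ', Finset.sum_range_succ']
    simp only [wt_zero, wt_one, wt_two, zero_add, one_mul, Nat.add_assoc, Nat.reduceAdd]
  have h3 := cs_aux (hδ i).1 K (fun k => ‖e (k+2)‖)
  have h4 : 0 ≤ bonus lab J i * Nn η := mul_nonneg (bonus_nonneg _ _ _) (Nn_nonneg _)
  have h5 : rho (fun k => toE (Wg K lab δ J (i+1) r) (sle η k)) K
      = ∑ k ∈ Finset.range K, ‖e (k+2)‖ := by rw [he]; rfl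
  have h6 : ∀ k, toE (Wg K lab δ J (i+1) r) (sle η k) = e k := by intro k; rw [he]
  rw [h5, h6, h6, h1, h2]
  linarith

theorem main_ind {lab : ℕ → ℕ} {δ : ℕ → ℝ} (hδ : ∀ i, 0 < δ i ∧ δ i ≤ 1)
    (hmono : Monotone lab) (hinc : ∀ i, lab (i+1) ≤ lab i + 1) {m J : ℕ}
    (hJm : J ≤ lab (m-1)) {w : ℕ → ℝ} (hw : ∀ s, 0 ≤ w s) (hwJ : ∀ s ≤ J, wJ (J - s) ≤ w s) :
    ∀ (r i : ℕ), i + r = m → ∀ (a η : Cv K r) (S : ℝ), ‖a (zi K r)‖ ≤ S →
      Supp lab J i r η → (¬ (r = 0 ∨ J < lab i) → Mn lab δ J i r η < Bf (J - lab i)) →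
      ‖pr a η‖ ≤ 2 * (S * Gst lab δ J i r η + Phi w lab i r a S) := by
  intro r
  induction r with
  | zero =>
    intro i _ a η S hS hs _
    have h1 := pr_nonactive hmono J 0 i a η (Or.inl rfl) hs
    have h2 := Nn_nonactive hmono J 0 i η (Or.inl rfl) hs
    have h3 := Mn_nonactive lab δ J i 0 (Or.inl rfl) η
    have h4 := Phi_nonneg hw lab 0 i a S
    unfold Gst
    rw [if_pos (Or.inl rfl), h3, h2, Real.sqrt_sq (norm_nonneg _), h1, norm_mul, RCLike.norm_conj]
    have := mul_le_mul_of_nonneg_right hS (norm_nonneg (η (zi K 0)))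
    linarith
  | succ r ih =>
    intro i him a η S hS hs hM
    by_cases hJ : J < lab i
    · have h1 := pr_nonactive hmono J (r+1) i a η (Or.inr hJ) hs
      have h2 := Nn_nonactive hmono J (r+1) i η (Or.inr hJ) hs
      have h3 := Mn_nonactive lab δ J i (r+1) (Or.inr hJ) η
      have h4 := Phi_nonneg hw lab (r+1) i a S
      unfold Gst
      rw [if_pos (Or.inr hJ), h3, h2, Real.sqrt_sq (norm_nonneg _), h1, norm_mul,
        RCLike.norm_conj]
      have := mul_le_mul_of_nonneg_right hS (norm_nonneg (η (zi K (r+1))))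
      linarith
    · have hact : lab i ≤ J := not_lt.1 hJ
      have hnc : ¬ (r + 1 = 0 ∨ J < lab i) := by
        rintro (h | h)
        · exact absurd h (Nat.succ_ne_zero r)
        · exact hJ h
      have hMB := hM hnc
      have hS0 : 0 ≤ S := (norm_nonneg _).trans hS
      obtain ⟨M, hMdef⟩ : ∃ M, M = Mn lab δ J i (r+1) η := ⟨_, rfl⟩
      have hM0 : 0 ≤ M := by rw [hMdef]; exact Mn_nonneg lab δ J hδ i (r+1) η
      have hGst : Gst lab δ J i (r+1) η = Gb (J - lab i) M (Nn η) := by
        unfold Gst; rw [if_neg hnc, hMdef]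
      rw [← hMdef] at hMB
      rw [hGst]
      have hPhi := Phi_nonneg hw lab (r+1) i a S
      rcases hM0.eq_or_lt with hM00 | hMpos
      · have hN : Nn η = 0 := by
          have := Nn_le_Mn lab δ J hδ i (r+1) η
          have := Nn_nonneg η
          linarith
        rw [eq_zero_of_Nn hN, pr_zero, norm_zero]
        have : 0 ≤ Gb (J - lab i) M (Nn (0 : Cv K (r+1))) := Gb_nonneg hM0 hMB (Nn_nonneg _)
        positivity
      · have hNpos : 0 < Nn η := by
          rcases (Nn_nonneg η).eq_or_lt with h | h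
          · have h0 := eq_zero_of_Nn h.symm
            rw [hMdef, h0] at hMpos
            have : Mn lab δ J i (r+1) (0 : Cv K (r+1)) = 0 := by simp [Mn]
            linarith
          · exact h
        have hhyp := step_hyp hδ J i r hJ η
        rw [← hMdef] at hhyp
        obtain ⟨h, d, hd, hh, h0, hb, h1, h2, h3⟩ := one_step
          (fun k => toE (Wg K lab δ J (i+1) r) (sle η k)) (fun k => toE (fun _ => 1) (sle η k))
          K (δ i) M (Bf (J - lab i)) (hδ i).1 (hδ i).2 hMpos hhyp hMB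
        have hWnn : ∀ ν, 0 ≤ Wg K lab δ J (i+1) r ν := fun ν =>
          le_trans zero_le_one (Wg_ge_one lab δ J hδ r (i+1) ν)
        have e1 : ∀ z, ‖vp (fun k => toE (Wg K lab δ J (i+1) r) (sle η k)) (K+2) z
            + conj (h z) • toE (Wg K lab δ J (i+1) r) (sle η 0)‖ ^ 2
            = Mn lab δ J (i+1) r (kv η h z) := by
          intro z
          rw [toE_kv, norm_sq_toE _ hWnn]
          rfl
        have e2 : ∀ z, ‖vp (fun k => toE (fun _ => 1) (sle η k)) (K+2) z
            + conj (h z) • toE (fun _ => 1) (sle η 0)‖ ^ 2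
            = Nn (kv η h z) := by
          intro z
          rw [toE_kv, norm_sq_toE _ (fun _ => zero_le_one)]
          simp [Nn]
        simp only [e1] at hb h1 h3
        simp only [e2] at h2
        have e3 : ∑ k ∈ Finset.range (K+2), ‖toE (fun _ => (1:ℝ)) (sle η k)‖ ^ 2 = Nn η := by
          rw [Finset.sum_range, Nn_succ]
          apply Finset.sum_congr rfl
          intro k _
          rw [norm_sq_toE _ (fun _ => zero_le_one), sle_fin]
          simp [Nn]
        rw [e3] at h2
        have hcs : CS h := DiffContOnCl.cs hh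
        have hGav := Gb_av (ρ := J - lab i) (M := M) (N := Nn η) (d := d)
          (M' := fun z => Mn lab δ J (i+1) r (kv η h z)) (N' := fun z => Nn (kv η h z))
          (cs_Mn lab δ J (i+1) η hcs) (cs_Nn η hcs) hMpos hNpos hMB hd
          (fun z _ => Mn_nonneg lab δ J hδ (i+1) r _) (fun z _ => Nn_nonneg _) hb h1 h2
          (h3 (Bf' (J - lab i)) (Bf_lt_Bf' _).le)
        have hGcs := Gb_cs (ρ := J - lab i)
          (M' := fun z => Mn lab δ J (i+1) r (kv η h z)) (N' := fun z => Nn (kv η h z))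
          (cs_Mn lab δ J (i+1) η hcs) (cs_Nn η hcs) hb
        have hBmono : Bf (J - lab i) ≤ Bf (J - lab (i+1)) := by
          have hle : lab i ≤ lab (i+1) := hmono (Nat.le_succ i)
          have hle2 : ((J - lab (i+1) : ℕ) : ℝ) ≤ ((J - lab i : ℕ) : ℝ) := by
            exact_mod_cast (by omega : J - lab (i+1) ≤ J - lab i)
          unfold Bf
          have : (1:ℝ) / (((J - lab i : ℕ) : ℝ) + 2) ≤ 1 / (((J - lab (i+1) : ℕ) : ℝ) + 2) := by
            apply one_div_le_one_div_of_le (by positivity)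
            linarith
          linarith
        have hpt : ∀ z ∈ sphere (0:ℂ) 1, ‖pr (ev a z) (kv η h z)‖ ≤
            2 * (S * Gb (J - lab i) (Mn lab δ J (i+1) r (kv η h z)) (Nn (kv η h z))
              + (w (lab i) * (max S ‖ev a z (zi K r)‖ - S)
                + Phi w lab (i+1) r (ev a z) (max S ‖ev a z (zi K r)‖))) := by
          intro z hz
          have hbz := hb z hz
          have i1 := ih (i+1) (by omega) (ev a z) (kv η h z) (max S ‖ev a z (zi K r)‖)
            (le_max_right _ _) (Supp_kv lab J r i η h z hs)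
            (fun _ => lt_of_lt_of_le hbz hBmono)
          have i2 := gst_le hδ hmono hinc (m := m) (J := J) (i := i) (r := r) (by omega) hJm hact
            (kv η h z) hbz
          have i3 : Gb (J - lab i) (Mn lab δ J (i+1) r (kv η h z)) (Nn (kv η h z))
              ≤ wJ (J - lab i) := Gb_le_w hbz
          have i4 := hwJ (lab i) hact
          have i5 := le_max_left S ‖ev a z (zi K r)‖
          have i6 : 0 ≤ max S ‖ev a z (zi K r)‖ := hS0.trans i5
          have i7 := mul_le_mul_of_nonneg_left i2 i6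
          have i8 : (max S ‖ev a z (zi K r)‖ - S)
              * Gb (J - lab i) (Mn lab δ J (i+1) r (kv η h z)) (Nn (kv η h z))
              ≤ (max S ‖ev a z (zi K r)‖ - S) * w (lab i) := by
            apply mul_le_mul_of_nonneg_left (i3.trans i4)
            linarith
          nlinarith [i1, i7, i8]
        have hc1 : CS (fun z => S * Gb (J - lab i) (Mn lab δ J (i+1) r (kv η h z))
            (Nn (kv η h z))) := continuousOn_const.mul hGcs
        have hc2 : CS (fun z => w (lab i) * (max S ‖ev a z (zi K r)‖ - S)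
                + Phi w lab (i+1) r (ev a z) (max S ‖ev a z (zi K r)‖)) := by
          apply Continuous.continuousOn
          exact (continuous_const.mul ((max_cs a S).sub continuous_const)).add
            (Phi_integrand_cs w lab i r a S)
        have hc3 : CS (fun z => S * Gb (J - lab i) (Mn lab δ J (i+1) r (kv η h z))
            (Nn (kv η h z)) + (w (lab i) * (max S ‖ev a z (zi K r)‖ - S)
                + Phi w lab (i+1) r (ev a z) (max S ‖ev a z (zi K r)‖))) := hc1.add hc2
        have hc4 : CS (fun z => 2 * (S * Gb (J - lab i) (Mn lab δ J (i+1) r (kv η h z))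
            (Nn (kv η h z)) + (w (lab i) * (max S ‖ev a z (zi K r)‖ - S)
                + Phi w lab (i+1) r (ev a z) (max S ‖ev a z (zi K r)‖)))) :=
          continuousOn_const.mul hc3
        have hcp := cs_pr a η hcs
        calc ‖pr a η‖ = ‖av (fun z => pr (ev a z) (kv η h z))‖ := by rw [pr_repr a η hh h0]
          _ ≤ av (fun z => ‖pr (ev a z) (kv η h z)‖) := norm_av_le hcp
          _ ≤ _ := av_mono hcp.norm hc4 hpt
          _ = 2 * (S * av (fun z => Gb (J - lab i) (Mn lab δ J (i+1) r (kv η h z))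
                (Nn (kv η h z))) + Phi w lab i (r+1) a S) := by
              rw [av_mul_left, av_add hc1 hc2, av_mul_left]
              rfl
          _ ≤ _ := by
              have := mul_le_mul_of_nonneg_left hGav hS0
              linarith

end Pool.Agent.Helper22Hardy
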