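import Mathlib

/-!
Sub-mean value inequality `‖Q(w)‖^p ≤ (R+|w|)/(R-|w|) * average over the circle of ‖Q‖^p` for
`Q = (polynomial) * exp (entire)` and every exponent `p > 0`.
-/

open MeasureTheory Metric Real Set Filter Topology

namespace Pool.Agent.Helper22Hardy.SubMean

theorem norm_circleAverage_le {f : ℂ → ℂ} {c : ℂ} {R : ℝ} :
    ‖circleAverage f c R‖ ≤ circleAverage (fun z => ‖f z‖) c R := by
  rw [circleAverage, circleAverage, norm_smul, smul_eq_mul, Real.norm_eq_abs,
    abs_of_pos (inv_pos.2 two_pi_pos)]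
  exact mul_le_mul_of_nonneg_left
    (intervalIntegral.norm_integral_le_integral_norm two_pi_pos.le) (inv_pos.2 two_pi_pos).le

/-- sub-mean value inequality for zero-free functions -/
theorem subMean_zeroFree {f : ℂ → ℂ} {R : ℝ} {p : ℝ}
    (hf : AnalyticOnNhd ℂ f (closedBall 0 R)) (h0 : ∀ z ∈ closedBall (0:ℂ) R, f z ≠ 0)
    {w : ℂ} (hw : ‖w‖ < R) :
    ‖f w‖ ^ p ≤ (R + ‖w‖) / (R - ‖w‖) * circleAverage (fun z => ‖f z‖ ^ p) 0 R := by
  have hR : 0 < R := lt_of_le_of_lt (norm_nonneg w) hw
  have hharm : InnerProductSpace.HarmonicOnNhd (fun z => Real.log ‖f z‖) (closedBall 0 R) :=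
    fun z hz => (hf z hz).harmonicAt_log_norm (h0 z hz)
  obtain ⟨e, h₁e, h₂e⟩ := (isCompact_closedBall (0:ℂ) R).exists_thickening_subset_open
    (InnerProductSpace.isOpen_setOfPred_harmonicAt (fun z => Real.log ‖f z‖)) (by
      intro z hz; exact hharm z hz)
  rw [thickening_closedBall h₁e hR.le] at h₂e
  obtain ⟨F, h₁F, h₂F⟩ := InnerProductSpace.HarmonicOnNhd.exists_analyticOnNhd_ball_re_eq
    (f := fun z => Real.log ‖f z‖) (z := (0:ℂ)) (R := e + R) (fun z hz => h₂e hz)
  have hsub : closedBall (0:ℂ) R ⊆ ball 0 (e + R) := closedBall_subset_ball (by linarith)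
  have hnorm : ∀ z ∈ closedBall (0:ℂ) R, ‖Complex.exp (p * F z)‖ = ‖f z‖ ^ p := by
    intro z hz
    have h1 := h₂F (hsub hz)
    simp only at h1
    rw [Complex.norm_exp, Complex.re_ofReal_mul, h1,
      Real.rpow_def_of_pos (norm_pos_iff.2 (h0 z hz)), mul_comm]
  have hdiff : DiffContOnCl ℂ (fun z => Complex.exp (p * F z)) (ball 0 R) := by
    apply DifferentiableOn.diffContOnCl
    intro x hx
    have hx' : x ∈ ball (0:ℂ) (e + R) := hsub (closure_ball_subset_closedBall hx)
    have := (h₁F x hx').differentiableAt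
    exact ((this.const_mul _).cexp).differentiableWithinAt
  have hwb : w ∈ ball (0:ℂ) R := by simpa using hw
  have key := hdiff.circleAverage_re_herglotzRieszKernel_smul hwb
  have hcont : ContinuousOn (fun z => Complex.exp (p * F z)) (sphere 0 R) := by
    intro x hx
    have hx' : x ∈ ball (0:ℂ) (e + R) := hsub (sphere_subset_closedBall hx)
    have := (h₁F x hx').differentiableAt
    exact ((this.const_mul _).cexp).continuousAt.continuousWithinAt
  calc ‖f w‖ ^ p = ‖Complex.exp (p * F w)‖ := (hnorm w (ball_subset_closedBall hwb)).symm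
    _ = ‖circleAverage (Complex.re ∘ herglotzRieszKernel 0 w • fun z => Complex.exp (p * F z)) 0 R‖ := by
        rw [key]
    _ ≤ circleAverage (fun z => ‖(Complex.re ∘ herglotzRieszKernel 0 w • fun z => Complex.exp (p * F z)) z‖) 0 R :=
        norm_circleAverage_le
    _ ≤ circleAverage (fun z => (R + ‖w‖) / (R - ‖w‖) * ‖f z‖ ^ p) 0 R := by
        apply circleAverage_mono
        · apply ContinuousOn.circleIntegrable hR.le
          apply ContinuousOn.norm
          apply ContinuousOn.smul _ hcont
          apply Complex.continuous_re.comp_continuousOn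
          have := continuousOn_herglotzRieszKernel_sphere (R := R) hwb
          rwa [abs_of_pos hR] at this
        · apply ContinuousOn.circleIntegrable hR.le
          apply ContinuousOn.mul continuousOn_const
          apply (hcont.norm).congr
          intro z hz
          exact (hnorm z (sphere_subset_closedBall hz)).symm
        · intro z hz
          rw [abs_of_pos hR] at hz
          have hz' := hnorm z (sphere_subset_closedBall hz)
          have hk1 := re_herglotzRieszKernel_le hz hwb
          have hk2 := le_re_herglotzRieszKernel hz hwb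
          simp only [sub_zero] at hk1 hk2
          have hk0 : 0 ≤ (R - ‖w‖) / (R + ‖w‖) :=
            div_nonneg (by linarith) (by positivity)
          have hker : (Complex.re ∘ herglotzRieszKernel 0 w) z = ((z + w) / (z - w)).re := by
            simp [herglotzRieszKernel_def]
          simp only [Pi.smul_apply', hker, norm_smul, hz', Real.norm_eq_abs]
          rw [abs_of_nonneg (le_trans hk0 hk2)]
          exact mul_le_mul_of_nonneg_right hk1 (by positivity)
    _ = (R + ‖w‖) / (R - ‖w‖) * circleAverage (fun z => ‖f z‖ ^ p) 0 R := by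
        rw [← smul_eq_mul, ← circleAverage_fun_smul]
        rfl

open Polynomial in
/-- replacing the roots inside the disc by their reflections -/
theorem exists_reflect {R : ℝ} (hR : 0 < R) (s : Multiset ℂ) (hs : ∀ a ∈ s, ‖a‖ ≠ R) :
    ∃ q' : Polynomial ℂ, (∀ z ∈ closedBall (0:ℂ) R, q'.eval z ≠ 0) ∧
      (∀ z ∈ sphere (0:ℂ) R, ‖q'.eval z‖ = ‖((s.map fun a => X - C a).prod).eval z‖) ∧
      (∀ z ∈ closedBall (0:ℂ) R, ‖((s.map fun a => X - C a).prod).eval z‖ ≤ ‖q'.eval z‖) := by
  induction s using Multiset.induction_on with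
  | empty => exact ⟨1, by simp, by simp, by simp⟩
  | cons a s ih =>
    obtain ⟨q, h1, h2, h3⟩ := ih (fun b hb => hs b (Multiset.mem_cons_of_mem hb))
    have ha : ‖a‖ ≠ R := hs a (Multiset.mem_cons_self a s)
    have hRc : (R : ℂ) ≠ 0 := by exact_mod_cast hR.ne'
    by_cases hlt : ‖a‖ < R
    · -- reflected factor
      have hid : ∀ z : ℂ, ‖(R : ℂ) - (starRingEnd ℂ a) / R * z‖ ^ 2 - ‖z - a‖ ^ 2 =
          (R ^ 2 - ‖z‖ ^ 2) * (R ^ 2 - ‖a‖ ^ 2) / R ^ 2 := by
        intro z
        rw [← Complex.normSq_eq_norm_sq, ← Complex.normSq_eq_norm_sq, ← Complex.normSq_eq_norm_sq,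
          ← Complex.normSq_eq_norm_sq]
        have hre : ((starRingEnd ℂ a) / (R:ℂ)).re = a.re / R := by
          rw [Complex.div_ofReal_re]; simp
        have him : ((starRingEnd ℂ a) / (R:ℂ)).im = -a.im / R := by
          rw [Complex.div_ofReal_im]; simp
        simp only [Complex.normSq_apply, Complex.sub_re, Complex.sub_im, Complex.mul_re,
          Complex.mul_im, hre, him, Complex.ofReal_re, Complex.ofReal_im]
        field_simp
        ring
      have hle : ∀ z ∈ closedBall (0:ℂ) R, ‖z - a‖ ≤ ‖(R : ℂ) - (starRingEnd ℂ a) / R * z‖ := by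
        intro z hz
        have hz' : ‖z‖ ≤ R := by simpa using hz
        have h := hid z
        have hnn : 0 ≤ (R ^ 2 - ‖z‖ ^ 2) * (R ^ 2 - ‖a‖ ^ 2) / R ^ 2 := by
          apply div_nonneg _ (by positivity)
          apply mul_nonneg
          · have := norm_nonneg z; nlinarith
          · have := norm_nonneg a; nlinarith
        have : ‖z - a‖ ^ 2 ≤ ‖(R : ℂ) - (starRingEnd ℂ a) / R * z‖ ^ 2 := by linarith
        exact le_of_sq_le_sq this (norm_nonneg _)
      have heq : ∀ z ∈ sphere (0:ℂ) R, ‖(R : ℂ) - (starRingEnd ℂ a) / R * z‖ = ‖z - a‖ := by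
        intro z hz
        have hz' : ‖z‖ = R := by simpa using hz
        have h := hid z
        rw [hz'] at h
        have : ‖(R : ℂ) - (starRingEnd ℂ a) / R * z‖ ^ 2 = ‖z - a‖ ^ 2 := by
          have h0 : (R ^ 2 - R ^ 2) * (R ^ 2 - ‖a‖ ^ 2) / R ^ 2 = 0 := by ring
          linarith
        exact (pow_left_inj₀ (norm_nonneg _) (norm_nonneg _) two_ne_zero).1 this
      have hne : ∀ z ∈ closedBall (0:ℂ) R, (R : ℂ) - (starRingEnd ℂ a) / R * z ≠ 0 := by
        intro z hz h0
        have hz' : ‖z‖ ≤ R := by simpa using hz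
        have h1 : (R : ℂ) = (starRingEnd ℂ a) / R * z := by linear_combination h0
        have h2 : R = ‖a‖ / R * ‖z‖ := by
          have := congrArg norm h1
          rw [norm_mul, norm_div, Complex.norm_conj, Complex.norm_real, Real.norm_eq_abs,
            abs_of_pos hR] at this
          exact this
        have h3 : ‖a‖ / R < 1 := by rw [div_lt_one hR]; exact hlt
        have h4 : 0 ≤ ‖a‖ / R := by positivity
        nlinarith [norm_nonneg z]
      refine ⟨(C (R:ℂ) - C ((starRingEnd ℂ a) / R) * X) * q, ?_, ?_, ?_⟩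
      · intro z hz
        rw [eval_mul]
        exact mul_ne_zero (by simpa using hne z hz) (h1 z hz)
      · intro z hz
        rw [Multiset.map_cons, Multiset.prod_cons, eval_mul, eval_mul, norm_mul, norm_mul, h2 z hz]
        congr 1
        simpa using heq z hz
      · intro z hz
        rw [Multiset.map_cons, Multiset.prod_cons, eval_mul, eval_mul, norm_mul, norm_mul]
        apply mul_le_mul _ (h3 z hz) (norm_nonneg _) (norm_nonneg _)
        simpa using hle z hz
    · have hgt : R < ‖a‖ := lt_of_le_of_ne (not_lt.1 hlt) (Ne.symm ha)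
      refine ⟨(X - C a) * q, ?_, ?_, ?_⟩
      · intro z hz
        rw [eval_mul]
        refine mul_ne_zero ?_ (h1 z hz)
        intro h0
        have : z = a := by simpa [sub_eq_zero] using h0
        have hz' : ‖z‖ ≤ R := by simpa using hz
        rw [this] at hz'
        linarith
      · intro z hz
        rw [Multiset.map_cons, Multiset.prod_cons, eval_mul, eval_mul, norm_mul, norm_mul, h2 z hz]
      · intro z hz
        rw [Multiset.map_cons, Multiset.prod_cons, eval_mul, eval_mul, norm_mul, norm_mul]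
        exact mul_le_mul_of_nonneg_left (h3 z hz) (norm_nonneg _)

/-- sub-mean value inequality for `polynomial * exp (entire)`, no roots on the circle. -/
theorem subMean_aux {q : Polynomial ℂ} {E : ℂ → ℂ} (hE : Differentiable ℂ E) {R : ℝ} {p : ℝ}
    (hp : 0 < p) (hroot : ∀ a ∈ q.roots, ‖a‖ ≠ R) {w : ℂ} (hw : ‖w‖ < R) :
    ‖q.eval w * Complex.exp (E w)‖ ^ p ≤
      (R + ‖w‖) / (R - ‖w‖) * circleAverage (fun z => ‖q.eval z * Complex.exp (E z)‖ ^ p) 0 R := by
  have hR : 0 < R := lt_of_le_of_lt (norm_nonneg w) hw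
  by_cases hq : q = 0
  · subst hq
    simp only [Polynomial.eval_zero, zero_mul, norm_zero]
    rw [Real.zero_rpow hp.ne', circleAverage_const, mul_zero]
  · obtain ⟨q', h1, h2, h3⟩ := exists_reflect hR q.roots hroot
    have hsplit := (IsAlgClosed.splits q).eq_prod_roots
    set P : Polynomial ℂ := (q.roots.map fun a => Polynomial.X - Polynomial.C a).prod with hP
    have hlc : q.leadingCoeff ≠ 0 := Polynomial.leadingCoeff_ne_zero.2 hq
    have hev : ∀ z, q.eval z = q.leadingCoeff * P.eval z := by
      intro z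
      conv_lhs => rw [hsplit]
      rw [Polynomial.eval_mul, Polynomial.eval_C]
    set f : ℂ → ℂ := fun z => q.leadingCoeff * q'.eval z * Complex.exp (E z) with hf
    have hfd : Differentiable ℂ f := by
      intro z
      exact ((differentiableAt_const _).mul (q'.differentiable z)).mul (hE z).cexp
    have hfa : AnalyticOnNhd ℂ f (closedBall 0 R) := fun z _ => hfd.analyticAt z
    have hf0 : ∀ z ∈ closedBall (0:ℂ) R, f z ≠ 0 := by
      intro z hz
      exact mul_ne_zero (mul_ne_zero hlc (h1 z hz)) (Complex.exp_ne_zero _)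
    have key := subMean_zeroFree (p := p) hfa hf0 hw
    have hwb : w ∈ closedBall (0:ℂ) R := by simpa using hw.le
    have hle : ‖q.eval w * Complex.exp (E w)‖ ≤ ‖f w‖ := by
      simp only [hf, hev, norm_mul]
      gcongr
      exact h3 w hwb
    have hcirc : circleAverage (fun z => ‖f z‖ ^ p) 0 R =
        circleAverage (fun z => ‖q.eval z * Complex.exp (E z)‖ ^ p) 0 R := by
      apply circleAverage_congr_sphere
      intro z hz
      rw [abs_of_pos hR] at hz
      simp only [hf, hev, norm_mul, h2 z hz]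
    rw [← hcirc]
    exact le_trans (Real.rpow_le_rpow (norm_nonneg _) hle hp.le) key

/-- **Sub-mean value inequality** for `polynomial * exp (entire)`. -/
theorem subMean {q : Polynomial ℂ} {E : ℂ → ℂ} (hE : Differentiable ℂ E) {R : ℝ} {p : ℝ}
    (hp : 0 < p) {w : ℂ} (hw : ‖w‖ < R) :
    ‖q.eval w * Complex.exp (E w)‖ ^ p ≤
      (R + ‖w‖) / (R - ‖w‖) * circleAverage (fun z => ‖q.eval z * Complex.exp (E z)‖ ^ p) 0 R := by
  classical
  have hR : 0 < R := lt_of_le_of_lt (norm_nonneg w) hw
  -- the radii of the roots form a finite set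
  have hfin : (((q.roots.map norm).toFinset : Finset ℝ) : Set ℝ).Finite := Finset.finite_toSet _
  have hcont : Continuous (fun z => ‖q.eval z * Complex.exp (E z)‖ ^ p) := by
    apply Continuous.rpow_const _ (fun _ => Or.inr hp.le)
    exact (q.continuous.mul hE.continuous.cexp).norm
  have hcav : Continuous (fun r : ℝ =>
      circleAverage (fun z => ‖q.eval z * Complex.exp (E z)‖ ^ p) 0 r) :=
    hcont.circleAverage
  have hK : ContinuousAt (fun r : ℝ => (r + ‖w‖) / (r - ‖w‖)) R := by
    apply ContinuousAt.div (by fun_prop) (by fun_prop)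
    linarith
  have hlim : Tendsto (fun r : ℝ => (r + ‖w‖) / (r - ‖w‖) *
      circleAverage (fun z => ‖q.eval z * Complex.exp (E z)‖ ^ p) 0 r) (𝓝[>] R)
      (𝓝 ((R + ‖w‖) / (R - ‖w‖) *
        circleAverage (fun z => ‖q.eval z * Complex.exp (E z)‖ ^ p) 0 R)) :=
    ((hK.mul hcav.continuousAt).tendsto).mono_left nhdsWithin_le_nhds
  refine ge_of_tendsto hlim ?_
  have hev : ∀ᶠ r in 𝓝[>] R, r ∉ ((((q.roots.map norm).toFinset.erase R : Finset ℝ)) : Set ℝ) := by
    have hopen : IsOpen ((((q.roots.map norm).toFinset.erase R : Finset ℝ)) : Set ℝ)ᶜ :=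
      (Finset.finite_toSet _).isClosed.isOpen_compl
    have hmem : R ∈ ((((q.roots.map norm).toFinset.erase R : Finset ℝ)) : Set ℝ)ᶜ := by simp
    exact mem_nhdsWithin_of_mem_nhds (hopen.mem_nhds hmem)
  filter_upwards [hev, self_mem_nhdsWithin] with r hr hr'
  have hr'' : R < r := hr'
  refine subMean_aux hE hp ?_ (lt_trans hw hr'')
  intro a ha hcontra
  apply hr
  simp only [Finset.coe_erase, Set.mem_sdiff, Finset.mem_coe, Multiset.mem_toFinset,
    Multiset.mem_map, Set.mem_singleton_iff]
  exact ⟨⟨a, ha, hcontra⟩, hr''.ne'⟩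

end Pool.Agent.Helper22Hardy.SubMean
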