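import Pool.Agent.Helper22_Hardy.Main
import Pool.Agent.Helper22_Hardy.SubMean

set_option autoImplicit false

open Complex Metric Real
open scoped ComplexConjugate

namespace Pool.Agent.Helper22Hardy

variable {K : ℕ}

/-- iterated average of the modulus -/
noncomputable def norm1 : (r : ℕ) → Cv K r → ℝ
  | 0 => fun a => ‖a (zi K 0)‖
  | (r+1) => fun a => av (fun z => norm1 r (ev a z))

lemma norm1_continuous : ∀ (r : ℕ), Continuous (fun a : Cv K r => norm1 r a)
  | 0 => by
    simp only [norm1]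
    exact (continuous_apply _).norm
  | r+1 => by
    simp only [norm1]
    apply av_continuous (X := Cv K (r+1)) (F := fun a z => norm1 r (ev a z))
    exact (norm1_continuous r).comp ev_continuous

lemma norm1_cs {r : ℕ} (a : Cv K (r+1)) : Continuous (fun z => norm1 r (ev a z)) :=
  (norm1_continuous r).comp (ev_continuous.comp (by fun_prop : Continuous (fun z : ℂ => (a, z))))

lemma norm1_nonneg : ∀ (r : ℕ) (a : Cv K r), 0 ≤ norm1 r a
  | 0, a => norm_nonneg _
  | r+1, a => av_nonneg (fun z _ => norm1_nonneg r (ev a z))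

/-- the polynomial in the first variable -/
noncomputable def qpol {r : ℕ} (a : Cv K (r+1)) : Polynomial ℂ :=
  ∑ k : Fin (K+2), Polynomial.C (sl a k (zi K r)) * Polynomial.X ^ (k:ℕ)

lemma qpol_eval {r : ℕ} (a : Cv K (r+1)) (z : ℂ) : (qpol a).eval z = ev a z (zi K r) := by
  unfold qpol ev
  rw [Polynomial.eval_finsetSum]
  apply Finset.sum_congr rfl
  intro k _
  rw [Polynomial.eval_mul, Polynomial.eval_C, Polynomial.eval_pow, Polynomial.eval_X, mul_comm]

lemma ev_zero {r : ℕ} (a : Cv K (r+1)) : ev a 0 (zi K r) = a (zi K (r+1)) := by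
  unfold ev
  rw [Finset.sum_eq_single 0]
  · simp [sl, zi]
  · intro k _ hk
    have : (k:ℕ) ≠ 0 := fun h => hk (Fin.ext h)
    simp [this]
  · simp

lemma sqrt_submean {r : ℕ} (a : Cv K (r+1)) :
    √‖a (zi K (r+1))‖ ≤ av (fun z => √‖ev a z (zi K r)‖) := by
  have h := SubMean.subMean (q := qpol a) (E := fun _ => (0:ℂ)) (differentiable_const _) (R := 1)
    (p := 1/2) (by norm_num) (w := 0) (by simp)
  simp only [Complex.exp_zero, mul_one, norm_zero, add_zero, sub_zero, div_one, one_mul,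
    qpol_eval, ev_zero] at h
  simpa only [av, Real.sqrt_eq_rpow] using h

lemma ev_zi_continuous {r : ℕ} (a : Cv K (r+1)) : Continuous (fun z => ev a z (zi K r)) := by
  unfold ev
  fun_prop

lemma a_zi_le_norm1 : ∀ (r : ℕ) (a : Cv K r), ‖a (zi K r)‖ ≤ norm1 r a
  | 0, a => le_rfl
  | r+1, a => by
    have h1 : av (fun z => ev a z (zi K r)) = a (zi K (r+1)) := by
      rw [av_of_diff]
      · exact ev_zero a
      · have : Differentiable ℂ (fun z => ev a z (zi K r)) := by
          unfold ev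
          fun_prop
        exact this.diffContOnCl
    rw [← h1]
    refine (norm_av_le (ev_zi_continuous a).continuousOn).trans ?_
    apply av_mono (ev_zi_continuous a).norm.continuousOn (norm1_cs a).continuousOn
    intro z _
    exact a_zi_le_norm1 r (ev a z)

lemma Phi_const_le (lab : ℕ → ℕ) {c : ℝ} (hc : 0 ≤ c) : ∀ (r i : ℕ) (a : Cv K r) (S : ℝ),
    ‖a (zi K r)‖ ≤ S →
    Phi (fun _ => c) lab i r a S ≤ c * (4 * norm1 r a + (S - 4 * (√S * √‖a (zi K r)‖)))
  | 0, i, a, S, hS => by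
    simp only [Phi]
    apply mul_nonneg hc
    have hx := norm_nonneg (a (zi K 0))
    have hS0 : 0 ≤ S := hx.trans hS
    have e1 : norm1 0 a = ‖a (zi K 0)‖ := rfl
    rw [e1]
    nlinarith [sq_nonneg (√S - 2 * √‖a (zi K 0)‖), Real.sq_sqrt hx, Real.sq_sqrt hS0]
  | r+1, i, a, S, hS => by
    have hx0 := norm_nonneg (a (zi K (r+1)))
    have hS0 : 0 ≤ S := hx0.trans hS
    have hpt : ∀ z ∈ sphere (0:ℂ) 1, c * (max S ‖ev a z (zi K r)‖ - S)
        + Phi (fun _ => c) lab (i+1) r (ev a z) (max S ‖ev a z (zi K r)‖)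
        ≤ c * (4 * norm1 r (ev a z) + (S - 4 * √S * √‖ev a z (zi K r)‖)) := by
      intro z _
      have ih := Phi_const_le lab hc r (i+1) (ev a z) (max S ‖ev a z (zi K r)‖) (le_max_right _ _)
      obtain ⟨x, hx⟩ : ∃ x, x = ‖ev a z (zi K r)‖ := ⟨_, rfl⟩
      have hxn : 0 ≤ x := by rw [hx]; exact norm_nonneg _
      rw [← hx] at ih ⊢
      have key : 2 * max S x - 4 * (√(max S x) * √x) ≤ 2 * S - 4 * (√S * √x) := by
        rcases le_total x S with h | h
        · rw [max_eq_left h]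
        · rw [max_eq_right h]
          nlinarith [sq_nonneg (√S - √x), Real.sq_sqrt hxn, Real.sq_sqrt hS0,
            Real.mul_self_sqrt hxn]
      have := mul_le_mul_of_nonneg_left key hc
      nlinarith [this, ih]
    have c1 : CS (fun z => c * (max S ‖ev a z (zi K r)‖ - S)
        + Phi (fun _ => c) lab (i+1) r (ev a z) (max S ‖ev a z (zi K r)‖)) :=
      ((continuous_const.mul ((max_cs a S).sub continuous_const)).add
        (Phi_integrand_cs _ lab i r a S)).continuousOn
    have c2 : CS (fun z => 4 * norm1 r (ev a z)) :=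
      (continuous_const.mul (norm1_cs a)).continuousOn
    have c3 : CS (fun z => 4 * √S * √‖ev a z (zi K r)‖) :=
      (continuous_const.mul (Real.continuous_sqrt.comp (ev_zi_continuous a).norm)).continuousOn
    have c4 : CS (fun z => S - 4 * √S * √‖ev a z (zi K r)‖) := continuousOn_const.sub c3
    have c5 : CS (fun z => 4 * norm1 r (ev a z) + (S - 4 * √S * √‖ev a z (zi K r)‖)) := c2.add c4
    have c6 : CS (fun z => c * (4 * norm1 r (ev a z) + (S - 4 * √S * √‖ev a z (zi K r)‖))) :=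
      continuousOn_const.mul c5
    have h1 := av_mono c1 c6 hpt
    rw [av_mul_left, av_add c2 c4, av_sub continuousOn_const c3, av_const, av_mul_left,
      av_mul_left] at h1
    have h2 := sqrt_submean a
    have h3 : Phi (fun _ => c) lab i (r+1) a S = av (fun z => c * (max S ‖ev a z (zi K r)‖ - S)
        + Phi (fun _ => c) lab (i+1) r (ev a z) (max S ‖ev a z (zi K r)‖)) := rfl
    rw [h3]
    refine h1.trans ?_
    apply mul_le_mul_of_nonneg_left _ hc
    have h4 : norm1 (r+1) a = av (fun z => norm1 r (ev a z)) := rfl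
    rw [h4]
    have h5 := mul_le_mul_of_nonneg_left h2 (Real.sqrt_nonneg S)
    linarith

lemma Phi_mono {w w' : ℕ → ℝ} (h : ∀ n, w n ≤ w' n) (lab : ℕ → ℕ) :
    ∀ (r i : ℕ) (a : Cv K r) (S : ℝ), Phi w lab i r a S ≤ Phi w' lab i r a S
  | 0, i, a, S => le_rfl
  | r+1, i, a, S => by
    have c1 : ∀ v : ℕ → ℝ, CS (fun z => v (lab i) * (max S ‖ev a z (zi K r)‖ - S)
        + Phi v lab (i+1) r (ev a z) (max S ‖ev a z (zi K r)‖)) := fun v =>
      ((continuous_const.mul ((max_cs a S).sub continuous_const)).add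
        (Phi_integrand_cs _ lab i r a S)).continuousOn
    apply av_mono (c1 w) (c1 w')
    intro z _
    have h1 := Phi_mono h lab r (i+1) (ev a z) (max S ‖ev a z (zi K r)‖)
    have h2 := le_max_left S ‖ev a z (zi K r)‖
    have h3 := mul_le_mul_of_nonneg_right (h (lab i)) (sub_nonneg.2 h2)
    linarith

lemma Phi_sum {ι : Type*} (s : Finset ι) (w : ι → ℕ → ℝ) (lab : ℕ → ℕ) :
    ∀ (r i : ℕ) (a : Cv K r) (S : ℝ), ∑ j ∈ s, Phi (w j) lab i r a S
      = Phi (fun n => ∑ j ∈ s, w j n) lab i r a S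
  | 0, i, a, S => by simp [Phi]
  | r+1, i, a, S => by
    have c1 : ∀ v : ℕ → ℝ, CS (fun z => v (lab i) * (max S ‖ev a z (zi K r)‖ - S)
        + Phi v lab (i+1) r (ev a z) (max S ‖ev a z (zi K r)‖)) := fun v =>
      ((continuous_const.mul ((max_cs a S).sub continuous_const)).add
        (Phi_integrand_cs _ lab i r a S)).continuousOn
    simp only [Phi]
    rw [← av_sum (fun j _ => c1 (w j))]
    apply av_congr
    intro z _
    rw [Finset.sum_add_distrib, Phi_sum s w lab r (i+1), Finset.sum_mul]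

theorem pairing_bound {lab : ℕ → ℕ} {δ : ℕ → ℝ} (hδ : ∀ i, 0 < δ i ∧ δ i ≤ 1)
    (hmono : Monotone lab) (hinc : ∀ i, lab (i+1) ≤ lab i + 1) (h0 : lab 0 = 0) {m : ℕ}
    (hm : m ≠ 0) {Wt : ℝ} (hW : ∀ n, ∑ ρ ∈ Finset.range n, wJ ρ ≤ Wt)
    (a : Cv K m) (y : ℕ → Cv K m) (hs : ∀ J ≤ lab (m-1), Supp lab J 0 m (y J))
    (hM : ∀ J ≤ lab (m-1), Mn lab δ J 0 m (y J) ≤ 1) :
    ∑ J ∈ Finset.range (lab (m-1) + 1), ‖pr a (y J)‖ ≤ 8 * Wt * norm1 m a := by
  obtain ⟨S, hS⟩ : ∃ S, S = ‖a (zi K m)‖ := ⟨_, rfl⟩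
  have hS0 : 0 ≤ S := by rw [hS]; exact norm_nonneg _
  have hWt0 : 0 ≤ Wt := by simpa using hW 0
  let w : ℕ → ℕ → ℝ := fun J s => if s ≤ J then wJ (J - s) else 0
  have hw : ∀ J s, 0 ≤ w J s := by
    intro J s
    simp only [w]
    split_ifs
    · exact (wJ_pos _).le
    · exact le_rfl
  have hterm : ∀ J ∈ Finset.range (lab (m-1) + 1),
      ‖pr a (y J)‖ ≤ 2 * (S * wJ J) + 2 * Phi (w J) lab 0 m a S := by
    intro J hJ
    have hJm : J ≤ lab (m-1) := by
      have := Finset.mem_range.1 hJ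
      omega
    have hnc : ¬ (m = 0 ∨ J < lab 0) := by
      rintro (h | h)
      · exact hm h
      · rw [h0] at h; exact absurd h (Nat.not_lt_zero J)
    have h1 := main_ind (K := K) hδ hmono hinc (m := m) (J := J) hJm (w := w J) (hw J)
      (fun s hs => by simp [w, hs]) m 0 (zero_add m) a (y J) S hS.ge (hs J hJm)
      (fun _ => lt_of_le_of_lt (hM J hJm) (one_lt_Bf _))
    have h2 : Gst lab δ J 0 m (y J) ≤ wJ J := by
      unfold Gst
      rw [if_neg hnc, h0, Nat.sub_zero]
      exact Gb_le_w (lt_of_le_of_lt (hM J hJm) (one_lt_Bf _))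
    have h3 := mul_le_mul_of_nonneg_left h2 hS0
    linarith
  have hsum := Finset.sum_le_sum hterm
  rw [Finset.sum_add_distrib, ← Finset.mul_sum, ← Finset.mul_sum, ← Finset.mul_sum, Phi_sum]
    at hsum
  have hwsum : ∀ s, ∑ J ∈ Finset.range (lab (m-1) + 1), w J s ≤ Wt := by
    intro s
    refine le_trans ?_ (hW (lab (m-1) + 1 - s))
    simp only [w]
    rw [← Finset.sum_filter]
    apply le_of_eq
    symm
    apply Finset.sum_bij (fun ρ _ => ρ + s)
    · intro ρ hρ
      simp only [Finset.mem_range, Finset.mem_filter] at hρ ⊢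
      omega
    · intro a₁ _ a₂ _ h
      omega
    · intro b hb
      simp only [Finset.mem_range, Finset.mem_filter] at hb
      exact ⟨b - s, by simp only [Finset.mem_range]; omega, by omega⟩
    · intro ρ _
      simp
  have h1 := Phi_mono (K := K) (w' := fun _ => Wt) hwsum lab m 0 a S
  have h2 := Phi_const_le (K := K) lab hWt0 m 0 a S hS.ge
  rw [← hS, Real.mul_self_sqrt hS0] at h2
  have h3 := hW (lab (m-1) + 1)
  have h4 := mul_le_mul_of_nonneg_left h3 hS0
  have h5 : 0 ≤ Wt * S := mul_nonneg hWt0 hS0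
  nlinarith [h1, h2, hsum, h4, h5]

end Pool.Agent.Helper22Hardy
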