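import Pool.Agent.Helper22_Hardy.Parseval

set_option autoImplicit false

open Complex Metric Real
open scoped ComplexConjugate

namespace Pool.Agent.Helper22Hardy

/-- The Moebius kernel. -/
lemma moebius (b : ℂ) : ∃ a : ℂ, ‖a‖ < 1 ∧
    (∀ z : ℂ, ‖z‖ ≤ 1 → ‖a * z / (1 + a * z)‖ ≤ 2 * ‖b‖) ∧
    (∀ z : ℂ, ‖z‖ = 1 → ‖1 + b * z - conj (a * z / (1 + a * z))‖ ^ 2 ≤ 1 + 2 * ‖b‖ ^ 2) := by
  obtain ⟨D, hD⟩ : ∃ D : ℝ, D = √(1 + 4 * ‖b‖ ^ 2) := ⟨_, rfl⟩
  have hD2 : D ^ 2 = 1 + 4 * ‖b‖ ^ 2 := by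
    rw [hD]; exact Real.sq_sqrt (by positivity)
  have hb0 : 0 ≤ ‖b‖ := norm_nonneg b
  have hD0 : 0 ≤ D := by rw [hD]; positivity
  have hD1 : 1 ≤ D := by nlinarith [sq_nonneg ‖b‖]
  have hDb : 2 * ‖b‖ < D := by nlinarith
  have hDb2 : D ≤ 1 + 2 * ‖b‖ ^ 2 := by nlinarith [sq_nonneg (‖b‖ ^ 2)]
  obtain ⟨a, ha⟩ : ∃ a : ℂ, a = 2 * b / (1 + D) := ⟨_, rfl⟩
  have hD1c : (1 + (D:ℂ)) ≠ 0 := by
    have : (1 + (D:ℂ)) = ((1 + D : ℝ) : ℂ) := by push_cast; ring
    rw [this]; exact_mod_cast (by positivity : (1 + D) ≠ 0)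
  have han : ‖a‖ = 2 * ‖b‖ / (1 + D) := by
    rw [ha, norm_div, norm_mul]
    have : (1 + (D:ℂ)) = ((1 + D : ℝ) : ℂ) := by push_cast; ring
    rw [this, Complex.norm_real, Real.norm_eq_abs, abs_of_pos (by positivity)]
    simp
  have ha1 : ‖a‖ < 1 := by
    rw [han, div_lt_one (by positivity)]
    linarith
  refine ⟨a, ha1, ?_, ?_⟩
  · intro z hz
    have h1 : ‖a * z‖ ≤ ‖a‖ := by
      rw [norm_mul]; exact mul_le_of_le_one_right (norm_nonneg a) hz
    have h2 : 1 - ‖a‖ ≤ ‖1 + a * z‖ := by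
      have : ‖(1:ℂ)‖ ≤ ‖1 + a * z‖ + ‖a * z‖ := by
        calc ‖(1:ℂ)‖ = ‖(1 + a * z) - a * z‖ := by ring_nf
          _ ≤ _ := norm_sub_le _ _
      simp only [norm_one] at this
      linarith
    have h3 : 0 < 1 - ‖a‖ := by linarith
    rw [norm_div, div_le_iff₀ (lt_of_lt_of_le h3 h2)]
    calc ‖a * z‖ ≤ ‖a‖ := h1
      _ ≤ 2 * ‖b‖ * (1 - ‖a‖) := by
        rw [han]
        have hp : 0 < 1 + D := by positivity
        rw [div_le_iff₀ hp]
        have : 2 * ‖b‖ * (1 - 2 * ‖b‖ / (1 + D)) * (1 + D) = 2 * ‖b‖ * (1 + D - 2 * ‖b‖) := by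
          field_simp
        rw [this]
        nlinarith
      _ ≤ 2 * ‖b‖ * ‖1 + a * z‖ := by
        apply mul_le_mul_of_nonneg_left h2; positivity
  · intro z hz
    have hw : ‖a * z‖ < 1 := by rw [norm_mul, hz, mul_one]; exact ha1
    have hw1 : 1 + a * z ≠ 0 := by
      intro h
      have : a * z = -1 := by linear_combination h
      rw [this] at hw; simp at hw
    have hw2 : 1 + conj (a * z) ≠ 0 := by
      intro h
      apply hw1
      have := congrArg conj h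
      simpa using this
    -- s a = b, 1 + s |a|^2 = s
    have hs1 : ((1 + D) / 2 : ℂ) * a = b := by
      rw [ha]; field_simp
    have hna : (‖a‖:ℂ) ^ 2 = (4 * ‖b‖ ^ 2) / (1 + D) ^ 2 := by
      rw [han]; push_cast; field_simp; ring
    have hs2 : 1 + ((1 + D) / 2 : ℂ) * (‖a‖:ℂ) ^ 2 = (1 + D) / 2 := by
      rw [hna]
      have : (D:ℂ) ^ 2 = 1 + 4 * (‖b‖:ℂ) ^ 2 := by exact_mod_cast hD2
      field_simp
      linear_combination -this
    have hzz : z * conj z = 1 := by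
      rw [Complex.mul_conj, Complex.normSq_eq_norm_sq, hz]; simp
    have haa : a * conj a = (‖a‖:ℂ) ^ 2 := by
      rw [Complex.mul_conj, Complex.normSq_eq_norm_sq]; simp
    have key : 1 + b * z - conj (a * z / (1 + a * z))
        = ((1 + D) / 2 : ℂ) * ((1 + a * z) / (1 + conj (a * z))) := by
      have e1 : conj (a * z / (1 + a * z)) = conj (a * z) / (1 + conj (a * z)) := by
        simp [map_div₀]
      rw [e1]
      have hc : conj (a * z) = conj a * conj z := by simp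
      have hx : a * z * conj (a * z) = (‖a‖:ℂ) ^ 2 := by
        rw [hc]
        calc a * z * (conj a * conj z) = (a * conj a) * (z * conj z) := by ring
          _ = _ := by rw [haa, hzz, mul_one]
      obtain ⟨W, hW⟩ : ∃ W : ℂ, W = conj (a * z) := ⟨_, rfl⟩
      rw [← hW] at hx hw2 ⊢
      have e5 : 1 + b * z - W / (1 + W) = ((1 + b * z) * (1 + W) - W) / (1 + W) := by
        field_simp
      rw [e5, ← mul_div_assoc]
      congr 1
      rw [← hs1]
      linear_combination ((1 + D) / 2 : ℂ) * hx + hs2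
    rw [key, norm_mul]
    have e2 : ‖1 + conj (a * z)‖ = ‖1 + a * z‖ := by
      have : 1 + conj (a * z) = conj (1 + a * z) := by simp
      rw [this, RCLike.norm_conj]
    rw [norm_div (1 + a * z), e2, div_self (norm_ne_zero_iff.mpr hw1), mul_one]
    have e3 : ‖((1 + D) / 2 : ℂ)‖ = (1 + D) / 2 := by
      have : ((1 + D) / 2 : ℂ) = (((1 + D) / 2 : ℝ) : ℂ) := by push_cast; ring
      rw [this, Complex.norm_real, Real.norm_eq_abs, abs_of_pos (by positivity)]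
    rw [e3]
    nlinarith

lemma norm_sq_add_sub_conj (g q : ℂ) :
    ‖g + (q - conj q)‖ ^ 2 = ‖g‖ ^ 2 + 4 * q.im ^ 2 + 4 * q.im * g.im := by
  rw [← Complex.normSq_eq_norm_sq, ← Complex.normSq_eq_norm_sq, Complex.normSq_apply,
    Complex.normSq_apply]
  simp
  ring

end Pool.Agent.Helper22Hardy
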