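import Pool.Agent.Helper22_Hardy.Weights
import Pool.Agent.Common_Mertens.Mertens

set_option autoImplicit false

open Complex Metric Real
open scoped ComplexConjugate

namespace Pool.Agent.Helper22Hardy

variable {K : ℕ}

lemma P_strictMono : StrictMono P := Nat.nth_strictMono Nat.infinite_setOfPred_prime

lemma P_inj : Function.Injective P := P_strictMono.injective

lemma T_le_sum (i : ℕ) : T (i+1) ≤ ∑ p ∈ Nat.primesLE (P i), (1:ℝ) / p := by
  unfold T
  rw [← Finset.sum_image (f := fun p : ℕ => (1:ℝ) / p) (g := P) (fun a _ b _ h => P_inj h)]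
  apply Finset.sum_le_sum_of_subset_of_nonneg
  · intro p hp
    obtain ⟨l, hl, rfl⟩ := Finset.mem_image.1 hp
    rw [Nat.mem_primesLE]
    refine ⟨P_strictMono.monotone ?_, P_prime l⟩
    have := Finset.mem_range.1 hl
    omega
  · intro p _ _
    positivity

/-- lower bound for the logarithm of the i-th prime -/
lemma log_P_ge : ∃ c : ℝ, 0 < c ∧ ∀ i, c * rexp (lab i) ≤ Real.log (P i) := by
  obtain ⟨C, hC⟩ := Pool.Agent.Common_Mertens.sum_inv_le
  refine ⟨rexp (-C) / 2, by positivity, fun i => ?_⟩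
  have hP := P_ge_two i
  have h1 : (lab i : ℝ) ≤ T (i+1) := Nat.floor_le (T_nonneg _)
  have h2 : T (i+1) ≤ Real.log (Real.log ((P i : ℝ) + 1)) + C :=
    (T_le_sum i).trans (hC (P i) (P_prime i).one_lt.le)
  have hlog : 0 < Real.log ((P i : ℝ) + 1) := Real.log_pos (by linarith)
  have h3 : rexp (lab i) ≤ Real.log ((P i : ℝ) + 1) * rexp C := by
    calc rexp (lab i) ≤ rexp (Real.log (Real.log ((P i : ℝ) + 1)) + C) :=
          Real.exp_le_exp.2 (h1.trans h2)
      _ = _ := by rw [Real.exp_add, Real.exp_log hlog]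
  have h4 : Real.log ((P i : ℝ) + 1) ≤ 2 * Real.log (P i) := by
    have : (2:ℝ) * Real.log (P i) = Real.log ((P i : ℝ) ^ 2) := by
      rw [Real.log_pow]; norm_num
    rw [this]
    apply Real.log_le_log (by linarith)
    nlinarith
  calc rexp (-C) / 2 * rexp (lab i) ≤ rexp (-C) / 2 * (2 * Real.log (P i) * rexp C) := by
        apply mul_le_mul_of_nonneg_left _ (by positivity)
        exact h3.trans (mul_le_mul_of_nonneg_right h4 (exp_pos _).le)
    _ = (rexp (-C) * rexp C) * Real.log (P i) := by ring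
    _ = Real.log (P i) := by rw [← Real.exp_add]; simp

/-- the integer attached to a multi-exponent -/
noncomputable def val (K : ℕ) : (i r : ℕ) → Idx K r → ℕ
  | _, 0 => fun _ => 1
  | i, (r+1) => fun (ν : Fin (K+2) × Idx K r) => P i ^ (ν.1:ℕ) * val K (i+1) r ν.2

lemma val_succ (i r : ℕ) (k : Fin (K+2)) (μ : Idx K r) :
    val K i (r+1) ((k, μ) : Fin (K+2) × Idx K r) = P i ^ (k:ℕ) * val K (i+1) r μ := rfl

lemma val_pos : ∀ (r i : ℕ) (ν : Idx K r), 0 < val K i r ν
  | 0, i, ν => Nat.one_pos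
  | r+1, i, ν => by
    obtain ⟨k, μ⟩ := (ν : Fin (K+2) × Idx K r)
    exact Nat.mul_pos (pow_pos (P_prime i).pos _) (val_pos r (i+1) μ)

lemma val_coprime : ∀ (r i l : ℕ) (_ : l < i) (ν : Idx K r), Nat.Coprime (P l) (val K i r ν)
  | 0, i, l, _, ν => Nat.coprime_one_right _
  | r+1, i, l, h, ν => by
    obtain ⟨k, μ⟩ := (ν : Fin (K+2) × Idx K r)
    apply Nat.Coprime.mul_right
    · apply Nat.Coprime.pow_right
      rw [Nat.coprime_primes (P_prime l) (P_prime i)]
      intro h2
      have := P_inj h2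
      omega
    · exact val_coprime r (i+1) l (by omega) μ

lemma val_inj : ∀ (r i : ℕ) (ν ν' : Idx K r), val K i r ν = val K i r ν' → ν = ν'
  | 0, i, ν, ν', _ => Subsingleton.elim (α := Unit) ν ν'
  | r+1, i, ν, ν', h => by
    obtain ⟨k, μ⟩ := (ν : Fin (K+2) × Idx K r)
    obtain ⟨k', μ'⟩ := (ν' : Fin (K+2) × Idx K r)
    have h1 : P i ^ (k:ℕ) * val K (i+1) r μ = P i ^ (k':ℕ) * val K (i+1) r μ' := h
    have c1 := val_coprime (K := K) r (i+1) i (Nat.lt_succ_self i) μ
    have c2 := val_coprime (K := K) r (i+1) i (Nat.lt_succ_self i) μ'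
    have hpos : ∀ n, 0 < P i ^ n := fun n => pow_pos (P_prime i).pos n
    have key : ∀ (a b u v : ℕ), Nat.Coprime (P i) u → Nat.Coprime (P i) v →
        P i ^ a * u = P i ^ b * v → a ≤ b → a = b ∧ u = v := by
      intro a b u v hu _ he hab
      obtain ⟨d, rfl⟩ := Nat.exists_eq_add_of_le hab
      rw [pow_add, mul_assoc] at he
      have he2 := Nat.eq_of_mul_eq_mul_left (hpos a) he
      rcases Nat.eq_zero_or_pos d with hd | hd
      · subst hd
        simpa using he2
      · exfalso
        have : P i ∣ u := by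
          rw [he2]
          exact Dvd.dvd.mul_right (dvd_pow_self _ (by omega)) _
        have h3 := Nat.Coprime.eq_one_of_dvd hu this
        exact (P_prime i).one_lt.ne' h3
    have h2 : (k:ℕ) = k' ∧ val K (i+1) r μ = val K (i+1) r μ' := by
      rcases le_total (k:ℕ) k' with hle | hle
      · exact key _ _ _ _ c1 c2 h1 hle
      · have := key _ _ _ _ c2 c1 h1.symm hle
        exact ⟨this.1.symm, this.2.symm⟩
    have h3 : k = k' := Fin.ext h2.1
    have h4 : μ = μ' := val_inj r (i+1) μ μ' h2.2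
    subst h3
    subst h4
    rfl

lemma val_surj : ∀ (r i n : ℕ), 0 < n → n < 2 ^ (K+2) →
    (∀ p, p.Prime → p ∣ n → ∃ j < r, p = P (i+j)) → ∃ ν : Idx K r, val K i r ν = n
  | 0, i, n, hn, _, h => by
    refine ⟨(), ?_⟩
    by_contra hne
    have hn1 : n ≠ 1 := fun h1 => hne (by rw [h1]; rfl)
    obtain ⟨p, hp, hpn⟩ := Nat.exists_prime_and_dvd hn1
    obtain ⟨j, hj, _⟩ := h p hp hpn
    exact absurd hj (Nat.not_lt_zero j)
  | r+1, i, n, hn, hlt, h => by
    obtain ⟨k, hk⟩ : ∃ k, k = n.factorization (P i) := ⟨_, rfl⟩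
    obtain ⟨n', hn'⟩ : ∃ n', n' = n / P i ^ n.factorization (P i) := ⟨_, rfl⟩
    have hmul : P i ^ k * n' = n := by
      rw [hk, hn']
      exact Nat.ordProj_mul_ordCompl_eq_self n (P i)
    have hnd : ¬ P i ∣ n' := by
      rw [hn']
      exact Nat.not_dvd_ordCompl (P_prime i) hn.ne'
    have hn'pos : 0 < n' := by
      rcases Nat.eq_zero_or_pos n' with h0 | h0
      · rw [h0, mul_zero] at hmul; omega
      · exact h0
    have hpk : P i ^ k ≤ n := by
      calc P i ^ k = P i ^ k * 1 := (mul_one _).symm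
        _ ≤ P i ^ k * n' := Nat.mul_le_mul_left _ hn'pos
        _ = n := hmul
    have hn'le : n' ≤ n := by
      have hpp : 0 < P i ^ k := pow_pos (P_prime i).pos k
      calc n' = 1 * n' := (one_mul _).symm
        _ ≤ P i ^ k * n' := Nat.mul_le_mul_right _ hpp
        _ = n := hmul
    have hkK : k < K+2 := by
      by_contra hge
      have h1 : 2 ^ (K+2) ≤ 2 ^ k := Nat.pow_le_pow_right (by norm_num) (not_lt.1 hge)
      have h2 : 2 ^ k ≤ P i ^ k := Nat.pow_le_pow_left (P_prime i).two_le k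
      omega
    obtain ⟨μ, hμ⟩ := val_surj r (i+1) n' hn'pos (by omega) (by
      intro p hp hpn
      have hpn2 : p ∣ n := by
        rw [← hmul]
        exact Dvd.dvd.mul_left hpn _
      obtain ⟨j, hj, hpj⟩ := h p hp hpn2
      rcases Nat.eq_zero_or_pos j with h0 | h0
      · exfalso
        apply hnd
        rw [h0, add_zero] at hpj
        rw [← hpj]
        exact hpn
      · exact ⟨j - 1, by omega, by rw [hpj]; congr 1; omega⟩)
    refine ⟨((⟨k, hkK⟩, μ) : Fin (K+2) × Idx K r), ?_⟩
    rw [val_succ, hμ]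
    exact hmul

lemma P_index {p N : ℕ} (hp : p.Prime) (hpN : p ≤ N) : ∃ j < N, p = P (0 + j) := by
  refine ⟨Nat.count Nat.Prime p, ?_, ?_⟩
  · have h1 : P (Nat.count Nat.Prime p) = p := Nat.nth_count hp
    have h2 := P_ge (Nat.count Nat.Prime p)
    omega
  · rw [zero_add]
    exact (Nat.nth_count hp).symm

lemma log_indep {r : ℕ} (n : Fin r → ℤ) (h : ∑ j, (n j : ℝ) * Real.log (P j) = 0) : n = 0 := by
  have h1 : ∑ j, ((n j).toNat : ℝ) * Real.log (P j) = ∑ j, ((-n j).toNat : ℝ) * Real.log (P j) := by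
    rw [← sub_eq_zero, ← Finset.sum_sub_distrib, ← h]
    apply Finset.sum_congr rfl
    intro j _
    have e : ((n j : ℤ) : ℝ) = ((n j).toNat : ℝ) - ((-n j).toNat : ℝ) := by
      have := Int.toNat_sub_toNat_neg (n j)
      rw [← this]
      push_cast
      simp
    rw [e]; ring
  have h2 : ∀ a : Fin r → ℕ, Real.log ((∏ j : Fin r, P j ^ a j : ℕ) : ℝ) = ∑ j, (a j : ℝ) * Real.log (P j) := by
    intro a
    rw [Nat.cast_prod, Real.log_prod]
    · apply Finset.sum_congr rfl
      intro j _
      rw [Nat.cast_pow, Real.log_pow]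
    · intro j _
      have := (P_prime j).pos
      positivity
  have hpos : ∀ a : Fin r → ℕ, (0:ℝ) < ((∏ j : Fin r, P j ^ a j : ℕ) : ℝ) := by
    intro a
    have : 0 < ∏ j : Fin r, P j ^ a j := Finset.prod_pos (fun j _ => pow_pos (P_prime j).pos _)
    exact_mod_cast this
  have h3 : (∏ j : Fin r, P j ^ (n j).toNat : ℕ) = ∏ j : Fin r, P j ^ (-n j).toNat := by
    have h4 : Real.log ((∏ j : Fin r, P j ^ (n j).toNat : ℕ) : ℝ)
        = Real.log ((∏ j : Fin r, P j ^ (-n j).toNat : ℕ) : ℝ) := by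
      rw [h2, h2]; exact h1
    have h5 := Real.log_injOn_pos (Set.mem_Ioi.2 (hpos _)) (Set.mem_Ioi.2 (hpos _)) h4
    exact_mod_cast h5
  have h6 : ∀ (a : Fin r → ℕ) (l : Fin r), (∏ j : Fin r, P j ^ a j : ℕ).factorization (P l) = a l := by
    intro a l
    rw [Nat.factorization_prod (fun (j : Fin r) _ => pow_ne_zero (a j) (P_prime (j:ℕ)).pos.ne'),
      Finsupp.finsetSum_apply, Finset.sum_eq_single l]
    · rw [(P_prime l).factorization_pow]
      simp
    · intro j _ hj
      rw [(P_prime j).factorization_pow, Finsupp.single_apply, if_neg]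
      intro h7
      exact hj (Fin.ext (P_inj h7))
    · simp
  funext l
  have h7 := h6 (fun j => (n j).toNat) l
  have h8 := h6 (fun j => (-n j).toNat) l
  rw [h3] at h7
  have h9 : (n l).toNat = (-n l).toNat := h7.symm.trans h8
  have : n l = 0 := by omega
  simpa using this

/-- label of the top prime (maximum of labels of the primes with positive exponent) -/
noncomputable def tl (K : ℕ) : (i r : ℕ) → Idx K r → ℕ
  | _, 0 => fun _ => 0
  | i, (r+1) => fun (ν : Fin (K+2) × Idx K r) =>
      max (if ν.1 = 0 then 0 else lab i) (tl K (i+1) r ν.2)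

lemma tl_succ (i r : ℕ) (k : Fin (K+2)) (μ : Idx K r) :
    tl K i (r+1) ((k, μ) : Fin (K+2) × Idx K r) = max (if k = 0 then 0 else lab i) (tl K (i+1) r μ) :=
  rfl

lemma tl_le : ∀ (r i : ℕ) (ν : Idx K r), tl K i r ν ≤ lab (i + r - 1)
  | 0, i, ν => Nat.zero_le _
  | r+1, i, ν => by
    obtain ⟨k, μ⟩ := (ν : Fin (K+2) × Idx K r)
    have h1 := tl_le r (i+1) μ
    have h2 : tl K i (r+1) ((k, μ) : Fin (K+2) × Idx K r)
      = max (if k = 0 then 0 else lab i) (tl K (i+1) r μ) := rfl
    have h3 : (i + 1) + r - 1 = i + (r+1) - 1 := by omega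
    rw [h3] at h1
    have h4 : (if k = 0 then 0 else lab i) ≤ lab (i + (r+1) - 1) := by
      split_ifs
      · exact Nat.zero_le _
      · exact lab_mono (by omega)
    calc _ = max (if k = 0 then 0 else lab i) (tl K (i+1) r μ) := h2
      _ ≤ _ := max_le h4 h1

lemma uj_eq (J : ℕ) : ∀ (r i : ℕ) (ν : Idx K r), tl K i r ν ≤ J →
    uj K J i r ν = 1 / (val K i r ν : ℝ)
  | 0, i, ν, _ => by simp [uj, val]
  | r+1, i, ν, h => by
    obtain ⟨k, μ⟩ := (ν : Fin (K+2) × Idx K r)
    have h2 : max (if k = 0 then 0 else lab i) (tl K (i+1) r μ) ≤ J := h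
    have h3 := uj_eq J r (i+1) μ ((le_max_right _ _).trans h2)
    have h4 := (le_max_left _ _).trans h2
    have h5 : ¬ (J < lab i ∧ k ≠ 0) := by
      rintro ⟨h6, h7⟩
      rw [if_neg h7] at h4
      omega
    have e : uj K J i (r+1) ((k, μ) : Fin (K+2) × Idx K r)
      = 1 / (val K i (r+1) ((k, μ) : Fin (K+2) × Idx K r) : ℝ) := by
      rw [uj_succ, val_succ, if_neg h5, h3]
      push_cast
      rw [one_div_pow]
      have hp : (0:ℝ) < P i := P_pos i
      have hv : (0:ℝ) < val K (i+1) r μ := by exact_mod_cast val_pos r (i+1) μ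
      field_simp
    exact e

lemma Supp_of_tl (J : ℕ) : ∀ (r i : ℕ) (η : Cv K r), (∀ ν, η ν ≠ 0 → tl K i r ν ≤ J) →
    Supp lab J i r η
  | 0, i, η, _ => trivial
  | r+1, i, η, h => by
    refine ⟨fun hJ k hk => ?_, fun k => ?_⟩
    · funext μ
      by_contra hne
      have h1 : tl K i (r+1) ((k, μ) : Fin (K+2) × Idx K r) ≤ J := h _ hne
      rw [tl_succ, if_neg hk] at h1
      have := (le_max_left _ _).trans h1
      omega
    · apply Supp_of_tl J r (i+1)
      intro μ hμ
      have h1 : tl K i (r+1) ((k, μ) : Fin (K+2) × Idx K r) ≤ J := h _ hμ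
      rw [tl_succ] at h1
      exact (le_max_right _ _).trans h1

lemma log_val_nonneg (r i : ℕ) (ν : Idx K r) : 0 ≤ Real.log (val K i r ν) :=
  Real.log_nonneg (by exact_mod_cast val_pos r i ν)

lemma val_zi : ∀ (r i : ℕ), val K i r (zi K r) = 1
  | 0, i => rfl
  | r+1, i => by
    have : val K i (r+1) (zi K (r+1)) = P i ^ ((0 : Fin (K+2)) : ℕ) * val K (i+1) r (zi K r) := rfl
    rw [this, val_zi r (i+1)]
    simp

lemma log_val_ge {c : ℝ} (hc : 0 < c) (hP : ∀ i, c * rexp (lab i) ≤ Real.log (P i)) :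
    ∀ (r i : ℕ) (ν : Idx K r), ν ≠ zi K r → c * rexp (tl K i r ν) ≤ Real.log (val K i r ν)
  | 0, i, ν, h => absurd (Subsingleton.elim (α := Unit) ν (zi K 0)) h
  | r+1, i, ν, h => by
    obtain ⟨k, μ⟩ := (ν : Fin (K+2) × Idx K r)
    have goal : c * rexp (tl K i (r+1) ((k, μ) : Fin (K+2) × Idx K r))
        ≤ Real.log (val K i (r+1) ((k, μ) : Fin (K+2) × Idx K r)) := by
      rw [tl_succ, val_succ]
      have hv : (0:ℝ) < val K (i+1) r μ := by exact_mod_cast val_pos r (i+1) μ
      have hp : (0:ℝ) < P i := P_pos i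
      push_cast
      rw [Real.log_mul (by positivity) hv.ne', Real.log_pow]
      have hl := log_val_nonneg (K := K) r (i+1) μ
      by_cases hk : k = 0
      · subst hk
        have hμ : μ ≠ zi K r := by
          rintro rfl
          exact h rfl
        have h1 := log_val_ge hc hP r (i+1) μ hμ
        simpa using h1
      · rw [if_neg hk]
        have hk1 : (1:ℝ) ≤ ((k:ℕ):ℝ) := by
          have : 1 ≤ (k:ℕ) := by
            rcases Nat.eq_zero_or_pos (k:ℕ) with h0 | h0
            · exact absurd (Fin.ext h0) hk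
            · exact h0
          exact_mod_cast this
        have hlp : 0 ≤ Real.log (P i) := Real.log_nonneg (by linarith [P_ge_two i])
        have h2 : Real.log (P i) ≤ ((k:ℕ):ℝ) * Real.log (P i) := by nlinarith
        have h3 := hP i
        rcases le_total (tl K (i+1) r μ) (lab i) with hle | hle
        · have hle' : ((tl K (i+1) r μ : ℕ) : ℝ) ≤ (lab i : ℝ) := by exact_mod_cast hle
          rw [max_eq_left hle']
          linarith
        · have hle' : (lab i : ℝ) ≤ ((tl K (i+1) r μ : ℕ) : ℝ) := by exact_mod_cast hle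
          rw [max_eq_right hle']
          by_cases hμ : μ = zi K r
          · have : tl K (i+1) r μ ≤ lab i ∨ True := Or.inr trivial
            have h0 : ∀ (r i : ℕ), tl K i r (zi K r) = 0 := by
              intro r
              induction r with
              | zero => intro i; rfl
              | succ r ih =>
                intro i
                have e : tl K i (r+1) (zi K (r+1))
                  = max (if (0 : Fin (K+2)) = 0 then 0 else lab i) (tl K (i+1) r (zi K r)) := rfl
                rw [e, ih]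
                simp
            have h5 : rexp ((tl K (i+1) r μ : ℕ) : ℝ) ≤ rexp (lab i) := by
              rw [hμ, h0]
              apply Real.exp_le_exp.2
              exact_mod_cast Nat.zero_le _
            have h6 := mul_le_mul_of_nonneg_left h5 hc.le
            linarith
          · have h1 := log_val_ge hc hP r (i+1) μ hμ
            linarith
    exact goal

end Pool.Agent.Helper22Hardy
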