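import Pool.Agent.Helper22_Hardy.Logistic

set_option autoImplicit false

open Complex Metric Real
open scoped ComplexConjugate

namespace Pool.Agent.Helper22Hardy

variable {E : Type*} [NormedAddCommGroup E] [InnerProductSpace ℂ E]
variable {F : Type*} [NormedAddCommGroup F] [InnerProductSpace ℂ F]

/-- arithmetic facts in the case `(α + β + ρ)^2 > M` -/
lemma caseI_arith {α β ρ δ M : ℝ} (hα : 0 ≤ α) (hβ : 0 ≤ β) (hρ : 0 ≤ ρ) (hδ : 0 < δ)
    (hδ1 : δ ≤ 1)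
    (hM : α ^ 2 + (2 + δ) * β ^ 2 + (48 / δ) * ρ ^ 2 ≤ M) (hI : M < (α + β + ρ) ^ 2) :
    0 < α ∧ M ≤ 16 * α ^ 2 ∧ β + ρ ≤ 3 * α ∧ (α + β + ρ) ^ 2 ≤ 2 * M := by
  have h1 : 48 * ρ ^ 2 ≤ (48 / δ) * ρ ^ 2 := by
    have : (48:ℝ) ≤ 48 / δ := by rw [le_div_iff₀ hδ]; linarith
    nlinarith [sq_nonneg ρ]
  have h2 : α ^ 2 + 2 * β ^ 2 + 48 * ρ ^ 2 ≤ M := by
    have : 0 ≤ δ * β ^ 2 := by positivity
    linarith
  have h3 : (α + β + ρ) ^ 2 ≤ 4 * α ^ 2 + (3 / 2) * β ^ 2 + 12 * ρ ^ 2 := by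
    nlinarith [sq_nonneg (3 * α - 3 / 2 * β), sq_nonneg (α - 4 * ρ), sq_nonneg (β - 6 * ρ),
      sq_nonneg (2 * α - β), sq_nonneg (α - 3 * ρ), sq_nonneg (β - 8 * ρ), sq_nonneg (α - 2 * ρ)]
  have h4 : (1 / 2) * β ^ 2 + 36 * ρ ^ 2 < 3 * α ^ 2 := by linarith
  have hα0 : 0 < α := by
    rcases hα.lt_or_eq with h | h
    · exact h
    · rw [← h] at h4
      nlinarith [sq_nonneg β, sq_nonneg ρ]
  refine ⟨hα0, by nlinarith, ?_, ?_⟩
  · apply le_of_sq_le_sq _ (by positivity)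
    nlinarith [sq_nonneg (β - 6 * ρ)]
  · nlinarith [sq_nonneg (α - 2 * β), sq_nonneg (α - 48 * ρ), sq_nonneg (2 * β - 48 * ρ),
      sq_nonneg (α - β), sq_nonneg (α - ρ), sq_nonneg (β - ρ), sq_nonneg ρ]

set_option maxHeartbeats 4000000 in
theorem one_step (e : ℕ → E) (f : ℕ → F) (K : ℕ) (δ M B : ℝ) (hδ : 0 < δ) (hδ1 : δ ≤ 1)
    (hM0 : 0 < M)
    (hM : ‖e 0‖ ^ 2 + (2 + δ) * ‖e 1‖ ^ 2 + (48 / δ) * rho e K ^ 2 ≤ M) (hMB : M < B) :
    ∃ (h : ℂ → ℂ) (d : ℝ), 0 ≤ d ∧ DiffContOnCl ℂ h (ball 0 1) ∧ h 0 = 0 ∧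
      (∀ z ∈ sphere (0:ℂ) 1, ‖vp e (K+2) z + conj (h z) • e 0‖ ^ 2 < B) ∧
      av (fun z => ‖vp e (K+2) z + conj (h z) • e 0‖ ^ 2 /
        (B - ‖vp e (K+2) z + conj (h z) • e 0‖ ^ 2)) ≤ M / (B - M) * (1 - k0 * d / 2) ∧
      av (fun z => ‖vp f (K+2) z + conj (h z) • f 0‖ ^ 2)
        ≤ (∑ k ∈ Finset.range (K+2), ‖f k‖ ^ 2) * (1 + 128 * d) ∧
      (∀ B' ≥ B, av (fun z => 1 / (B' - ‖vp e (K+2) z + conj (h z) • e 0‖ ^ 2))
        ≤ 1 / (B' - M)) := by
  have hBM : 0 < B - M := by linarith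
  have hρ := rho_nonneg e K
  by_cases hcase : (‖e 0‖ + ‖e 1‖ + rho e K) ^ 2 ≤ M
  · -- Case II
    have hle : ∀ z ∈ sphere (0:ℂ) 1, ‖vp e (K+2) z + conj ((fun _ => (0:ℂ)) z) • e 0‖ ^ 2 ≤ M := by
      intro z hz
      have hz1 : ‖z‖ = 1 := by simpa using hz
      simp only [map_zero, zero_smul, add_zero]
      exact (pow_le_pow_left₀ (norm_nonneg _) (norm_vp_le e K hz1) 2).trans hcase
    have hcont : CS (fun z => ‖vp e (K+2) z + conj ((fun _ => (0:ℂ)) z) • e 0‖ ^ 2) := by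
      have := vp_continuous e (K+2)
      apply Continuous.continuousOn
      fun_prop
    refine ⟨fun _ => 0, 0, le_rfl, diffContOnCl_const, rfl, ?_, ?_, ?_, ?_⟩
    · intro z hz
      exact (hle z hz).trans_lt hMB
    · apply av_le_of_le
      · apply ContinuousOn.div hcont (continuousOn_const.sub hcont)
        intro z hz
        have := hle z hz
        refine ne_of_gt (?_ : (0:ℝ) < B - ‖vp e (K+2) z + conj ((fun _ => (0:ℂ)) z) • e 0‖ ^ 2)
        linarith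
      · intro z hz
        have := hle z hz
        rw [mul_zero, zero_div, sub_zero, mul_one]
        rw [div_le_div_iff₀ (by linarith) hBM]
        nlinarith
    · rw [parseval_conj diffContOnCl_const rfl]
      simp [av_const]
    · intro B' hB'
      apply av_le_of_le
      · apply ContinuousOn.div continuousOn_const (continuousOn_const.sub hcont)
        intro z hz
        have := hle z hz
        refine ne_of_gt (?_ : (0:ℝ) < B' - ‖vp e (K+2) z + conj ((fun _ => (0:ℂ)) z) • e 0‖ ^ 2)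
        linarith
      · intro z hz
        have := hle z hz
        exact one_div_le_one_div_of_le (by linarith) (by linarith)
  · -- Case I
    push Not at hcase
    obtain ⟨hα0, hMα, hβρ, h2M⟩ := caseI_arith (norm_nonneg (e 0)) (norm_nonneg (e 1)) hρ hδ hδ1
      hM hcase
    obtain ⟨H, hH1, hH0, hH2, hH3⟩ := geom e K δ hδ hδ1 hα0
    obtain ⟨Sg, hSg⟩ : ∃ Sg : ℝ, Sg = ∑ k ∈ Finset.range (K+2), ‖e k‖ ^ 2 := ⟨_, rfl⟩
    obtain ⟨S1, hS1⟩ : ∃ S1 : ℝ, S1 = ∑ k ∈ Finset.range (K+1), ‖e (k+1)‖ ^ 2 := ⟨_, rfl⟩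
    have hSgS1 : Sg = S1 + ‖e 0‖ ^ 2 := by
      rw [hSg, hS1, Finset.sum_range_succ']
    have hS2 : ∑ k ∈ Finset.range K, ‖e (k+2)‖ ^ 2 ≤ rho e K ^ 2 := by
      unfold rho
      exact Finset.sum_sq_le_sq_sum_of_nonneg (fun i _ => norm_nonneg _)
    have hS1' : S1 ≤ ‖e 1‖ ^ 2 + rho e K ^ 2 := by
      rw [hS1, Finset.sum_range_succ']
      simp only [zero_add]
      have : ∀ k, k + 1 + 1 = k + 2 := fun k => rfl
      simp only [this]
      linarith
    have hδρ : 48 * rho e K ^ 2 ≤ (48 / δ) * rho e K ^ 2 := by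
      have : (48:ℝ) ≤ 48 / δ := by rw [le_div_iff₀ hδ]; linarith
      nlinarith [sq_nonneg (rho e K)]
    have hδe : 0 ≤ δ * ‖e 1‖ ^ 2 := by positivity
    obtain ⟨d, hd⟩ : ∃ d : ℝ, d = 1 - Sg / M := ⟨_, rfl⟩
    have hdM : d * M = M - Sg := by rw [hd]; field_simp
    have hdM1 : ‖e 1‖ ^ 2 + rho e K ^ 2 ≤ d * M := by
      rw [hdM, hSgS1]
      nlinarith [sq_nonneg (rho e K)]
    have hd0 : 0 ≤ d := by
      by_contra hneg
      push Not at hneg
      have : d * M < 0 := mul_neg_of_neg_of_pos hneg hM0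
      nlinarith [sq_nonneg ‖e 1‖, sq_nonneg (rho e K)]
    obtain ⟨κ, hκ⟩ : ∃ κ : ℝ, κ = k0 * ((B - M) / B) := ⟨_, rfl⟩
    have hB : 0 < B := hM0.trans hMB
    have hκ0 : 0 ≤ κ := by rw [hκ]; have := k0_pos; positivity
    have hκ1 : κ ≤ 1 := by
      rw [hκ]
      have h1 : (B - M) / B ≤ 1 := by rw [div_le_one hB]; linarith
      have h2 : k0 ≤ 1 := by unfold k0; norm_num
      have h3 : 0 ≤ (B - M) / B := by positivity
      have := k0_pos
      nlinarith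
    obtain ⟨ξ, hξ⟩ : ∃ ξ : ℂ → ℝ, ξ = fun z => ‖vp e (K+2) z‖ ^ 2 / M - 1 := ⟨_, rfl⟩
    have hξz : ∀ z, ξ z = ‖vp e (K+2) z‖ ^ 2 / M - 1 := fun z => by rw [hξ]
    have hvc := vp_continuous e (K+2)
    have hHc : CS H := DiffContOnCl.cs hH1
    have hξc : CS ξ := by
      rw [hξ]
      apply Continuous.continuousOn
      fun_prop
    have hP : ∀ z ∈ sphere (0:ℂ) 1, ‖vp e (K+2) z‖ ≤ ‖e 0‖ + ‖e 1‖ + rho e K := by
      intro z hz
      exact norm_vp_le e K (by simpa using hz)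
    have hξ1 : ∀ z ∈ sphere (0:ℂ) 1, |ξ z| ≤ 1 := by
      intro z hz
      rw [hξz, abs_le]
      have h1 : 0 ≤ ‖vp e (K+2) z‖ ^ 2 / M := by positivity
      have h2 : ‖vp e (K+2) z‖ ^ 2 / M ≤ 2 := by
        rw [div_le_iff₀ hM0]
        exact (pow_le_pow_left₀ (norm_nonneg _) (hP z hz) 2).trans h2M
      constructor <;> linarith
    have hcP : CS (fun z => ‖vp e (K+2) z‖ ^ 2) := by
      apply Continuous.continuousOn; fun_prop
    have hξm : av ξ = -d := by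
      have e1 : av ξ = av (fun z => M⁻¹ * ‖vp e (K+2) z‖ ^ 2 - 1) := by
        apply av_congr
        intro z _
        rw [hξz]; ring
      have hc1 : CS (fun z => M⁻¹ * ‖vp e (K+2) z‖ ^ 2) := continuousOn_const.mul hcP
      rw [e1, av_sub hc1 continuousOn_const, av_const, av_mul_left, parseval, ← hSg, hd]
      field_simp
      ring
    -- variance bound
    have hξv : av (fun z => ξ z ^ 2) ≤ 54 * d := by
      have hshift : Continuous (fun z => ‖vp (fun k => e (k+1)) (K+1) z‖ ^ 2) := by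
        have := vp_continuous (fun k => e (k+1)) (K+1)
        fun_prop
      have hpt : ∀ z ∈ sphere (0:ℂ) 1, ξ z ^ 2
          ≤ (50 / M) * ‖vp (fun k => e (k+1)) (K+1) z‖ ^ 2 + 2 * ((M - ‖e 0‖ ^ 2) / M) ^ 2 := by
        intro z hz
        have hz1 : ‖z‖ = 1 := by simpa using hz
        obtain ⟨p, hp⟩ : ∃ p : ℝ, p = ‖vp (fun k => e (k+1)) (K+1) z‖ := ⟨_, rfl⟩
        have hp0 : 0 ≤ p := by rw [hp]; exact norm_nonneg _
        obtain ⟨n, hn⟩ : ∃ n : ℝ, n = ‖vp e (K+2) z‖ := ⟨_, rfl⟩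
        have hn0 : 0 ≤ n := by rw [hn]; exact norm_nonneg _
        have hsplit : vp e (K+2) z = e 0 + z • vp (fun k => e (k+1)) (K+1) z := vp_succ e (K+1) z
        have hzp : ‖z • vp (fun k => e (k+1)) (K+1) z‖ = p := by
          rw [norm_smul, hz1, one_mul, hp]
        have h1 : n ≤ ‖e 0‖ + p := by
          rw [hn, hsplit, ← hzp]; exact norm_add_le _ _
        have h2 : ‖e 0‖ ≤ n + p := by
          have : e 0 = vp e (K+2) z - z • vp (fun k => e (k+1)) (K+1) z := by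
            rw [hsplit]; abel
          calc ‖e 0‖ = ‖vp e (K+2) z - z • vp (fun k => e (k+1)) (K+1) z‖ := by rw [← this]
            _ ≤ _ := norm_sub_le _ _
            _ = n + p := by rw [hn, hzp]
        have h3 : p ≤ 3 * ‖e 0‖ := by
          have : p ≤ ‖e 1‖ + rho e K := by
            rw [hp, vp_succ]
            refine (norm_add_le _ _).trans ?_
            refine add_le_add (by simp) ?_
            rw [norm_smul, hz1, one_mul]
            unfold vp rho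
            refine (norm_sum_le _ _).trans ?_
            apply Finset.sum_le_sum
            intro k _
            rw [norm_smul, norm_pow, hz1, one_pow, one_mul]
          linarith
        rw [hξz, ← hp, ← hn]
        have h4 : (n ^ 2 - ‖e 0‖ ^ 2) ^ 2 ≤ 25 * M * p ^ 2 := by
          have h5 : (n - ‖e 0‖) ^ 2 ≤ p ^ 2 := by
            apply sq_le_sq'
            · linarith
            · linarith
          have h6 : (n + ‖e 0‖) ^ 2 ≤ 25 * ‖e 0‖ ^ 2 := by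
            have : n + ‖e 0‖ ≤ 5 * ‖e 0‖ := by linarith
            calc (n + ‖e 0‖) ^ 2 ≤ (5 * ‖e 0‖) ^ 2 := pow_le_pow_left₀ (by positivity) this 2
              _ = _ := by ring
          have h7 : ‖e 0‖ ^ 2 ≤ M := by
            have : 0 ≤ (2 + δ) * ‖e 1‖ ^ 2 := by positivity
            have : 0 ≤ (48 / δ) * rho e K ^ 2 := by positivity
            linarith
          calc (n ^ 2 - ‖e 0‖ ^ 2) ^ 2 = (n - ‖e 0‖) ^ 2 * (n + ‖e 0‖) ^ 2 := by ring
            _ ≤ p ^ 2 * (25 * ‖e 0‖ ^ 2) := by gcongr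
            _ ≤ p ^ 2 * (25 * M) := by gcongr
            _ = _ := by ring
        have h8 : (n ^ 2 / M - 1) = ((n ^ 2 - ‖e 0‖ ^ 2) - (M - ‖e 0‖ ^ 2)) / M := by
          field_simp; ring
        rw [h8, div_pow]
        have h9 : ((n ^ 2 - ‖e 0‖ ^ 2) - (M - ‖e 0‖ ^ 2)) ^ 2
            ≤ 2 * (n ^ 2 - ‖e 0‖ ^ 2) ^ 2 + 2 * (M - ‖e 0‖ ^ 2) ^ 2 := by
          nlinarith [sq_nonneg ((n ^ 2 - ‖e 0‖ ^ 2) + (M - ‖e 0‖ ^ 2))]
        have h10 : (50 / M) * p ^ 2 + 2 * ((M - ‖e 0‖ ^ 2) / M) ^ 2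
            = (50 * M * p ^ 2 + 2 * (M - ‖e 0‖ ^ 2) ^ 2) / M ^ 2 := by
          field_simp
        rw [h10]
        gcongr
        linarith
      have hc1 : CS (fun z => (50 / M) * ‖vp (fun k => e (k+1)) (K+1) z‖ ^ 2) :=
        continuousOn_const.mul hshift.continuousOn
      have hc2 : CS (fun _ : ℂ => 2 * ((M - ‖e 0‖ ^ 2) / M) ^ 2) := continuousOn_const
      have h1 := av_mono (hξc.pow 2) (hc1.add hc2) hpt
      have h2 : av (fun z => (50 / M) * ‖vp (fun k => e (k+1)) (K+1) z‖ ^ 2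
          + 2 * ((M - ‖e 0‖ ^ 2) / M) ^ 2) = (50 / M) * S1 + 2 * ((M - ‖e 0‖ ^ 2) / M) ^ 2 := by
        rw [av_add hc1 hc2, av_const, av_mul_left, parseval, hS1]
      have h3 : (50 / M) * S1 ≤ 50 * d := by
        rw [div_mul_eq_mul_div, div_le_iff₀ hM0]
        nlinarith
      have h4 : ((M - ‖e 0‖ ^ 2) / M) ^ 2 ≤ 2 * d := by
        have h5 : (M - ‖e 0‖ ^ 2) / M ≤ 2 * d := by
          rw [div_le_iff₀ hM0]
          nlinarith
        have h6 : (M - ‖e 0‖ ^ 2) / M ≤ 1 := by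
          rw [div_le_one hM0]
          nlinarith [sq_nonneg ‖e 0‖]
        have h7 : 0 ≤ (M - ‖e 0‖ ^ 2) / M := by
          apply div_nonneg _ hM0.le
          have : 0 ≤ (2 + δ) * ‖e 1‖ ^ 2 := by positivity
          have : 0 ≤ (48 / δ) * rho e K ^ 2 := by positivity
          linarith
        nlinarith
      have h5 : av (fun z => ξ z ^ 2) ≤ av (fun z => (50 / M) * ‖vp (fun k => e (k+1)) (K+1) z‖ ^ 2
          + 2 * ((M - ‖e 0‖ ^ 2) / M) ^ 2) := h1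
      rw [h2] at h5
      linarith
    -- the kernel
    obtain ⟨h, hh⟩ : ∃ h : ℂ → ℂ, h = fun z => ((1 - κ : ℝ) : ℂ) * H z := ⟨_, rfl⟩
    have hhz : ∀ z, h z = ((1 - κ : ℝ) : ℂ) * H z := fun z => by rw [hh]
    have hhd : DiffContOnCl ℂ h (ball 0 1) := by
      rw [hh]
      have := hH1.const_smul ((1 - κ : ℝ) : ℂ)
      exact this
    have hhc : CS h := DiffContOnCl.cs hhd
    have hh0 : h 0 = 0 := by rw [hhz, hH0, mul_zero]
    have hMc : CS (fun z => ‖vp e (K+2) z + conj (h z) • e 0‖ ^ 2) := by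
      apply ContinuousOn.pow
      apply ContinuousOn.norm
      apply ContinuousOn.add hvc.continuousOn
      apply ContinuousOn.smul _ continuousOn_const
      exact Complex.continuous_conj.comp_continuousOn hhc
    have hM' : ∀ z ∈ sphere (0:ℂ) 1, ‖vp e (K+2) z + conj (h z) • e 0‖ ^ 2
        ≤ M * (1 + k0 * ((B - M) / B) * ξ z) := by
      intro z hz
      have hz1 : ‖z‖ = 1 := by simpa using hz
      rw [← hκ]
      have hbdd : ‖vp e (K+2) z + conj (H z) • e 0‖ ^ 2 ≤ M := by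
        refine (hH3 z hz1).trans ?_
        have : (42 / δ) * rho e K ^ 2 ≤ (48 / δ) * rho e K ^ 2 := by gcongr; norm_num
        linarith
      obtain ⟨x, hx⟩ : ∃ x : E, x = vp e (K+2) z + conj (H z) • e 0 := ⟨_, rfl⟩
      obtain ⟨y, hy⟩ : ∃ y : E, y = vp e (K+2) z := ⟨_, rfl⟩
      have hconv : vp e (K+2) z + conj (h z) • e 0 = ((1 - κ : ℝ) : ℂ) • x + ((κ : ℝ) : ℂ) • y := by
        rw [hx, hy, hhz, map_mul, Complex.conj_ofReal]
        push_cast
        module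
      rw [hconv]
      have hn : ‖((1 - κ : ℝ) : ℂ) • x + ((κ : ℝ) : ℂ) • y‖ ≤ (1 - κ) * ‖x‖ + κ * ‖y‖ := by
        refine (norm_add_le _ _).trans ?_
        rw [norm_smul, norm_smul, Complex.norm_real, Complex.norm_real, Real.norm_eq_abs,
          Real.norm_eq_abs, abs_of_nonneg hκ0, abs_of_nonneg (by linarith : 0 ≤ 1 - κ)]
      have hn2 : ‖((1 - κ : ℝ) : ℂ) • x + ((κ : ℝ) : ℂ) • y‖ ^ 2
          ≤ (1 - κ) * ‖x‖ ^ 2 + κ * ‖y‖ ^ 2 := by
        refine (pow_le_pow_left₀ (norm_nonneg _) hn 2).trans ?_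
        have : 0 ≤ κ * (1 - κ) * (‖x‖ - ‖y‖) ^ 2 := by
          apply mul_nonneg (mul_nonneg hκ0 (by linarith)) (sq_nonneg _)
        nlinarith
      refine hn2.trans ?_
      rw [← hx] at hbdd
      have h3 : (1 - κ) * ‖x‖ ^ 2 ≤ (1 - κ) * M :=
        mul_le_mul_of_nonneg_left hbdd (by linarith)
      have h4 : M * (1 + κ * ξ z) = (1 - κ) * M + κ * ‖y‖ ^ 2 := by
        rw [hξz, ← hy]; field_simp; ring
      linarith
    obtain ⟨r1, r2, r3⟩ := logistic hM0 hMB hd0 hξc hMc hξ1 hξm hξv hM'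
    refine ⟨h, d, hd0, hhd, hh0, r1, r2, ?_, r3⟩
    rw [parseval_conj hhd hh0]
    have hh2 : av (fun z => ‖h z‖ ^ 2) ≤ 128 * d := by
      apply av_le_of_le (hhc.norm.pow 2)
      intro z hz
      have hz1 : ‖z‖ = 1 := by simpa using hz
      have h1 : ‖h z‖ ≤ ‖H z‖ := by
        rw [hhz, norm_mul, Complex.norm_real, Real.norm_eq_abs,
          abs_of_nonneg (by linarith : 0 ≤ 1 - κ)]
        exact mul_le_of_le_one_left (norm_nonneg _) (by linarith)
      have h2 := hH2 z hz1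
      have h3 : (‖H z‖ * ‖e 0‖) ^ 2 ≤ 128 * d * ‖e 0‖ ^ 2 := by
        calc (‖H z‖ * ‖e 0‖) ^ 2 ≤ (2 * ‖e 1‖ + rho e K) ^ 2 :=
              pow_le_pow_left₀ (by positivity) h2 2
          _ ≤ 8 * (‖e 1‖ ^ 2 + rho e K ^ 2) := by
              nlinarith [sq_nonneg (2 * ‖e 1‖ - rho e K), sq_nonneg (rho e K)]
          _ ≤ 8 * (d * M) := by linarith
          _ ≤ 8 * (d * (16 * ‖e 0‖ ^ 2)) := by gcongr
          _ = _ := by ring
      have h4 : ‖H z‖ ^ 2 ≤ 128 * d := by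
        have h5 : 0 < ‖e 0‖ ^ 2 := by positivity
        rw [mul_pow] at h3
        exact le_of_mul_le_mul_right h3 h5
      exact (pow_le_pow_left₀ (norm_nonneg _) h1 2).trans h4
    have hf0 : ‖f 0‖ ^ 2 ≤ ∑ k ∈ Finset.range (K+2), ‖f k‖ ^ 2 := by
      apply Finset.single_le_sum (f := fun k => ‖f k‖ ^ 2) (fun i _ => by positivity)
      simp
    have hN0 : 0 ≤ av (fun z => ‖h z‖ ^ 2) := av_nonneg (fun z _ => by positivity)
    calc (∑ k ∈ Finset.range (K+2), ‖f k‖ ^ 2) + av (fun z => ‖h z‖ ^ 2) * ‖f 0‖ ^ 2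
        ≤ (∑ k ∈ Finset.range (K+2), ‖f k‖ ^ 2) + 128 * d * ∑ k ∈ Finset.range (K+2), ‖f k‖ ^ 2 := by
          gcongr
      _ = _ := by ring

end Pool.Agent.Helper22Hardy
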