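import Pool.Agent.Helper22_Hardy.Avg

set_option autoImplicit false

open Complex Metric Real
open scoped ComplexConjugate

namespace Pool.Agent.Helper22Hardy

variable {E : Type*} [NormedAddCommGroup E] [InnerProductSpace ℂ E]

/-- Vector valued polynomial. -/
noncomputable def vp (v : ℕ → E) (n : ℕ) (z : ℂ) : E := ∑ k ∈ Finset.range n, z ^ k • v k

lemma vp_continuous (v : ℕ → E) (n : ℕ) : Continuous (vp v n) := by
  unfold vp
  fun_prop

lemma vp_succ (v : ℕ → E) (n : ℕ) (z : ℂ) :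
    vp v (n+1) z = v 0 + z • vp (fun k => v (k+1)) n z := by
  unfold vp
  rw [Finset.sum_range_succ', add_comm, Finset.smul_sum]
  simp [pow_succ', mul_smul]

lemma inner_vp (w : E) (v : ℕ → E) (n : ℕ) (z : ℂ) :
    inner ℂ w (vp v n z) = ∑ k ∈ Finset.range n, z ^ k * inner ℂ w (v k) := by
  unfold vp
  rw [inner_sum]
  simp only [inner_smul_right]

lemma diff_poly (c : ℕ → ℂ) (n : ℕ) :
    Differentiable ℂ (fun z : ℂ => ∑ k ∈ Finset.range n, z ^ k * c k) := by
  fun_prop

lemma cross_zero {h : ℂ → ℂ} (hh : DiffContOnCl ℂ h (ball 0 1)) (h0 : h 0 = 0)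
    (w : E) (v : ℕ → E) (n : ℕ) :
    av (fun z => (h z * inner ℂ w (vp v n z)).re) = 0 := by
  have h1 : DiffContOnCl ℂ (fun z => h z * inner ℂ w (vp v n z)) (ball 0 1) := by
    simp_rw [inner_vp]
    exact hh.smul (diff_poly (fun k => inner ℂ w (v k)) n).diffContOnCl
  have h2 := av_of_diff h1
  rw [h0, zero_mul] at h2
  have h3 := av_clm Complex.reCLM (DiffContOnCl.cs h1)
  rw [h2] at h3
  simpa using h3

lemma norm_sq_add (x y : E) : ‖x + y‖ ^ 2 = ‖x‖ ^ 2 + 2 * (inner ℂ x y : ℂ).re + ‖y‖ ^ 2 := by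
  have := @norm_add_sq ℂ E _ _ _ x y
  simpa using this

lemma parseval (v : ℕ → E) (n : ℕ) :
    av (fun z => ‖vp v n z‖ ^ 2) = ∑ k ∈ Finset.range n, ‖v k‖ ^ 2 := by
  induction n generalizing v with
  | zero => simp [vp, av_const]
  | succ n ih =>
    have h1 : ∀ z ∈ sphere (0:ℂ) 1, ‖vp v (n+1) z‖ ^ 2 =
        (‖v 0‖ ^ 2 + 2 * (z * inner ℂ (v 0) (vp (fun k => v (k+1)) n z)).re)
          + ‖vp (fun k => v (k+1)) n z‖ ^ 2 := by
      intro z hz
      rw [vp_succ, norm_sq_add, inner_smul_right, norm_smul]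
      have : ‖z‖ = 1 := by simpa using hz
      rw [this, one_mul]
    rw [av_congr h1, av_add, av_add, av_const, av_mul_left, ih, Finset.sum_range_succ', cross_zero]
    · ring
    · exact differentiable_id.diffContOnCl
    · rfl
    · exact continuousOn_const
    · have := vp_continuous (fun k => v (k+1)) n
      apply Continuous.continuousOn
      fun_prop
    · have := vp_continuous (fun k => v (k+1)) n
      apply Continuous.continuousOn
      fun_prop
    · have := vp_continuous (fun k => v (k+1)) n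
      apply Continuous.continuousOn
      fun_prop

lemma parseval_conj {h : ℂ → ℂ} (hh : DiffContOnCl ℂ h (ball 0 1)) (h0 : h 0 = 0)
    (w : E) (v : ℕ → E) (n : ℕ) :
    av (fun z => ‖vp v n z + conj (h z) • w‖ ^ 2)
      = (∑ k ∈ Finset.range n, ‖v k‖ ^ 2) + av (fun z => ‖h z‖ ^ 2) * ‖w‖ ^ 2 := by
  have hc := vp_continuous v n
  have hcs : CS h := DiffContOnCl.cs hh
  have h1 : ∀ z ∈ sphere (0:ℂ) 1, ‖vp v n z + conj (h z) • w‖ ^ 2 =
      (‖vp v n z‖ ^ 2 + 2 * (h z * inner ℂ w (vp v n z)).re) + ‖w‖ ^ 2 * ‖h z‖ ^ 2 := by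
    intro z _
    rw [add_comm (vp v n z), norm_sq_add, inner_smul_left, norm_smul]
    simp only [RCLike.norm_conj, conj_conj]
    ring
  have hc1 : CS (fun z => ‖vp v n z‖ ^ 2) := by
    apply Continuous.continuousOn
    fun_prop
  have hc2 : CS (fun z => 2 * (h z * inner ℂ w (vp v n z)).re) := by
    apply ContinuousOn.mul continuousOn_const
    apply Complex.continuous_re.comp_continuousOn
    apply ContinuousOn.mul hcs
    apply Continuous.continuousOn
    fun_prop
  have hc3 : CS (fun z => ‖w‖ ^ 2 * ‖h z‖ ^ 2) := by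
    apply ContinuousOn.mul continuousOn_const
    exact (hcs.norm).pow 2
  have hc12 : CS (fun z => ‖vp v n z‖ ^ 2 + 2 * (h z * inner ℂ w (vp v n z)).re) := hc1.add hc2
  rw [av_congr h1, av_add hc12 hc3, av_add hc1 hc2, av_mul_left, av_mul_left, parseval,
    cross_zero hh h0]
  ring

end Pool.Agent.Helper22Hardy
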