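import Pool.Agent.Helper22_Hardy.Maximal

set_option autoImplicit false

open Complex Metric Real
open scoped ComplexConjugate

namespace Pool.Agent.Helper22Hardy

variable {K : ℕ}

/-- the primes -/
noncomputable def P (i : ℕ) : ℕ := Nat.nth Nat.Prime i

lemma P_prime (i : ℕ) : (P i).Prime := Nat.prime_nth_prime i

lemma P_ge (i : ℕ) : i + 2 ≤ P i := Nat.add_two_le_nth_prime i

lemma P_ge_two (i : ℕ) : (2:ℝ) ≤ P i := by
  have := P_ge i
  exact_mod_cast (by omega : 2 ≤ P i)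

lemma P_pos (i : ℕ) : (0:ℝ) < P i := by linarith [P_ge_two i]

/-- partial sums of reciprocals of primes -/
noncomputable def T (i : ℕ) : ℝ := ∑ l ∈ Finset.range i, 1 / (P l : ℝ)

lemma T_zero : T 0 = 0 := by simp [T]

lemma T_succ (i : ℕ) : T (i+1) = T i + 1 / (P i : ℝ) := by
  unfold T; rw [Finset.sum_range_succ]

lemma T_nonneg (i : ℕ) : 0 ≤ T i := Finset.sum_nonneg (fun _ _ => by positivity)

lemma inv_P_le (i : ℕ) : 1 / (P i : ℝ) ≤ 1 / 2 :=
  one_div_le_one_div_of_le (by norm_num) (P_ge_two i)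

lemma T_mono : Monotone T := by
  apply monotone_nat_of_le_succ
  intro i
  rw [T_succ]
  have : 0 ≤ 1 / (P i : ℝ) := by positivity
  linarith

/-- block labels -/
noncomputable def lab (i : ℕ) : ℕ := ⌊T (i+1)⌋₊

lemma lab_mono : Monotone lab := fun _ _ h => Nat.floor_mono (T_mono (Nat.succ_le_succ h))

lemma lab_inc (i : ℕ) : lab (i+1) ≤ lab i + 1 := by
  unfold lab
  rw [← Nat.floor_add_one (T_nonneg _), T_succ (i+1)]
  apply Nat.floor_mono
  have := inv_P_le (i+1)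
  linarith

lemma lab_zero : lab 0 = 0 := by
  unfold lab
  rw [Nat.floor_eq_zero, T_succ, T_zero]
  have := inv_P_le 0
  linarith

lemma T_lt_of_lab {i J : ℕ} (h : i = 0 ∨ lab (i-1) ≤ J) : T i < J + 1 := by
  rcases Nat.eq_zero_or_pos i with h0 | hpos
  · rw [h0, T_zero]; positivity
  · have h' : lab (i-1) ≤ J := by
      rcases h with h | h
      · omega
      · exact h
    have h1 := Nat.lt_floor_add_one (T i)
    have h2 : lab (i-1) = ⌊T i⌋₊ := by
      unfold lab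
      rw [Nat.sub_add_cancel hpos]
    rw [h2] at h'
    have h3 : ((⌊T i⌋₊ : ℕ) : ℝ) ≤ J := by exact_mod_cast h'
    linarith

lemma T_le_lab {i : ℕ} (h : i = 0 ∨ lab (i-1) < lab i) : T i ≤ lab i := by
  rcases h with h | h
  · rw [h, T_zero]; positivity
  · have h1 := T_lt_of_lab (i := i) (J := lab (i-1)) (Or.inr le_rfl)
    have h2 : ((lab (i-1) : ℕ) : ℝ) + 1 ≤ lab i := by exact_mod_cast h
    linarith

/-- thresholds -/
noncomputable def dl (i : ℕ) : ℝ := 1 / √(P i)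

lemma sqrt_P_ge (i : ℕ) : 1 ≤ √(P i : ℝ) := by
  rw [Real.one_le_sqrt]
  linarith [P_ge_two i]

lemma dl_mem (i : ℕ) : 0 < dl i ∧ dl i ≤ 1 := by
  unfold dl
  have := sqrt_P_ge i
  constructor
  · positivity
  · rw [div_le_one (by linarith)]; exact this

noncomputable def qq (i : ℕ) : ℝ := 577 / ((P i : ℝ) * √(P i))

lemma qq_pos (i : ℕ) : 0 < qq i := by
  unfold qq
  have := P_pos i
  have := sqrt_P_ge i
  positivity

lemma qq_summable : Summable qq := by
  have h1 : Summable (fun n : ℕ => 1 / ((n:ℝ)) ^ (3/2 : ℝ)) :=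
    Real.summable_one_div_nat_rpow.2 (by norm_num)
  have h2 : Summable (fun n : ℕ => 1 / (((n + 1 : ℕ):ℝ)) ^ (3/2 : ℝ)) :=
    (summable_nat_add_iff 1).2 h1
  have h3 := h2.mul_left 577
  apply Summable.of_nonneg_of_le (fun i => (qq_pos i).le) _ h3
  intro i
  unfold qq
  have hp : ((i + 1 : ℕ) : ℝ) ≤ P i := by exact_mod_cast (by have := P_ge i; omega : i + 1 ≤ P i)
  have hpos : (0:ℝ) < ((i + 1 : ℕ) : ℝ) := by positivity
  have e1 : ((i + 1 : ℕ) : ℝ) ^ (3/2 : ℝ) = ((i + 1 : ℕ) : ℝ) * √((i + 1 : ℕ) : ℝ) := by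
    rw [Real.sqrt_eq_rpow, show (3/2 : ℝ) = 1 + 1/2 by norm_num, Real.rpow_add hpos,
      Real.rpow_one]
  rw [e1, mul_one_div]
  apply div_le_div_of_nonneg_left (by norm_num)
  · positivity
  · apply mul_le_mul hp (Real.sqrt_le_sqrt hp) (Real.sqrt_nonneg _) (P_pos i).le

noncomputable def Qf (i : ℕ) : ℝ := rexp (∑ l ∈ Finset.range i, qq l)

noncomputable def Qinf : ℝ := rexp (∑' l, qq l)

lemma Qf_le (i : ℕ) : Qf i ≤ Qinf := by
  unfold Qf Qinf
  apply Real.exp_le_exp.2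
  exact qq_summable.sum_le_tsum _ (fun l _ => (qq_pos l).le)

lemma Qf_pos (i : ℕ) : 0 < Qf i := exp_pos _

lemma Qinf_pos : 0 < Qinf := exp_pos _

lemma Qf_succ (i : ℕ) : Qf (i+1) = Qf i * rexp (qq i) := by
  unfold Qf
  rw [Finset.sum_range_succ, Real.exp_add]

lemma Qf_zero : Qf 0 = 1 := by simp [Qf]

/-- reciprocals restricted to admissible indices -/
noncomputable def uj (K J : ℕ) : (i r : ℕ) → Idx K r → ℝ
  | _, 0 => fun _ => 1
  | i, (r+1) => fun (ν : Fin (K+2) × Idx K r) =>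
      (if J < lab i ∧ ν.1 ≠ 0 then 0 else (1 / (P i : ℝ)) ^ (ν.1:ℕ)) * uj K J (i+1) r ν.2

lemma uj_succ (J i r : ℕ) (k : Fin (K+2)) (μ : Idx K r) :
    uj K J i (r+1) ((k, μ) : Fin (K+2) × Idx K r)
      = (if J < lab i ∧ k ≠ 0 then 0 else (1 / (P i : ℝ)) ^ (k:ℕ)) * uj K J (i+1) r μ := rfl

lemma uj_nonneg (J : ℕ) : ∀ (r i : ℕ) (ν : Idx K r), 0 ≤ uj K J i r ν
  | 0, i, ν => zero_le_one
  | r+1, i, ν => by
    obtain ⟨k, μ⟩ := (ν : Fin (K+2) × Idx K r)
    have e := uj_succ (K := K) J i r k μ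
    have h := uj_nonneg J r (i+1) μ
    have h2 : 0 ≤ (if J < lab i ∧ k ≠ 0 then (0:ℝ) else (1 / (P i : ℝ)) ^ (k:ℕ)) := by
      split_ifs
      · exact le_rfl
      · positivity
    calc (0:ℝ) ≤ _ := mul_nonneg h2 h
      _ = _ := e.symm

noncomputable def Dn (K J i r : ℕ) : ℝ := ∑ ν : Idx K r, uj K J i r ν

noncomputable def Zn (K J i r : ℕ) : ℝ := ∑ ν : Idx K r, Wg K lab dl J i r ν * uj K J i r ν

lemma Dn_succ (J i r : ℕ) : Dn K J i (r+1) =
    (∑ k : Fin (K+2), (if J < lab i ∧ k ≠ 0 then (0:ℝ) else (1 / (P i : ℝ)) ^ (k:ℕ)))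
      * Dn K J (i+1) r := by
  unfold Dn
  rw [sum_idx_succ, Finset.sum_mul_sum]
  rfl

lemma Dn_nonneg (J i r : ℕ) : 0 ≤ Dn K J i r := Finset.sum_nonneg (fun ν _ => uj_nonneg J r i ν)

lemma Dn_nonactive (J : ℕ) : ∀ (r i : ℕ), (r = 0 ∨ J < lab i) → Dn K J i r = 1
  | 0, i, _ => by
    unfold Dn
    rw [sum_idx_zero]
    rfl
  | r+1, i, h => by
    have hJ : J < lab i := by
      rcases h with h | h
      · exact absurd h (Nat.succ_ne_zero r)
      · exact h
    rw [Dn_succ, Dn_nonactive J r (i+1) (Or.inr (lt_of_lt_of_le hJ (lab_mono (Nat.le_succ i)))),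
      mul_one, Finset.sum_eq_single 0]
    · simp
    · intro k _ hk
      simp [hJ, hk]
    · simp

lemma Zn_nonactive (J r i : ℕ) (h : r = 0 ∨ J < lab i) : Zn K J i r = 1 := by
  rw [← Dn_nonactive (K := K) J r i h]
  unfold Zn Dn
  apply Finset.sum_congr rfl
  intro ν _
  rw [Wg_nonactive lab dl J i r h, one_mul]

lemma Zn_succ (J i r : ℕ) (h : ¬ J < lab i) : Zn K J i (r+1) =
    (∑ k : Fin (K+2), wt (dl i) k * (1 / (P i : ℝ)) ^ (k:ℕ)) * Zn K J (i+1) r
      + bonus lab J i * Dn K J i (r+1) := by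
  rw [Dn_succ]
  have e : ∀ k : Fin (K+2), (if J < lab i ∧ k ≠ 0 then (0:ℝ) else (1 / (P i : ℝ)) ^ (k:ℕ))
      = (1 / (P i : ℝ)) ^ (k:ℕ) := fun k => by simp [h]
  simp only [e]
  unfold Zn Dn
  rw [sum_idx_succ, Finset.sum_mul_sum, Finset.sum_mul_sum, Finset.mul_sum,
    ← Finset.sum_add_distrib]
  apply Finset.sum_congr rfl
  intro k _
  rw [Finset.mul_sum, ← Finset.sum_add_distrib]
  apply Finset.sum_congr rfl
  intro μ _
  rw [Wg_succ lab dl J i r h, uj_succ, e]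
  ring

lemma geom_aux {x : ℝ} (hx0 : 0 ≤ x) (hx : x ≤ 3/4) (n : ℕ) :
    ∑ k ∈ Finset.range n, x ^ (k+2) ≤ 4 * x ^ 2 := by
  have h1 := mul_neg_geom_sum x n
  have h2 : 0 ≤ x ^ n := pow_nonneg hx0 n
  have h3 : 0 ≤ ∑ i ∈ Finset.range n, x ^ i := Finset.sum_nonneg (fun _ _ => pow_nonneg hx0 _)
  have h4 : ∑ i ∈ Finset.range n, x ^ i ≤ 4 := by nlinarith
  have h5 : ∑ k ∈ Finset.range n, x ^ (k+2) = x ^ 2 * ∑ i ∈ Finset.range n, x ^ i := by
    rw [Finset.mul_sum]
    apply Finset.sum_congr rfl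
    intro k _
    ring
  rw [h5]
  nlinarith [sq_nonneg x]

lemma sumwt_le (i : ℕ) : ∑ k : Fin (K+2), wt (dl i) k * (1 / (P i : ℝ)) ^ (k:ℕ)
    ≤ 1 + 2 / (P i : ℝ) + qq i := by
  rw [← Finset.sum_range (fun k => wt (dl i) k * (1 / (P i : ℝ)) ^ k),
    Finset.sum_range_succ', Finset.sum_range_succ']
  simp only [wt_zero, wt_one, wt_two, zero_add, pow_zero, mul_one, pow_one, Nat.add_assoc,
    Nat.reduceAdd]
  obtain ⟨p, hp⟩ : ∃ p : ℝ, p = P i := ⟨_, rfl⟩
  obtain ⟨s, hs⟩ : ∃ s : ℝ, s = √(P i : ℝ) := ⟨_, rfl⟩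
  have hs2 : s * s = p := by rw [hs, hp]; exact Real.mul_self_sqrt (P_pos i).le
  have hp2 : 2 ≤ p := by rw [hp]; exact P_ge_two i
  have hs0 : 1 ≤ s := by rw [hs]; exact sqrt_P_ge i
  have hd : dl i = 1 / s := by unfold dl; rw [hs]
  have hq : qq i = 577 / (p * s) := by unfold qq; rw [hs, hp]
  rw [hd, hq, ← hp]
  have hx0 : 0 ≤ 3 / 2 * (1 / p) := by positivity
  have hx : 3 / 2 * (1 / p) ≤ 3 / 4 := by
    have : 1 / p ≤ 1 / 2 := one_div_le_one_div_of_le (by norm_num) hp2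
    linarith
  have h1 := geom_aux hx0 hx K
  have h2 : ∑ k ∈ Finset.range K, 64 / (1 / s) * (3 / 2) ^ (k + 2) * (1 / p) ^ (k + 2)
      = 64 * s * ∑ k ∈ Finset.range K, (3 / 2 * (1 / p)) ^ (k+2) := by
    rw [Finset.mul_sum]
    apply Finset.sum_congr rfl
    intro k _
    rw [mul_pow]
    field_simp
  rw [h2]
  have h3 : 64 * s * ∑ k ∈ Finset.range K, (3 / 2 * (1 / p)) ^ (k+2)
      ≤ 64 * s * (4 * (3 / 2 * (1 / p)) ^ 2) :=
    mul_le_mul_of_nonneg_left h1 (by positivity)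
  have h4 : 64 * s * (4 * (3 / 2 * (1 / p)) ^ 2) = 576 / (p * s) := by
    rw [← hs2]; field_simp; norm_num
  have h5 : (2 + 1 / s) * (1 / p) = 2 / p + 1 / (p * s) := by
    field_simp
  have h6 : 577 / (p * s) = 576 / (p * s) + 1 / (p * s) := by ring
  rw [h5, h6]
  linarith

lemma sumx_le (i : ℕ) : ∑ k : Fin (K+2), (1 / (P i : ℝ)) ^ (k:ℕ) ≤ 1 + 1 / (P i : ℝ) + qq i := by
  rw [← Finset.sum_range (fun k => (1 / (P i : ℝ)) ^ k),
    Finset.sum_range_succ', Finset.sum_range_succ']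
  simp only [zero_add, pow_zero, pow_one, Nat.add_assoc, Nat.reduceAdd]
  obtain ⟨p, hp⟩ : ∃ p : ℝ, p = P i := ⟨_, rfl⟩
  obtain ⟨s, hs⟩ : ∃ s : ℝ, s = √(P i : ℝ) := ⟨_, rfl⟩
  have hs2 : s * s = p := by rw [hs, hp]; exact Real.mul_self_sqrt (P_pos i).le
  have hp2 : 2 ≤ p := by rw [hp]; exact P_ge_two i
  have hs0 : 1 ≤ s := by rw [hs]; exact sqrt_P_ge i
  have hq : qq i = 577 / (p * s) := by unfold qq; rw [hs, hp]
  rw [hq, ← hp]
  have hx0 : 0 ≤ 1 / p := by positivity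
  have hx : 1 / p ≤ 3 / 4 := by
    have : 1 / p ≤ 1 / 2 := one_div_le_one_div_of_le (by norm_num) hp2
    linarith
  have h1 := geom_aux hx0 hx K
  have h4 : 4 * (1 / p) ^ 2 ≤ 577 / (p * s) := by
    have : 4 * (1 / p) ^ 2 = 4 / (p * (s * s)) := by rw [hs2]; field_simp
    rw [this, div_le_div_iff₀ (by positivity) (by positivity)]
    have hps : 0 < p * s := by positivity
    nlinarith [mul_le_mul_of_nonneg_left hs0 hps.le]
  linarith

lemma exp_ge_12q (i : ℕ) : 1 + 2 / (P i : ℝ) + qq i ≤ rexp (2 * (1 / (P i : ℝ))) * rexp (qq i) := by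
  rw [← Real.exp_add]
  have := Real.add_one_le_exp (2 * (1 / (P i : ℝ)) + qq i)
  have e : 2 / (P i : ℝ) = 2 * (1 / (P i : ℝ)) := by ring
  rw [e]
  linarith

lemma exp_ge_11q (i : ℕ) : 1 + 1 / (P i : ℝ) + qq i ≤ rexp (1 / (P i : ℝ)) * rexp (qq i) := by
  rw [← Real.exp_add]
  have := Real.add_one_le_exp (1 / (P i : ℝ) + qq i)
  linarith

lemma Dn_bound (J : ℕ) : ∀ (r i : ℕ), (i = 0 ∨ lab (i-1) ≤ J) →
    rexp (T i) * Qf i * Dn K J i r ≤ Qinf * rexp (J + 1) := by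
  intro r
  induction r with
  | zero =>
    intro i h
    rw [Dn_nonactive J 0 i (Or.inl rfl), mul_one, mul_comm]
    apply mul_le_mul (Qf_le i) _ (exp_pos _).le Qinf_pos.le
    exact Real.exp_le_exp.2 (T_lt_of_lab h).le
  | succ r ih =>
    intro i h
    by_cases hJ : J < lab i
    · rw [Dn_nonactive J (r+1) i (Or.inr hJ), mul_one, mul_comm]
      apply mul_le_mul (Qf_le i) _ (exp_pos _).le Qinf_pos.le
      exact Real.exp_le_exp.2 (T_lt_of_lab h).le
    · have h1 := ih (i+1) (Or.inr (by simpa using not_lt.1 hJ))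
      refine le_trans ?_ h1
      rw [Dn_succ, T_succ, Real.exp_add, Qf_succ]
      have e : ∀ k : Fin (K+2), (if J < lab i ∧ k ≠ 0 then (0:ℝ) else (1 / (P i : ℝ)) ^ (k:ℕ))
          = (1 / (P i : ℝ)) ^ (k:ℕ) := fun k => by simp [hJ]
      simp only [e]
      have h2 := (sumx_le (K := K) i).trans (exp_ge_11q i)
      have h3 : 0 ≤ rexp (T i) * Qf i * Dn K J (i+1) r :=
        mul_nonneg (mul_nonneg (exp_pos _).le (Qf_pos i).le) (Dn_nonneg _ _ _)
      have h4 := mul_le_mul_of_nonneg_left h2 h3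
      calc _ = rexp (T i) * Qf i * Dn K J (i+1) r * ∑ k : Fin (K+2), (1 / (P i : ℝ)) ^ (k:ℕ) := by
            ring
        _ ≤ _ := h4
        _ = _ := by ring

/-- block potential -/
noncomputable def Ff (i : ℕ) : ℝ := if i = 0 then 0 else rexp ((lab (i-1) : ℝ) / 2)

lemma Ff_succ (i : ℕ) : Ff (i+1) = rexp ((lab i : ℝ) / 2) := by simp [Ff]

lemma Ff_le {i J : ℕ} (h : i = 0 ∨ lab (i-1) ≤ J) : Ff i ≤ rexp ((J:ℝ) / 2) := by
  unfold Ff
  split_ifs with h0
  · exact (exp_pos _).le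
  · have h' : lab (i-1) ≤ J := by
      rcases h with h | h
      · exact absurd h h0
      · exact h
    apply Real.exp_le_exp.2
    have : ((lab (i-1) : ℕ) : ℝ) ≤ J := by exact_mod_cast h'
    linarith

lemma Ff_step (i : ℕ) : Ff i ≤ Ff (i+1) := by
  rw [Ff_succ]
  apply Ff_le
  right
  exact lab_mono (Nat.sub_le i 1)

lemma exp_half_ge : (3/2 : ℝ) ≤ rexp (1/2) := by
  have := Real.add_one_le_exp (1/2 : ℝ)
  linarith

lemma Ff_start {i : ℕ} (h : i = 0 ∨ lab (i-1) < lab i) :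
    rexp ((lab i : ℝ) / 2) ≤ 3 * (Ff (i+1) - Ff i) := by
  rw [Ff_succ]
  have hpos := exp_pos ((lab i : ℝ) / 2)
  unfold Ff
  split_ifs with h0
  · linarith
  · have h' : lab (i-1) < lab i := by
      rcases h with h | h
      · exact absurd h h0
      · exact h
    have h1 : ((lab (i-1) : ℕ) : ℝ) + 1 ≤ lab i := by exact_mod_cast h'
    have h2 : rexp ((lab (i-1) : ℝ) / 2) * rexp (1/2) ≤ rexp ((lab i : ℝ) / 2) := by
      rw [← Real.exp_add]
      apply Real.exp_le_exp.2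
      linarith
    have h3 := exp_half_ge
    have h4 := exp_pos ((lab (i-1) : ℝ) / 2)
    nlinarith

/-- the constant B of the potential -/
noncomputable def Bc (J : ℕ) : ℝ := 3 * rexp ((J:ℝ) / 2 + J + 1)

lemma Zn_bound (J : ℕ) : ∀ (r i : ℕ), (i = 0 ∨ lab (i-1) ≤ J) →
    rexp (2 * T i) * Qf i * Zn K J i r ≤
      Qinf * (rexp (2 * (J + 1)) + Bc J * (rexp ((J:ℝ) / 2) - Ff i)) := by
  intro r
  have hbase : ∀ (r i : ℕ), (r = 0 ∨ J < lab i) → (i = 0 ∨ lab (i-1) ≤ J) →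
      rexp (2 * T i) * Qf i * Zn K J i r ≤
      Qinf * (rexp (2 * (J + 1)) + Bc J * (rexp ((J:ℝ) / 2) - Ff i)) := by
    intro r i hna h
    rw [Zn_nonactive J r i hna, mul_one, mul_comm]
    apply mul_le_mul (Qf_le i) _ (exp_pos _).le Qinf_pos.le
    have h1 : rexp (2 * T i) ≤ rexp (2 * (J + 1)) := by
      apply Real.exp_le_exp.2
      linarith [T_lt_of_lab h]
    have h2 := Ff_le h
    have h3 : 0 ≤ Bc J := by unfold Bc; positivity
    have h4 := mul_nonneg h3 (sub_nonneg.2 h2)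
    linarith
  induction r with
  | zero => exact fun i h => hbase 0 i (Or.inl rfl) h
  | succ r ih =>
    intro i h
    by_cases hJ : J < lab i
    · exact hbase (r+1) i (Or.inr hJ) h
    · have hJ' : lab i ≤ J := not_lt.1 hJ
      have h1 := ih (i+1) (Or.inr (by simpa using hJ'))
      rw [Zn_succ J i r hJ]
      have h2 := (sumwt_le (K := K) i).trans (exp_ge_12q i)
      have hZ : 0 ≤ Zn K J (i+1) r := by
        unfold Zn
        apply Finset.sum_nonneg
        intro ν _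
        apply mul_nonneg _ (uj_nonneg J r (i+1) ν)
        linarith [Wg_ge_one (K := K) lab dl J dl_mem r (i+1) ν]
      have h3 : 0 ≤ rexp (2 * T i) * Qf i * Zn K J (i+1) r :=
        mul_nonneg (mul_nonneg (exp_pos _).le (Qf_pos i).le) hZ
      have h4 := mul_le_mul_of_nonneg_left h2 h3
      have h5 : rexp (2 * T i) * Qf i * Zn K J (i+1) r
          * (rexp (2 * (1 / (P i : ℝ))) * rexp (qq i))
          = rexp (2 * T (i+1)) * Qf (i+1) * Zn K J (i+1) r := by
        rw [T_succ, Qf_succ, mul_add, Real.exp_add]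
        ring
      rw [h5] at h4
      have h6 := h4.trans h1
      have h7 : bonus lab J i * rexp (T i) * (rexp (T i) * Qf i * Dn K J i (r+1))
          ≤ Qinf * (Bc J * (Ff (i+1) - Ff i)) := by
        have hD := Dn_bound (K := K) J (r+1) i h
        by_cases hst : i = 0 ∨ lab (i-1) < lab i
        · have hb : bonus lab J i = rexp (((J:ℝ) - lab i) / 2) := by
            unfold bonus; rw [if_pos hst]
          have hT := T_le_lab hst
          have hF := Ff_start hst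
          rw [hb]
          calc rexp (((J:ℝ) - lab i) / 2) * rexp (T i) * (rexp (T i) * Qf i * Dn K J i (r+1))
              ≤ rexp (((J:ℝ) - lab i) / 2) * rexp (lab i) * (Qinf * rexp (J + 1)) := by
                apply mul_le_mul _ hD _ (by positivity)
                · apply mul_le_mul_of_nonneg_left (Real.exp_le_exp.2 hT) (exp_pos _).le
                · exact mul_nonneg (mul_nonneg (exp_pos _).le (Qf_pos i).le) (Dn_nonneg _ _ _)
            _ = Qinf * (rexp ((J:ℝ) / 2 + J + 1) * rexp ((lab i : ℝ) / 2)) := by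
                have e : rexp (((J:ℝ) - lab i) / 2) * rexp (lab i) * rexp (J + 1)
                    = rexp ((J:ℝ) / 2 + J + 1) * rexp ((lab i : ℝ) / 2) := by
                  rw [← Real.exp_add, ← Real.exp_add, ← Real.exp_add]
                  congr 1
                  ring
                calc _ = Qinf * (rexp (((J:ℝ) - lab i) / 2) * rexp (lab i) * rexp (J + 1)) := by
                      ring
                  _ = _ := by rw [e]
            _ ≤ Qinf * (rexp ((J:ℝ) / 2 + J + 1) * (3 * (Ff (i+1) - Ff i))) := by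
                apply mul_le_mul_of_nonneg_left _ Qinf_pos.le
                apply mul_le_mul_of_nonneg_left hF (exp_pos _).le
            _ = _ := by unfold Bc; ring
        · have hb : bonus lab J i = 0 := by unfold bonus; rw [if_neg hst]
          rw [hb]
          have h3 : 0 ≤ Bc J := by unfold Bc; positivity
          have := mul_nonneg Qinf_pos.le (mul_nonneg h3 (sub_nonneg.2 (Ff_step i)))
          linarith
      have h8 : rexp (2 * T i) = rexp (T i) * rexp (T i) := by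
        rw [← Real.exp_add]; congr 1; ring
      calc rexp (2 * T i) * Qf i * ((∑ k : Fin (K+2), wt (dl i) k * (1 / (P i : ℝ)) ^ (k:ℕ))
              * Zn K J (i+1) r + bonus lab J i * Dn K J i (r+1))
          = rexp (2 * T i) * Qf i * Zn K J (i+1) r
              * (∑ k : Fin (K+2), wt (dl i) k * (1 / (P i : ℝ)) ^ (k:ℕ))
            + bonus lab J i * rexp (T i) * (rexp (T i) * Qf i * Dn K J i (r+1)) := by
            rw [h8]; ring
        _ ≤ Qinf * (rexp (2 * (J + 1)) + Bc J * (rexp ((J:ℝ) / 2) - Ff (i+1)))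
            + Qinf * (Bc J * (Ff (i+1) - Ff i)) := add_le_add h6 h7
        _ = _ := by ring

lemma Zn_zero_bound (J m : ℕ) : Zn K J 0 m ≤ Qinf * (rexp 2 + 3 * rexp 1) * rexp (2 * J) := by
  have h := Zn_bound (K := K) J m 0 (Or.inl rfl)
  rw [T_zero, Qf_zero] at h
  have hF : Ff 0 = 0 := by simp [Ff]
  rw [hF] at h
  simp only [mul_zero, Real.exp_zero, one_mul, sub_zero] at h
  refine h.trans (le_of_eq ?_)
  unfold Bc
  have e1 : rexp (2 * ((J:ℝ) + 1)) = rexp 2 * rexp (2 * J) := by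
    rw [← Real.exp_add]; congr 1; ring
  have e2 : 3 * rexp ((J:ℝ) / 2 + J + 1) * rexp ((J:ℝ) / 2) = 3 * rexp 1 * rexp (2 * J) := by
    rw [mul_assoc, mul_assoc, ← Real.exp_add, ← Real.exp_add]
    congr 2
    ring
  rw [e1, e2]
  ring

end Pool.Agent.Helper22Hardy
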